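import Mathlib

/-! # Independent sets of an `r`-graph: free vertices, classes, cores -/

set_option autoImplicit false

open Finset

namespace Pool.Agent.J4.H84.TU

variable {V : Type*} [Fintype V] [DecidableEq V]

/-- `A` contains no member of `T`. -/
def ind (T : Finset (Finset V)) (A : Finset V) : Prop := ∀ e ∈ T, ¬ e ⊆ A

instance instDecInd (T : Finset (Finset V)) : DecidablePred (ind T) := fun A => by
  unfold ind; infer_instance

/-- free vertices -/
def U (T : Finset (Finset V)) (C : Finset V) : Finset V :=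
  univ.filter fun z => z ∉ C ∧ ind T (insert z C)

/-- the free vertices blocked by `a`, with `a` -/
def cls (T : Finset (Finset V)) (C : Finset V) (a : V) : Finset V :=
  (U T C).filter fun z => z = a ∨ ¬ ind T (insert a (insert z C))

/-- blocked vertices -/
def blk (T : Finset (Finset V)) (A : Finset V) : Finset V :=
  univ.filter fun z => z ∉ A ∧ ¬ ind T (insert z A)

/-- the core: the elements whose deletion frees `z` -/
def core (T : Finset (Finset V)) (A : Finset V) (z : V) : Finset V :=
  A.filter fun a => ind T (insert z (A.erase a))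

/-- the independent `i`-sets -/
def I (T : Finset (Finset V)) (i : ℕ) : Finset (Finset V) :=
  (powersetCard i univ).filter (ind T)

variable {T : Finset (Finset V)}

omit [Fintype V] [DecidableEq V] in
theorem ind_mono {A B : Finset V} (h : A ⊆ B) (hB : ind T B) : ind T A :=
  fun e he heA => hB e he (heA.trans h)

theorem mem_U {C : Finset V} {z : V} : z ∈ U T C ↔ z ∉ C ∧ ind T (insert z C) := by
  simp [U]

theorem mem_blk {C : Finset V} {z : V} : z ∈ blk T C ↔ z ∉ C ∧ ¬ ind T (insert z C) := by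
  simp [blk]

theorem mem_cls {C : Finset V} {a z : V} :
    z ∈ cls T C a ↔ z ∈ U T C ∧ (z = a ∨ ¬ ind T (insert a (insert z C))) := by
  simp [cls]

theorem mem_core {A : Finset V} {a z : V} :
    a ∈ core T A z ↔ a ∈ A ∧ ind T (insert z (A.erase a)) := by
  simp [core]

theorem mem_I {A : Finset V} {i : ℕ} : A ∈ I T i ↔ A.card = i ∧ ind T A := by
  simp [I, mem_powersetCard]

theorem card_parts (A : Finset V) :
    A.card + (U T A).card + (blk T A).card = Fintype.card V := by
  have h1 : Disjoint A (U T A) := by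
    rw [Finset.disjoint_left]; intro z hz hz'; exact (mem_U.1 hz').1 hz
  have h2 : Disjoint (A ∪ U T A) (blk T A) := by
    rw [Finset.disjoint_left]; intro z hz hz'
    rcases mem_union.1 hz with h | h
    · exact (mem_blk.1 hz').1 h
    · exact (mem_blk.1 hz').2 (mem_U.1 h).2
  rw [← card_union_of_disjoint h1, ← card_union_of_disjoint h2, ← card_univ]
  congr 1
  ext z
  simp only [mem_union, mem_univ, iff_true, mem_U, mem_blk]
  tauto

theorem cls_subset_U (C : Finset V) (a : V) : cls T C a ⊆ U T C := filter_subset _ _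

theorem self_mem_cls {C : Finset V} {a : V} (ha : a ∈ U T C) : a ∈ cls T C a :=
  mem_cls.2 ⟨ha, Or.inl rfl⟩

theorem cls_symm {C : Finset V} {a b : V} (ha : a ∈ U T C) (h : b ∈ cls T C a) :
    a ∈ cls T C b := by
  rw [mem_cls] at h ⊢
  refine ⟨ha, ?_⟩
  rcases h.2 with h | h
  · exact Or.inl h.symm
  · right; rwa [Finset.insert_comm]

theorem U_insert {C : Finset V} {a : V} (ha : a ∈ U T C) :
    U T (insert a C) = U T C \ cls T C a := by
  ext z
  rw [mem_sdiff, mem_cls, mem_U, mem_U]
  rw [mem_U] at ha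
  constructor
  · rintro ⟨h1, h2⟩
    rw [mem_insert, not_or] at h1
    have h3 : ind T (insert z C) := ind_mono (insert_subset_insert _ (subset_insert _ _)) h2
    refine ⟨⟨h1.2, h3⟩, ?_⟩
    rintro ⟨-, h | h⟩
    · exact h1.1 h
    · rw [Finset.insert_comm] at h; exact h h2
  · rintro ⟨⟨h1, h2⟩, h3⟩
    have h4 : ¬ (z = a ∨ ¬ ind T (insert a (insert z C))) := fun h => h3 ⟨⟨h1, h2⟩, h⟩
    rw [not_or, not_not] at h4
    refine ⟨?_, ?_⟩
    · rw [mem_insert, not_or]; exact ⟨h4.1, h1⟩
    · rw [Finset.insert_comm]; exact h4.2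

theorem card_U_insert {C : Finset V} {a : V} (ha : a ∈ U T C) :
    (U T (insert a C)).card + (cls T C a).card = (U T C).card := by
  rw [U_insert ha]
  exact card_sdiff_add_card_eq_card (cls_subset_U C a)

theorem U_anti {A B : Finset V} (h : A ⊆ B) : U T B ⊆ U T A := by
  intro z hz
  rw [mem_U] at hz ⊢
  exact ⟨fun h1 => hz.1 (h h1), ind_mono (insert_subset_insert _ h) hz.2⟩

/-- double counting of the pairs (independent set, element) -/
theorem sum_pairs {M : Type*} [AddCommMonoid M] (T : Finset (Finset V)) (i : ℕ)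
    (F : Finset V → V → M) :
    ∑ C ∈ I T i, ∑ y ∈ U T C, F C y = ∑ A ∈ I T (i + 1), ∑ a ∈ A, F (A.erase a) a := by
  rw [Finset.sum_sigma', Finset.sum_sigma']
  refine Finset.sum_nbij' (fun x => ⟨insert x.2 x.1, x.2⟩) (fun x => ⟨x.1.erase x.2, x.2⟩)
    ?_ ?_ ?_ ?_ ?_
  · rintro ⟨C, y⟩ h
    simp only [mem_sigma, mem_I, mem_U] at h ⊢
    exact ⟨⟨by rw [card_insert_of_notMem h.2.1, h.1.1], h.2.2⟩, mem_insert_self _ _⟩
  · rintro ⟨A, a⟩ h
    simp only [mem_sigma, mem_I, mem_U] at h ⊢
    refine ⟨⟨by rw [card_erase_of_mem h.2, h.1.1]; rfl, ind_mono (erase_subset _ _) h.1.2⟩,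
      notMem_erase _ _, ?_⟩
    rw [insert_erase h.2]; exact h.1.2
  · rintro ⟨C, y⟩ h
    simp only [mem_sigma, mem_I, mem_U] at h
    simp only [erase_insert h.2.1]
  · rintro ⟨A, a⟩ h
    simp only [mem_sigma, mem_I] at h
    simp only [insert_erase h.2]
  · rintro ⟨C, y⟩ h
    simp only [mem_sigma, mem_I, mem_U] at h
    simp only [erase_insert h.2.1]

theorem mem_cls_erase {A : Finset V} (hA : ind T A) {a z : V} (ha : a ∈ A) :
    z ∈ cls T (A.erase a) a ↔ z = a ∨ (z ∈ blk T A ∧ a ∈ core T A z) := by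
  rw [mem_cls, mem_U, mem_blk, mem_core]
  constructor
  · rintro ⟨⟨h1, h2⟩, h3⟩
    rcases h3 with h3 | h3
    · exact Or.inl h3
    · by_cases hza : z = a
      · exact Or.inl hza
      · right
        refine ⟨⟨?_, ?_⟩, ha, h2⟩
        · intro hz; exact h1 (mem_erase.2 ⟨hza, hz⟩)
        · rw [Finset.insert_comm, insert_erase ha] at h3; exact h3
  · rintro (h | ⟨⟨h1, h2⟩, -, h4⟩)
    · subst h
      exact ⟨⟨notMem_erase _ _, by rw [insert_erase ha]; exact hA⟩, Or.inl rfl⟩
    · refine ⟨⟨fun h => h1 (mem_of_mem_erase h), h4⟩, Or.inr ?_⟩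
      rw [Finset.insert_comm, insert_erase ha]; exact h2

/-- the blocked vertices with `a` in the core -/
def D (T : Finset (Finset V)) (A : Finset V) (a : V) : Finset V :=
  (blk T A).filter fun z => a ∈ core T A z

theorem mem_D {A : Finset V} {a z : V} : z ∈ D T A a ↔ z ∈ blk T A ∧ a ∈ core T A z := by
  simp [D]

theorem cls_erase_eq {A : Finset V} (hA : ind T A) {a : V} (ha : a ∈ A) :
    cls T (A.erase a) a = insert a (D T A a) := by
  ext z
  rw [mem_cls_erase hA ha, mem_insert, mem_D]

theorem card_cls_erase {A : Finset V} (hA : ind T A) {a : V} (ha : a ∈ A) :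
    (cls T (A.erase a) a).card = (D T A a).card + 1 := by
  rw [cls_erase_eq hA ha, card_insert_of_notMem]
  intro h
  exact (mem_blk.1 (mem_D.1 h).1).1 ha

theorem sum_card_D (A : Finset V) :
    ∑ a ∈ A, (D T A a).card = ∑ z ∈ blk T A, (core T A z).card := by
  have h1 : ∀ a ∈ A, (D T A a).card = ∑ z ∈ blk T A, if a ∈ core T A z then 1 else 0 := by
    intro a _
    rw [D, card_filter]
  rw [sum_congr rfl h1, sum_comm]
  refine sum_congr rfl fun z _ => ?_
  rw [← card_filter]
  congr 1
  ext a
  simp only [mem_filter, mem_core]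
  tauto

/-- an edge through a blocked vertex -/
theorem exists_edge {A : Finset V} (hA : ind T A) {z : V} (hz : z ∈ blk T A) :
    ∃ e ∈ T, z ∈ e ∧ e ⊆ insert z A ∧ core T A z ⊆ e.erase z := by
  rw [mem_blk] at hz
  have h := hz.2
  unfold ind at h
  push Not at h
  obtain ⟨e, he, hes⟩ := h
  have hze : z ∈ e := by
    by_contra hze
    exact hA e he fun x hx => by
      rcases mem_insert.1 (hes hx) with h | h
      · exact absurd (h ▸ hx) hze
      · exact h
  refine ⟨e, he, hze, hes, fun a ha => ?_⟩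
  rw [mem_core] at ha
  by_contra hae
  have hne : a ≠ z := fun h => hz.1 (h ▸ ha.1)
  have hae' : a ∉ e := fun h => hae (mem_erase.2 ⟨hne, h⟩)
  refine ha.2 e he fun x hx => ?_
  rcases mem_insert.1 (hes hx) with h | h
  · rw [h]; exact mem_insert_self _ _
  · exact mem_insert_of_mem (mem_erase.2 ⟨fun hxa => hae' (hxa ▸ hx), h⟩)

theorem card_core_le {r : ℕ} (hT : ∀ e ∈ T, e.card = r) {A : Finset V} (hA : ind T A) {z : V}
    (hz : z ∈ blk T A) : (core T A z).card + 1 ≤ r := by
  obtain ⟨e, he, hze, -, hc⟩ := exists_edge hA hz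
  have h1 := card_le_card hc
  rw [card_erase_of_mem hze, hT e he] at h1
  have : 0 < r := by rw [← hT e he]; exact card_pos.2 ⟨z, hze⟩
  omega

/-- total deficiency of the cores -/
noncomputable def sig (T : Finset (Finset V)) (r : ℕ) (A : Finset V) : ℝ :=
  ∑ z ∈ blk T A, ((r : ℝ) - 1 - (core T A z).card)

theorem sig_nonneg {r : ℕ} (hT : ∀ e ∈ T, e.card = r) {A : Finset V} (hA : ind T A) :
    0 ≤ sig T r A := by
  refine sum_nonneg fun z hz => ?_
  have := card_core_le hT hA hz
  have h2 : ((core T A z).card : ℝ) + 1 ≤ r := by exact_mod_cast this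
  linarith

theorem sum_cls (r : ℕ) {A : Finset V} (hA : ind T A) :
    ∑ a ∈ A, ((cls T (A.erase a) a).card : ℝ) =
      A.card + ((r : ℝ) - 1) * (blk T A).card - sig T r A := by
  have h1 : ∑ a ∈ A, ((cls T (A.erase a) a).card : ℝ) = ∑ a ∈ A, (((D T A a).card : ℝ) + 1) :=
    sum_congr rfl fun a ha => by rw [card_cls_erase hA ha]; push_cast; ring
  rw [h1, sum_add_distrib]
  have h2 : ∑ a ∈ A, ((D T A a).card : ℝ) = ∑ z ∈ blk T A, ((core T A z).card : ℝ) := by
    have := sum_card_D (T := T) A
    exact_mod_cast this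
  rw [h2]
  unfold sig
  rw [sum_sub_distrib]
  simp only [sum_const, nsmul_eq_mul, mul_one]
  ring

/-- the core grows when the set shrinks -/
theorem core_mono {A C : Finset V} (hCA : C ⊆ A) {z : V} (hz : z ∈ blk T C) :
    core T A z ⊆ core T C z := by
  intro a ha
  rw [mem_core] at ha ⊢
  rw [mem_blk] at hz
  have haC : a ∈ C := by
    by_contra h
    refine hz.2 (ind_mono (insert_subset_insert _ ?_) ha.2)
    intro x hx
    exact mem_erase.2 ⟨fun h1 => h (h1 ▸ hx), hCA hx⟩
  exact ⟨haC, ind_mono (insert_subset_insert _ (erase_subset_erase _ hCA)) ha.2⟩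

/-- the ordered pairs which are minimal transversals for `z` -/
def trv (T : Finset (Finset V)) (A : Finset V) (z : V) : Finset (V × V) :=
  (A ×ˢ A).filter fun x => x.1 ≠ x.2 ∧ x.1 ∉ core T A z ∧ x.2 ∉ core T A z ∧
    ind T (insert z ((A.erase x.1).erase x.2))

/-- for given `a` there are at most `r - 1` partners -/
theorem trv_partner {r : ℕ} (hT : ∀ e ∈ T, e.card = r) {A : Finset V} (hA : ind T A) {z : V}
    (hz : z ∈ blk T A) (a : V) :
    ((trv T A z).filter fun x => x.1 = a).card + 1 ≤ r := by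
  by_cases hne : ((trv T A z).filter fun x => x.1 = a).Nonempty
  · obtain ⟨x, hx⟩ := hne
    rw [mem_filter, trv, mem_filter, mem_product] at hx
    obtain ⟨⟨⟨hx1, hx2⟩, hx3, hx4, hx5, hx6⟩, hxa⟩ := hx
    rw [hxa] at hx1 hx4
    have h1 : ¬ ind T (insert z (A.erase a)) := fun h => hx4 (mem_core.2 ⟨hx1, h⟩)
    unfold ind at h1
    push Not at h1
    obtain ⟨e, he, hes⟩ := h1
    have hze : z ∈ e := by
      by_contra hze
      exact hA e he fun x hx => by
        rcases mem_insert.1 (hes hx) with h | h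
        · exact absurd (h ▸ hx) hze
        · exact mem_of_mem_erase h
    have h2 : ((trv T A z).filter fun x => x.1 = a).card ≤ (e.erase z).card := by
      refine card_le_card_of_injOn (fun x => x.2) ?_ ?_
      · intro y hy
        simp only [coe_filter, Set.mem_ofPred_eq, trv, mem_filter, mem_product] at hy
        obtain ⟨⟨⟨hy1, hy2⟩, hy3, hy4, hy5, hy6⟩, hya⟩ := hy
        rw [hya] at hy6
        by_contra hc
        have hyz : y.2 ≠ z := fun h => (mem_blk.1 hz).1 (h ▸ hy2)
        have hye : y.2 ∉ e := fun h => hc (mem_coe.2 (mem_erase.2 ⟨hyz, h⟩))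
        refine hy6 e he fun x hx => ?_
        rcases mem_insert.1 (hes hx) with h | h
        · rw [h]; exact mem_insert_self _ _
        · exact mem_insert_of_mem (mem_erase.2 ⟨fun hxy => hye (hxy ▸ hx), h⟩)
      · intro x hx y hy hxy
        simp only [coe_filter, Set.mem_ofPred_eq] at hx hy
        exact Prod.ext (hx.2.trans hy.2.symm) hxy
    rw [card_erase_of_mem hze, hT e he] at h2
    have : 0 < r := by rw [← hT e he]; exact card_pos.2 ⟨z, hze⟩
    omega
  · rw [not_nonempty_iff_eq_empty] at hne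
    rw [hne, card_empty]
    have := card_core_le hT hA hz
    omega

theorem trv_swap {A : Finset V} {z : V} {x : V × V} (h : x ∈ trv T A z) : x.swap ∈ trv T A z := by
  rw [trv, mem_filter, mem_product] at h ⊢
  obtain ⟨⟨h1, h2⟩, h3, h4, h5, h6⟩ := h
  exact ⟨⟨h2, h1⟩, h3.symm, h5, h4, by rw [Prod.fst_swap, Prod.snd_swap, erase_right_comm]; exact h6⟩

theorem card_trv {r : ℕ} (hT : ∀ e ∈ T, e.card = r) {A : Finset V} (hA : ind T A) {z : V}
    (hz : z ∈ blk T A) :
    ((trv T A z).card : ℝ) ≤ 2 * ((r : ℝ) - 1) * ((r : ℝ) - 1 - (core T A z).card) := by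
  obtain ⟨e, he, hze, hes, hc⟩ := exists_edge hA hz
  set K := (e.erase z) \ core T A z with hK
  have hr : 1 ≤ r := by have := card_core_le hT hA hz; omega
  have hKc : (K.card : ℝ) = (r : ℝ) - 1 - (core T A z).card := by
    have h1 : K.card + (core T A z).card = (e.erase z).card := by
      rw [hK]; exact card_sdiff_add_card_eq_card hc
    rw [card_erase_of_mem hze, hT e he] at h1
    have h2 : (K.card : ℝ) + (core T A z).card = ((r - 1 : ℕ) : ℝ) := by exact_mod_cast h1
    rw [Nat.cast_sub hr] at h2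
    push_cast at h2
    linarith
  have hmeet : ∀ x ∈ trv T A z, x.1 ∈ K ∨ x.2 ∈ K := by
    intro x hx
    rw [trv, mem_filter, mem_product] at hx
    obtain ⟨⟨h1, h2⟩, h3, h4, h5, h6⟩ := hx
    by_contra hcon
    rw [not_or] at hcon
    have e1 : x.1 ∉ e := by
      intro h
      exact hcon.1 (mem_sdiff.2 ⟨mem_erase.2 ⟨fun hh => (mem_blk.1 hz).1 (hh ▸ h1), h⟩, h4⟩)
    have e2 : x.2 ∉ e := by
      intro h
      exact hcon.2 (mem_sdiff.2 ⟨mem_erase.2 ⟨fun hh => (mem_blk.1 hz).1 (hh ▸ h2), h⟩, h5⟩)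
    refine h6 e he fun y hy => ?_
    rcases mem_insert.1 (hes hy) with h | h
    · rw [h]; exact mem_insert_self _ _
    · exact mem_insert_of_mem (mem_erase.2 ⟨fun hh => e2 (hh ▸ hy),
        mem_erase.2 ⟨fun hh => e1 (hh ▸ hy), h⟩⟩)
  have hfirst : ((trv T A z).filter fun x => x.1 ∈ K).card ≤ K.card * (r - 1) := by
    have h1 := card_eq_sum_card_fiberwise (f := fun x : V × V => x.1) (t := K)
      (s := (trv T A z).filter fun x => x.1 ∈ K) (by
        intro x hx
        simp only [coe_filter, Set.mem_ofPred_eq] at hx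
        exact mem_coe.2 hx.2)
    rw [h1, ← smul_eq_mul, ← sum_const]
    refine sum_le_sum fun a _ => ?_
    have h2 := trv_partner hT hA hz a
    have h3 : (((trv T A z).filter fun x => x.1 ∈ K).filter fun x => x.1 = a).card ≤
        ((trv T A z).filter fun x => x.1 = a).card :=
      card_le_card (filter_subset_filter _ (filter_subset _ _))
    omega
  have hsecond : ((trv T A z).filter fun x => x.2 ∈ K).card ≤
      ((trv T A z).filter fun x => x.1 ∈ K).card := by
    refine card_le_card_of_injOn Prod.swap ?_ (Prod.swap_injective.injOn)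
    intro x hx
    simp only [coe_filter, Set.mem_ofPred_eq] at hx ⊢
    exact ⟨trv_swap hx.1, hx.2⟩
  have htot : (trv T A z).card ≤ 2 * (K.card * (r - 1)) := by
    have h1 : trv T A z ⊆ ((trv T A z).filter fun x => x.1 ∈ K) ∪
        ((trv T A z).filter fun x => x.2 ∈ K) := by
      intro x hx
      rcases hmeet x hx with h | h
      · exact mem_union_left _ (mem_filter.2 ⟨hx, h⟩)
      · exact mem_union_right _ (mem_filter.2 ⟨hx, h⟩)
    have h2 := (card_le_card h1).trans (card_union_le _ _)
    omega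
  have h5 : ((trv T A z).card : ℝ) ≤ 2 * ((K.card : ℝ) * ((r : ℝ) - 1)) := by
    have : ((trv T A z).card : ℝ) ≤ ((2 * (K.card * (r - 1)) : ℕ) : ℝ) := by exact_mod_cast htot
    rw [Nat.cast_mul, Nat.cast_mul, Nat.cast_sub hr] at this
    push_cast at this
    exact this
  rw [hKc] at h5
  linarith

/-- the pairs in two classes are the minimal transversals -/
theorem sum_inter {r : ℕ} (hT : ∀ e ∈ T, e.card = r) {A : Finset V} (hA : ind T A) :
    ∑ a ∈ A, ∑ b ∈ A.erase a,
      (((cls T ((A.erase a).erase b) a) ∩ (cls T ((A.erase a).erase b) b)).card : ℝ) ≤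
      2 * ((r : ℝ) - 1) * sig T r A := by
  have h1 : ∀ a ∈ A, ∀ b ∈ A.erase a,
      (((cls T ((A.erase a).erase b) a) ∩ (cls T ((A.erase a).erase b) b)).card : ℝ) ≤
        ∑ z ∈ blk T A, if (a, b) ∈ trv T A z then (1 : ℝ) else 0 := by
    intro a ha b hb
    rw [← Finset.sum_filter, sum_const, nsmul_eq_mul, mul_one]
    norm_cast
    refine card_le_card fun z hz => ?_
    rw [mem_inter, mem_cls, mem_cls, mem_U] at hz
    obtain ⟨⟨⟨h1, h2⟩, h3⟩, -, h4⟩ := hz
    have hba := (mem_erase.1 hb).1
    have hbA := (mem_erase.1 hb).2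
    have eab : insert a ((A.erase a).erase b) = A.erase b := by
      rw [erase_right_comm, insert_erase (mem_erase.2 ⟨hba.symm, ha⟩)]
    have eba : insert b ((A.erase a).erase b) = A.erase a := insert_erase hb
    have hza : z ≠ a := by
      rintro rfl
      rcases h4 with h4 | h4
      · exact hba h4.symm
      · rw [Finset.insert_comm, eba, insert_erase ha] at h4; exact h4 hA
    have hzb : z ≠ b := by
      rintro rfl
      rcases h3 with h3 | h3
      · exact hba h3
      · rw [Finset.insert_comm, eab, insert_erase hbA] at h3; exact h3 hA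
    have h3' : ¬ ind T (insert z (A.erase b)) := by
      rcases h3 with h3 | h3
      · exact absurd h3 hza
      · rw [Finset.insert_comm, eab] at h3; exact h3
    have h4' : ¬ ind T (insert z (A.erase a)) := by
      rcases h4 with h4 | h4
      · exact absurd h4 hzb
      · rw [Finset.insert_comm, eba] at h4; exact h4
    rw [mem_filter]
    refine ⟨mem_blk.2 ⟨?_, fun h => h3' (ind_mono (insert_subset_insert _ (erase_subset _ _)) h)⟩,
      ?_⟩
    · intro h
      exact h1 (mem_erase.2 ⟨hzb, mem_erase.2 ⟨hza, h⟩⟩)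
    · rw [trv, mem_filter, mem_product]
      exact ⟨⟨ha, hbA⟩, hba.symm, fun h => h4' (mem_core.1 h).2, fun h => h3' (mem_core.1 h).2, h2⟩
  calc ∑ a ∈ A, ∑ b ∈ A.erase a,
      (((cls T ((A.erase a).erase b) a) ∩ (cls T ((A.erase a).erase b) b)).card : ℝ)
      ≤ ∑ a ∈ A, ∑ b ∈ A.erase a, ∑ z ∈ blk T A, (if (a, b) ∈ trv T A z then (1 : ℝ) else 0) :=
        sum_le_sum fun a ha => sum_le_sum fun b hb => h1 a ha b hb
    _ ≤ ∑ a ∈ A, ∑ b ∈ A, ∑ z ∈ blk T A, (if (a, b) ∈ trv T A z then (1 : ℝ) else 0) := by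
        refine sum_le_sum fun a _ => sum_le_sum_of_subset_of_nonneg (erase_subset _ _) ?_
        intro b _ _
        exact sum_nonneg fun z _ => by split_ifs <;> norm_num
    _ = ∑ z ∈ blk T A, ((trv T A z).card : ℝ) := by
        rw [← Finset.sum_product', sum_comm]
        refine sum_congr rfl fun z _ => ?_
        rw [← Finset.sum_filter, sum_const, nsmul_eq_mul, mul_one]
        congr 2
        ext x
        rw [mem_filter]
        constructor
        · exact fun h => h.2
        · intro h
          exact ⟨(mem_filter.1 h).1, h⟩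
    _ ≤ ∑ z ∈ blk T A, 2 * ((r : ℝ) - 1) * ((r : ℝ) - 1 - (core T A z).card) :=
        sum_le_sum fun z hz => card_trv hT hA hz
    _ = 2 * ((r : ℝ) - 1) * sig T r A := by rw [sig, mul_sum]

end Pool.Agent.J4.H84.TU
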