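import Mathlib

/-! # Binomial estimates -/

set_option autoImplicit false

namespace Pool.Agent.J4.H84.TU

/-- the ratio of two binomial coefficients with the same lower index -/
theorem choose_ratio (s : ℕ) {p N : ℕ} (h : p ≤ N) :
    ((N.choose s : ℕ) : ℝ) * (1 - ((N : ℝ) - p) * s / ((p : ℝ) + 1)) ≤ ((p.choose s : ℕ) : ℝ) := by
  induction N, h using Nat.le_induction with
  | base => simp
  | succ N hpN ih =>
    have hC0 : (0 : ℝ) ≤ (((N + 1).choose s : ℕ) : ℝ) := Nat.cast_nonneg _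
    have hp0 : (0 : ℝ) ≤ ((p.choose s : ℕ) : ℝ) := Nat.cast_nonneg _
    set x : ℝ := (s : ℝ) / ((p : ℝ) + 1) with hx
    have hx0 : 0 ≤ x := by positivity
    have e1 : ((N : ℝ) - p) * s / ((p : ℝ) + 1) = ((N : ℝ) - p) * x := by rw [hx]; ring
    have e2 : (((N + 1 : ℕ) : ℝ) - p) * s / ((p : ℝ) + 1) = ((N : ℝ) - p) * x + x := by
      rw [hx]; push_cast; ring
    rw [e1] at ih
    rw [e2]
    by_cases hneg : 1 - (((N : ℝ) - p) * x + x) ≤ 0
    · have := mul_nonpos_of_nonneg_of_nonpos hC0 hneg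
      linarith
    · rw [not_le] at hneg
      have hNp : (p : ℝ) ≤ N := by exact_mod_cast hpN
      have hy0 : 0 ≤ ((N : ℝ) - p) * x := mul_nonneg (by linarith) hx0
      have hsN : (s : ℝ) / ((N : ℝ) + 1) ≤ x := by
        rw [hx]
        exact div_le_div_of_nonneg_left (by positivity) (by positivity) (by linarith)
      have hx1 : x < 1 := by linarith
      have hsle : s ≤ N + 1 := by
        have h1 : (s : ℝ) / ((N : ℝ) + 1) < 1 := lt_of_le_of_lt hsN hx1
        rw [div_lt_one (by positivity)] at h1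
        have : (s : ℝ) < ((N + 1 : ℕ) : ℝ) := by push_cast; exact h1
        exact (by exact_mod_cast this : s < N + 1).le
      have h2 := Nat.choose_mul_succ_eq N s
      have h3 : ((N.choose s : ℕ) : ℝ) = (((N + 1).choose s : ℕ) : ℝ) * (1 - (s : ℝ) / ((N : ℝ) + 1)) := by
        have h4 : ((N.choose s * (N + 1) : ℕ) : ℝ) =
            (((N + 1).choose s * (N + 1 - s) : ℕ) : ℝ) := by rw [h2]
        rw [Nat.cast_mul, Nat.cast_mul, Nat.cast_sub hsle] at h4
        push_cast at h4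
        have h5 : (N : ℝ) + 1 ≠ 0 := by positivity
        field_simp
        linarith
      have h6 : (((N + 1).choose s : ℕ) : ℝ) * (1 - (((N : ℝ) - p) * x + x)) ≤
          ((N.choose s : ℕ) : ℝ) * (1 - ((N : ℝ) - p) * x) := by
        rw [h3, mul_assoc]
        refine mul_le_mul_of_nonneg_left ?_ hC0
        have h7 : (1 - x) * (1 - ((N : ℝ) - p) * x) ≤
            (1 - (s : ℝ) / ((N : ℝ) + 1)) * (1 - ((N : ℝ) - p) * x) :=
          mul_le_mul_of_nonneg_right (by linarith) (by linarith)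
        nlinarith
      exact h6.trans ih

/-- shifting the upper indices -/
theorem choose_shift {p N t : ℕ} {y : ℝ} (hpN : p ≤ N) (s : ℕ) (hst : s + t ≤ p)
    (hy : ∀ i < s, (t : ℝ) * ((N : ℝ) - p) ≤ y * (((p : ℝ) - i) * ((N : ℝ) - t - i))) (hy0 : 0 ≤ y) :
    ((p.choose s : ℕ) : ℝ) * (((N - t).choose s : ℕ) : ℝ) * (1 - s * y) ≤
      (((p - t).choose s : ℕ) : ℝ) * ((N.choose s : ℕ) : ℝ) := by
  induction s with
  | zero => simp
  | succ i ih =>
    have ih := ih (by omega) (fun i' hi' => hy i' (by omega))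
    have hyi := hy i (by omega)
    have step : ∀ M : ℕ, i ≤ M → (((M.choose (i + 1) : ℕ)) : ℝ) * ((i : ℝ) + 1) =
        ((M.choose i : ℕ) : ℝ) * ((M : ℝ) - i) := by
      intro M hM
      have h := Nat.choose_succ_right_eq M i
      have h2 : ((M.choose (i + 1) * (i + 1) : ℕ) : ℝ) = ((M.choose i * (M - i) : ℕ) : ℝ) := by rw [h]
      rw [Nat.cast_mul, Nat.cast_mul, Nat.cast_sub hM] at h2
      push_cast at h2
      exact h2
    have s1 := step p (by omega)
    have s2 := step (N - t) (by omega)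
    have s3 := step (p - t) (by omega)
    have s4 := step N (by omega)
    rw [Nat.cast_sub (by omega)] at s2 s3
    set E0 : ℝ := ((p.choose i : ℕ) : ℝ) * (((N - t).choose i : ℕ) : ℝ) with hE0
    set F0 : ℝ := (((p - t).choose i : ℕ) : ℝ) * ((N.choose i : ℕ) : ℝ) with hF0
    set E1 : ℝ := ((p.choose (i + 1) : ℕ) : ℝ) * (((N - t).choose (i + 1) : ℕ) : ℝ) with hE1
    set F1 : ℝ := (((p - t).choose (i + 1) : ℕ) : ℝ) * ((N.choose (i + 1) : ℕ) : ℝ) with hF1
    have hE00 : 0 ≤ E0 := by positivity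
    have hE10 : 0 ≤ E1 := by positivity
    have hF10 : 0 ≤ F1 := by positivity
    have hpi : (0 : ℝ) < (p : ℝ) - i := by
      have : ((i + 1 : ℕ) : ℝ) ≤ p := by exact_mod_cast (show i + 1 ≤ p by omega)
      push_cast at this; linarith
    have hNi : (0 : ℝ) < (N : ℝ) - t - i := by
      have : ((i + 1 + t : ℕ) : ℝ) ≤ N := by exact_mod_cast (show i + 1 + t ≤ N by omega)
      push_cast at this; linarith
    have k1 : E1 * ((i : ℝ) + 1) ^ 2 = E0 * (((p : ℝ) - i) * ((N : ℝ) - t - i)) := by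
      rw [hE1, hE0]
      calc _ = ((((p.choose (i + 1) : ℕ)) : ℝ) * ((i : ℝ) + 1)) *
          (((((N - t).choose (i + 1) : ℕ)) : ℝ) * ((i : ℝ) + 1)) := by ring
        _ = _ := by rw [s1, s2]; ring
    have k2 : F1 * ((i : ℝ) + 1) ^ 2 =
        F0 * (((p : ℝ) - i) * ((N : ℝ) - t - i) - t * ((N : ℝ) - p)) := by
      rw [hF1, hF0]
      calc _ = (((((p - t).choose (i + 1) : ℕ)) : ℝ) * ((i : ℝ) + 1)) *
          ((((N.choose (i + 1) : ℕ)) : ℝ) * ((i : ℝ) + 1)) := by ring
        _ = _ := by rw [s3, s4]; ring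
    push_cast
    by_cases hneg : 1 - ((i : ℝ) + 1) * y ≤ 0
    · have := mul_nonpos_of_nonneg_of_nonpos hE10 hneg
      linarith
    · rw [not_le] at hneg
      have hi0 : (0 : ℝ) ≤ i := Nat.cast_nonneg _
      have h1 : 0 ≤ 1 - i * y := by nlinarith
      have hy1 : y ≤ 1 := by nlinarith
      have h2 : (0 : ℝ) < ((i : ℝ) + 1) ^ 2 := by positivity
      set Z : ℝ := ((p : ℝ) - i) * ((N : ℝ) - t - i) with hZ
      have hZ0 : 0 < Z := mul_pos hpi hNi
      have h3 : (E1 * (1 - ((i : ℝ) + 1) * y)) * ((i : ℝ) + 1) ^ 2 ≤ F1 * ((i : ℝ) + 1) ^ 2 := by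
        have e1 : (E1 * (1 - ((i : ℝ) + 1) * y)) * ((i : ℝ) + 1) ^ 2 =
            (E1 * ((i : ℝ) + 1) ^ 2) * (1 - ((i : ℝ) + 1) * y) := by ring
        rw [e1, k1, k2]
        have h4 : E0 * (1 - i * y) * (Z * (1 - y)) ≤ F0 * (Z - t * ((N : ℝ) - p)) := by
          refine mul_le_mul ih (by linarith) (mul_nonneg hZ0.le (by linarith)) ?_
          rw [hF0]; positivity
        have h5 : E0 * Z * (1 - ((i : ℝ) + 1) * y) ≤ E0 * (1 - i * y) * (Z * (1 - y)) := by
          have h6 : E0 * (1 - i * y) * (Z * (1 - y)) = (E0 * Z) * ((1 - i * y) * (1 - y)) := by ring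
          rw [h6]
          refine mul_le_mul_of_nonneg_left ?_ (mul_nonneg hE00 hZ0.le)
          nlinarith [mul_nonneg hi0 (mul_nonneg hy0 hy0)]
        linarith
      exact le_of_mul_le_mul_right h3 h2

/-- superadditivity -/
theorem choose_superadd (R a b : ℕ) (hR : 1 ≤ R) :
    a.choose R + b.choose R ≤ (a + b).choose R := by
  induction b with
  | zero => rw [Nat.choose_eq_zero_of_lt hR]; rfl
  | succ b ih =>
    obtain ⟨s, rfl⟩ : ∃ s, R = s + 1 := ⟨R - 1, by omega⟩
    rw [← Nat.add_assoc, Nat.choose_succ_succ, Nat.choose_succ_succ (a + b) s]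
    have : b.choose s ≤ (a + b).choose s := Nat.choose_le_choose s (by omega)
    simp only [Nat.succ_eq_add_one] at *
    omega

/-- the difference of binomial coefficients, from below -/
theorem choose_diff_lower (s : ℕ) {p q : ℕ} (hpq : p ≤ q) :
    ((q : ℝ) - p) * ((p.choose s : ℕ) : ℝ) ≤
      ((q.choose (s + 1) : ℕ) : ℝ) - ((p.choose (s + 1) : ℕ) : ℝ) := by
  induction q, hpq using Nat.le_induction with
  | base => simp
  | succ q hpq ih =>
    rw [Nat.choose_succ_succ q s]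
    have h1 : ((p.choose s : ℕ) : ℝ) ≤ ((q.choose s : ℕ) : ℝ) := by
      exact_mod_cast Nat.choose_le_choose s hpq
    push_cast
    simp only [Nat.succ_eq_add_one] at *
    linarith

/-- the difference of binomial coefficients, from above -/
theorem choose_diff_upper (s : ℕ) {p q : ℕ} (hpq : p ≤ q) :
    ((q.choose (s + 1) : ℕ) : ℝ) - ((p.choose (s + 1) : ℕ) : ℝ) ≤
      ((q : ℝ) - p) * (((q - 1).choose s : ℕ) : ℝ) := by
  induction q, hpq using Nat.le_induction with
  | base => simp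
  | succ q hpq ih =>
    rw [Nat.choose_succ_succ q s, Nat.add_sub_cancel]
    have h1 : (((q - 1).choose s : ℕ) : ℝ) ≤ ((q.choose s : ℕ) : ℝ) := by
      exact_mod_cast Nat.choose_le_choose s (by omega)
    have h2 : (p : ℝ) ≤ q := by exact_mod_cast hpq
    have h3 := mul_le_mul_of_nonneg_left h1 (show (0 : ℝ) ≤ (q : ℝ) - p by linarith)
    push_cast
    simp only [Nat.succ_eq_add_one] at *
    linarith

/-- conditional probabilities as ratios -/
theorem choose_mul_real {N p s : ℕ} (hs : s ≤ p) :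
    ((N.choose p : ℕ) : ℝ) * ((p.choose s : ℕ) : ℝ) =
      ((N.choose s : ℕ) : ℝ) * (((N - s).choose (p - s) : ℕ) : ℝ) := by
  exact_mod_cast Nat.choose_mul (n := N) (k := p) (s := s) hs

end Pool.Agent.J4.H84.TU
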