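import Pool.Agent.J4.H84.TU.Binom

/-! # Binomial estimates, continued -/

set_option autoImplicit false

namespace Pool.Agent.J4.H84.TU

theorem c1_eq {N p s : ℕ} (hs : s ≤ p) :
    (((N - s).choose (p - s) : ℕ) : ℝ) * ((N.choose s : ℕ) : ℝ) =
      ((N.choose p : ℕ) : ℝ) * ((p.choose s : ℕ) : ℝ) := by
  rw [choose_mul_real hs, mul_comm]

theorem c1_le {N p s : ℕ} (hs : s ≤ p) (hp : p ≤ N) :
    (((N - s).choose (p - s) : ℕ) : ℝ) ≤ ((N.choose p : ℕ) : ℝ) := by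
  have h1 := c1_eq (N := N) hs
  have h2 : ((p.choose s : ℕ) : ℝ) ≤ ((N.choose s : ℕ) : ℝ) := by
    exact_mod_cast Nat.choose_le_choose s hp
  have h3 : (0 : ℝ) < ((N.choose s : ℕ) : ℝ) := by exact_mod_cast Nat.choose_pos (hs.trans hp)
  have h4 : (0 : ℝ) ≤ ((N.choose p : ℕ) : ℝ) := Nat.cast_nonneg _
  have h5 := mul_le_mul_of_nonneg_left h2 h4
  rw [← h1] at h5
  exact le_of_mul_le_mul_right h5 h3

theorem c2_lower {N p s : ℕ} (hs : 2 * s ≤ p) (hp : p ≤ N) :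
    ((N.choose p : ℕ) : ℝ) * (1 - ((N : ℝ) - p) * (2 * s) / ((p : ℝ) + 1)) ≤
      (((N - 2 * s).choose (N - p) : ℕ) : ℝ) := by
  have h0 : (N - 2 * s).choose (N - p) = (N - 2 * s).choose (p - 2 * s) := by
    rw [← Nat.choose_symm (by omega)]
    congr 1; omega
  rw [h0]
  have h1 := c1_eq (N := N) (p := p) (s := 2 * s) hs
  have h2 := choose_ratio (2 * s) hp
  have h3 : (0 : ℝ) < ((N.choose (2 * s) : ℕ) : ℝ) := by
    exact_mod_cast Nat.choose_pos (hs.trans hp)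
  have h4 : (0 : ℝ) ≤ ((N.choose p : ℕ) : ℝ) := Nat.cast_nonneg _
  have h5 := mul_le_mul_of_nonneg_left h2 h4
  rw [← h1] at h5
  push_cast at h5
  have h6 : ((N.choose p : ℕ) : ℝ) * (1 - ((N : ℝ) - p) * (2 * s) / ((p : ℝ) + 1)) *
      ((N.choose (2 * s) : ℕ) : ℝ) ≤
      (((N - 2 * s).choose (p - 2 * s) : ℕ) : ℝ) * ((N.choose (2 * s) : ℕ) : ℝ) := by
    linarith
  exact le_of_mul_le_mul_right h6 h3

theorem c_sq {N p s : ℕ} (hs : 2 * s ≤ p) (hp : p ≤ N) {y : ℝ} (hy0 : 0 ≤ y)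
    (hy : ∀ i < s, (s : ℝ) * ((N : ℝ) - p) ≤ y * (((p : ℝ) - i) * ((N : ℝ) - s - i))) :
    (((N - s).choose (p - s) : ℕ) : ℝ) ^ 2 ≤ ((N.choose p : ℕ) : ℝ) *
      ((((N - 2 * s).choose (N - p) : ℕ) : ℝ) + (s * y) * ((N.choose p : ℕ) : ℝ)) := by
  have h0 : (N - 2 * s).choose (N - p) = (N - 2 * s).choose (p - 2 * s) := by
    rw [← Nat.choose_symm (by omega)]
    congr 1; omega
  rw [h0]
  have h1 := c1_eq (N := N) (p := p) (s := s) (by omega)
  have h2 := c1_eq (N := N - s) (p := p - s) (s := s) (by omega)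
  rw [show N - s - s = N - 2 * s by omega, show p - s - s = p - 2 * s by omega] at h2
  have h3 := choose_shift (t := s) hp s (by omega) hy hy0
  have hle := c1_le (N := N) (p := p) (s := s) (by omega) hp
  set C0 : ℝ := ((N.choose p : ℕ) : ℝ) with hC0
  set C1 : ℝ := (((N - s).choose (p - s) : ℕ) : ℝ) with hC1
  set C2 : ℝ := (((N - 2 * s).choose (p - 2 * s) : ℕ) : ℝ) with hC2
  set a : ℝ := ((p.choose s : ℕ) : ℝ) with ha
  set b : ℝ := ((N.choose s : ℕ) : ℝ) with hb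
  set a' : ℝ := (((p - s).choose s : ℕ) : ℝ) with ha'
  set b' : ℝ := (((N - s).choose s : ℕ) : ℝ) with hb'
  have hb0 : 0 < b := by rw [hb]; exact_mod_cast Nat.choose_pos (show s ≤ N by omega)
  have hb'0 : 0 < b' := by rw [hb']; exact_mod_cast Nat.choose_pos (show s ≤ N - s by omega)
  have hC00 : 0 < C0 := by rw [hC0]; exact_mod_cast Nat.choose_pos hp
  have hC10 : 0 < C1 := by
    rw [hC1]; exact_mod_cast Nat.choose_pos (show p - s ≤ N - s by omega)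
  -- h1 : C1 * b = C0 * a ; h2 : C2 * b' = C1 * a' ; h3 : a * b' * (1 - s * y) ≤ a' * b
  have h4 : C1 ^ 2 * (1 - s * y) ≤ C0 * C2 := by
    have h5 : (C1 ^ 2 * (1 - s * y)) * (b * b') ≤ (C0 * C2) * (b * b') := by
      have e1 : (C1 ^ 2 * (1 - s * y)) * (b * b') = (C0 * C1) * (a * b' * (1 - s * y)) := by
        linear_combination (C1 * (1 - s * y) * b') * h1
      have e2 : (C0 * C2) * (b * b') = (C0 * C1) * (a' * b) := by
        linear_combination (C0 * b) * h2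
      rw [e1, e2]
      exact mul_le_mul_of_nonneg_left h3 (by positivity)
    exact le_of_mul_le_mul_right h5 (by positivity)
  have hsy : 0 ≤ (s : ℝ) * y := by positivity
  have h6 : C1 ^ 2 ≤ C0 ^ 2 := pow_le_pow_left₀ hC10.le hle 2
  have h7 : ((s : ℝ) * y) * C1 ^ 2 ≤ ((s : ℝ) * y) * C0 ^ 2 := mul_le_mul_of_nonneg_left h6 hsy
  nlinarith

end Pool.Agent.J4.H84.TU
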