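import Pool.Agent.J4.H84.TU.Low

/-! # The canonical averages over the independent `i`-sets -/

set_option autoImplicit false

open Finset

namespace Pool.Agent.J4.H84.TU

variable {V : Type*} [Fintype V] [DecidableEq V] {T : Finset (Finset V)}

/-- variance term -/
noncomputable def dd (T : Finset (Finset V)) (i : ℕ) : ℝ := vv T (i + 1) i - vv T i i

/-- normalized mean number of blocked vertices -/
noncomputable def BB (T : Finset (Finset V)) (r i : ℕ) : ℝ :=
  bb T i i / ((i.choose (r - 1) : ℕ) : ℝ)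

theorem ne_down {J : ℕ} (hJ : (I T J).Nonempty) {i : ℕ} (hi : i ≤ J) : (I T i).Nonempty := by
  obtain ⟨A, hA⟩ := hJ
  obtain ⟨B, hB, hBc⟩ := exists_subset_card_eq (s := A) (n := i) (by rw [(mem_I.1 hA).1]; exact hi)
  exact ⟨B, mem_I.2 ⟨hBc, ind_mono hB (mem_I.1 hA).2⟩⟩

theorem av_top {i : ℕ} (F : Finset V → ℝ) :
    av T i i F = (∑ A ∈ I T i, F A) / ((I T i).card : ℝ) := by
  unfold av
  rw [W_eq, Nat.choose_self, Nat.cast_one, mul_one]
  congr 1
  exact sum_congr rfl fun A hA => by rw [w_top hA, one_mul]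

theorem sum_U_eq (i : ℕ) :
    ∑ A ∈ I T i, ((U T A).card : ℝ) = ((i : ℝ) + 1) * ((I T (i + 1)).card : ℝ) := by
  have h1 := sum_pairs T i (fun _ _ => (1 : ℝ))
  simp only [sum_const, nsmul_eq_mul, mul_one] at h1
  rw [h1, sum_congr rfl (fun A hA => by rw [(mem_I.1 hA).1]), sum_const, nsmul_eq_mul]
  push_cast; ring

theorem vv_top_mul {i : ℕ} (hi : (I T i).Nonempty) :
    vv T i i * ((I T i).card : ℝ) = ((i : ℝ) + 1) * ((I T (i + 1)).card : ℝ) := by
  have h1 : (0 : ℝ) < ((I T i).card : ℝ) := by exact_mod_cast card_pos.2 hi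
  rw [vv, av_top, div_mul_cancel₀ _ h1.ne', sum_U_eq]

/-- the size-biased average -/
theorem vv_succ_mul {i : ℕ} (hi : (I T (i + 1)).Nonempty) :
    vv T (i + 1) i * (((i : ℝ) + 1) * ((I T (i + 1)).card : ℝ)) =
      ∑ A ∈ I T i, ((U T A).card : ℝ) ^ 2 := by
  have h1 : W T (i + 1) i = ((i : ℝ) + 1) * ((I T (i + 1)).card : ℝ) := by
    rw [W_eq, Nat.choose_succ_self_right]; push_cast; ring
  rw [← h1, vv, av_mul_W hi (by omega)]
  refine sum_congr rfl fun A hA => ?_
  rw [w_pred (J := i + 1) (by omega) (by simpa using hA), sq]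

/-- the variance identity -/
theorem dd_mul {i : ℕ} (hi : (I T (i + 1)).Nonempty) :
    dd T i * (((i : ℝ) + 1) * ((I T (i + 1)).card : ℝ)) =
      ∑ A ∈ I T i, (((U T A).card : ℝ) - vv T i i) ^ 2 := by
  have hi0 := ne_down hi (show i ≤ i + 1 by omega)
  have h1 := vv_top_mul hi0
  have h2 := vv_succ_mul hi
  have h3 := sum_U_eq (T := T) i
  unfold dd
  rw [sub_mul, h2]
  have h4 : ∑ A ∈ I T i, (((U T A).card : ℝ) - vv T i i) ^ 2 =
      ∑ A ∈ I T i, ((U T A).card : ℝ) ^ 2 - 2 * vv T i i * ∑ A ∈ I T i, ((U T A).card : ℝ) +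
        vv T i i ^ 2 * ((I T i).card : ℝ) := by
    rw [mul_sum, ← sum_sub_distrib]
    have e : vv T i i ^ 2 * ((I T i).card : ℝ) = ∑ _A ∈ I T i, vv T i i ^ 2 := by
      rw [sum_const, nsmul_eq_mul, mul_comm]
    rw [e, ← sum_add_distrib]
    exact sum_congr rfl fun A _ => by ring
  rw [h4, h3]
  linear_combination (-(vv T i i)) * h1

theorem dd_nonneg {i : ℕ} (hi : (I T (i + 1)).Nonempty) : 0 ≤ dd T i := by
  have h1 : (0 : ℝ) < ((I T (i + 1)).card : ℝ) := by exact_mod_cast card_pos.2 hi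
  have h2 : (0 : ℝ) < ((i : ℝ) + 1) * ((I T (i + 1)).card : ℝ) := by positivity
  have h3 : 0 ≤ dd T i * (((i : ℝ) + 1) * ((I T (i + 1)).card : ℝ)) := by
    rw [dd_mul hi]; exact sum_nonneg fun _ _ => sq_nonneg _
  exact nonneg_of_mul_nonneg_left h3 h2

/-- the probability of the bad sets -/
theorem prb_le {J : ℕ} (hJ0 : 1 ≤ J) (hJ : (I T J).Nonempty) {θ : ℝ} (hθ : 0 < θ) :
    prb T J ((1 - θ) * vv T (J - 1) (J - 1)) * (θ ^ 2 * vv T (J - 1) (J - 1)) ≤ dd T (J - 1) := by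
  obtain ⟨i, rfl⟩ : ∃ i, J = i + 1 := ⟨J - 1, by omega⟩
  simp only [Nat.add_sub_cancel]
  set u := vv T i i with hu
  have hu0 : 0 ≤ u := vv_nonneg i
  have h1 : (0 : ℝ) < ((I T (i + 1)).card : ℝ) := by exact_mod_cast card_pos.2 hJ
  have hN : (0 : ℝ) < ((I T (i + 1)).card : ℝ) * ((i + 1 : ℕ) : ℝ) := by positivity
  have h2 := dd_mul hJ
  have h3 : (∑ A ∈ (I T i).filter (fun A => ((U T A).card : ℝ) < (1 - θ) * u), ((U T A).card : ℝ)) *
      (θ ^ 2 * u) ≤ ∑ A ∈ I T i, (((U T A).card : ℝ) - u) ^ 2 := by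
    rw [sum_mul]
    refine le_trans (sum_le_sum (g := fun A => (((U T A).card : ℝ) - u) ^ 2) fun A hA => ?_)
      (sum_le_sum_of_subset_of_nonneg (filter_subset _ _) fun _ _ _ => sq_nonneg _)
    rw [mem_filter] at hA
    set x : ℝ := ((U T A).card : ℝ) with hx
    have hx0 : 0 ≤ x := Nat.cast_nonneg _
    have hxu : x ≤ u := by
      have : (1 - θ) * u ≤ u := by nlinarith
      linarith [hA.2]
    have h4 : θ * u ≤ u - x := by linarith [hA.2]
    have h5 : (θ * u) ^ 2 ≤ (u - x) ^ 2 := pow_le_pow_left₀ (by positivity) h4 2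
    have h6 : x * (θ ^ 2 * u) ≤ u * (θ ^ 2 * u) := mul_le_mul_of_nonneg_right hxu (by positivity)
    nlinarith
  rw [← h2] at h3
  unfold prb
  simp only [Nat.add_sub_cancel]
  rw [div_mul_eq_mul_div, div_le_iff₀ hN]
  refine h3.trans (le_of_eq ?_)
  push_cast; ring

theorem bb_succ {i : ℕ} (hi : (I T (i + 1)).Nonempty) : bb T (i + 1) i = bb T i i - dd T i := by
  have h1 := vv_add_bb hi (i := i) (by omega)
  have h2 := vv_add_bb (ne_down hi (show i ≤ i + 1 by omega)) (i := i) le_rfl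
  unfold dd
  linarith

/-- **the canonical recursion** -/
theorem BB_rec {r i : ℕ} (hr : 1 ≤ r) (hri : r - 1 ≤ i) (hi : (I T (i + 1)).Nonempty) :
    ((i : ℝ) + 1) * ((i.choose (r - 1) : ℕ) : ℝ) * (BB T r i - BB T r (i + 1)) =
      sg T r (i + 1) (i + 1) + ((i : ℝ) + 1) * dd T i := by
  have h1 := recursion hi r (i := i) (by omega)
  rw [bb_succ hi] at h1
  have h2 := Nat.choose_mul_succ_eq i (r - 1)
  have h3 : ((i.choose (r - 1) : ℕ) : ℝ) * ((i : ℝ) + 1) =
      (((i + 1).choose (r - 1) : ℕ) : ℝ) * ((i : ℝ) + 1 - ((r : ℝ) - 1)) := by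
    have h4 : ((i.choose (r - 1) * (i + 1) : ℕ) : ℝ) =
        (((i + 1).choose (r - 1) * (i + 1 - (r - 1)) : ℕ) : ℝ) := by rw [h2]
    rw [Nat.cast_mul, Nat.cast_mul, Nat.cast_sub (by omega), Nat.cast_sub hr] at h4
    push_cast at h4
    exact h4
  have g1 : (((i.choose (r - 1) : ℕ)) : ℝ) ≠ 0 := by
    have := Nat.choose_pos hri
    exact_mod_cast this.ne'
  have g2 : ((((i + 1).choose (r - 1) : ℕ)) : ℝ) ≠ 0 := by
    have := Nat.choose_pos (show r - 1 ≤ i + 1 by omega)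
    exact_mod_cast this.ne'
  have k1 : BB T r i * ((i.choose (r - 1) : ℕ) : ℝ) = bb T i i := div_mul_cancel₀ _ g1
  have k2 : BB T r (i + 1) * (((i + 1).choose (r - 1) : ℕ) : ℝ) = bb T (i + 1) (i + 1) :=
    div_mul_cancel₀ _ g2
  have e1 : ((i : ℝ) + 1) * ((i.choose (r - 1) : ℕ) : ℝ) * (BB T r i - BB T r (i + 1)) =
      ((i : ℝ) + 1) * bb T i i - ((i : ℝ) + 1 - ((r : ℝ) - 1)) * bb T (i + 1) (i + 1) := by
    rw [← k1, ← k2]
    linear_combination (-(BB T r (i + 1))) * h3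
  rw [e1]
  linarith

theorem BB_anti_succ {r i : ℕ} (hr : 1 ≤ r) (hT : ∀ e ∈ T, e.card = r) (hri : r - 1 ≤ i)
    (hi : (I T (i + 1)).Nonempty) : BB T r (i + 1) ≤ BB T r i := by
  have h1 := BB_rec hr hri hi
  have h2 := sg_nonneg (T := T) (J := i + 1) hT (i + 1)
  have h3 := dd_nonneg hi
  have g1 : (0 : ℝ) < ((i.choose (r - 1) : ℕ) : ℝ) := by exact_mod_cast Nat.choose_pos hri
  have h4 : 0 ≤ ((i : ℝ) + 1) * ((i.choose (r - 1) : ℕ) : ℝ) * (BB T r i - BB T r (i + 1)) := by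
    rw [h1]; positivity
  have h5 := nonneg_of_mul_nonneg_right h4 (by positivity)
  linarith

theorem BB_anti {r : ℕ} (hr : 1 ≤ r) (hT : ∀ e ∈ T, e.card = r) {i l : ℕ} (hri : r - 1 ≤ i)
    (hil : i ≤ l) (hl : (I T l).Nonempty) : BB T r l ≤ BB T r i := by
  induction l, hil using Nat.le_induction with
  | base => exact le_rfl
  | succ l hil ih =>
    exact (BB_anti_succ hr hT (by omega) hl).trans (ih (ne_down hl (by omega)))

/-- the base -/
theorem bb_base {r : ℕ} (hr : 1 ≤ r) (hT : ∀ e ∈ T, e.card = r) :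
    bb T (r - 1) (r - 1) * (((Fintype.card V).choose (r - 1) : ℕ) : ℝ) = r * (T.card : ℝ) := by
  have hind : ∀ A : Finset V, A.card = r - 1 → ind T A := by
    intro A hA e he heA
    have := card_le_card heA
    rw [hT e he] at this; omega
  have hI : I T (r - 1) = powersetCard (r - 1) univ := by
    ext A
    rw [mem_I, mem_powersetCard]
    exact ⟨fun h => ⟨subset_univ _, h.1⟩, fun h => ⟨h.2, hind A h.2⟩⟩
  have hcard : ((I T (r - 1)).card : ℝ) = (((Fintype.card V).choose (r - 1) : ℕ) : ℝ) := by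
    rw [hI, card_powersetCard, card_univ]
  have h1 : ∑ A ∈ I T (r - 1), ((blk T A).card : ℝ) = r * (T.card : ℝ) := by
    have h2 : ∑ A ∈ I T (r - 1), (blk T A).card = ∑ e ∈ T, e.card := by
      rw [← card_sigma, ← card_sigma]
      refine card_nbij' (fun x => ⟨insert x.2 x.1, x.2⟩) (fun x => ⟨x.1.erase x.2, x.2⟩) ?_ ?_ ?_ ?_
      · rintro ⟨A, z⟩ h
        simp only [coe_sigma, Set.mem_sigma_iff, mem_coe, mem_I, mem_blk] at h ⊢
        obtain ⟨⟨h1, h2⟩, h3, h4⟩ := h
        refine ⟨?_, mem_insert_self _ _⟩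
        unfold ind at h4
        push Not at h4
        obtain ⟨e, he, hes⟩ := h4
        have : e = insert z A := eq_of_subset_of_card_le hes (by
          rw [card_insert_of_notMem h3, h1, hT e he]; omega)
        rw [← this]; exact he
      · rintro ⟨e, z⟩ h
        simp only [coe_sigma, Set.mem_sigma_iff, mem_coe, mem_I, mem_blk] at h ⊢
        obtain ⟨h1, h2⟩ := h
        have h5 : (e.erase z).card = r - 1 := by rw [card_erase_of_mem h2, hT e h1]
        refine ⟨⟨h5, hind _ h5⟩, notMem_erase _ _, ?_⟩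
        intro h3
        rw [insert_erase h2] at h3
        exact h3 e h1 Subset.rfl
      · rintro ⟨A, z⟩ h
        simp only [coe_sigma, Set.mem_sigma_iff, mem_coe, mem_blk] at h
        simp only [erase_insert h.2.1]
      · rintro ⟨e, z⟩ h
        simp only [coe_sigma, Set.mem_sigma_iff, mem_coe] at h
        simp only [insert_erase h.2]
    have h3 : ∑ e ∈ T, e.card = r * T.card := by
      rw [sum_congr rfl hT, sum_const, smul_eq_mul, mul_comm]
    rw [h3] at h2
    exact_mod_cast h2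
  rw [bb, av_top, hcard, h1]
  by_cases h0 : (((Fintype.card V).choose (r - 1) : ℕ) : ℝ) = 0
  · rw [h0, mul_zero]
    have hT0 : T = ∅ := by
      by_contra hne
      obtain ⟨e, he⟩ := nonempty_iff_ne_empty.2 hne
      have h4 : Fintype.card V < r - 1 := by
        rw [Nat.cast_eq_zero] at h0
        exact Nat.choose_eq_zero_iff.1 h0
      have h5 := card_le_univ e
      rw [hT e he] at h5; omega
    rw [hT0, card_empty, Nat.cast_zero, mul_zero]
  · rw [div_mul_cancel₀ _ h0]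

/-- the top -/
theorem bb_last {j : ℕ} (hj : (I T j).Nonempty) (hj1 : I T (j + 1) = ∅) :
    bb T j j = Fintype.card V - j := by
  have h1 := vv_top_mul hj
  rw [hj1, card_empty, Nat.cast_zero, mul_zero] at h1
  have h2 : (0 : ℝ) < ((I T j).card : ℝ) := by exact_mod_cast card_pos.2 hj
  have h3 : vv T j j = 0 := by
    rcases mul_eq_zero.1 h1 with h | h
    · exact h
    · exact absurd h h2.ne'
  have h4 := vv_add_bb hj (i := j) le_rfl
  rw [h3] at h4
  linarith

end Pool.Agent.J4.H84.TU
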