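import Pool.Agent.J4.H84.TU.Basic

/-! # The uniform measure on the independent `J`-sets and its marginals -/

set_option autoImplicit false

open Finset

namespace Pool.Agent.J4.H84.TU

variable {V : Type*} [Fintype V] [DecidableEq V]

/-- the number of independent `J`-sets containing `C` -/
noncomputable def w (T : Finset (Finset V)) (J : ℕ) (C : Finset V) : ℝ :=
  (((I T J).filter fun A => C ⊆ A).card : ℝ)

/-- total weight of the level `i` -/
noncomputable def W (T : Finset (Finset V)) (J i : ℕ) : ℝ := ∑ C ∈ I T i, w T J C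

/-- weighted average over the level `i` -/
noncomputable def av (T : Finset (Finset V)) (J i : ℕ) (F : Finset V → ℝ) : ℝ :=
  (∑ C ∈ I T i, w T J C * F C) / W T J i

variable {T : Finset (Finset V)} {J : ℕ}

theorem w_nonneg (C : Finset V) : 0 ≤ w T J C := Nat.cast_nonneg _

theorem w_top {A : Finset V} (hA : A ∈ I T J) : w T J A = 1 := by
  unfold w
  have : ((I T J).filter fun B => A ⊆ B) = {A} := by
    ext B
    rw [mem_filter, mem_singleton]
    constructor
    · rintro ⟨h1, h2⟩
      exact (eq_of_subset_of_card_le h2 (by rw [(mem_I.1 h1).1, (mem_I.1 hA).1])).symm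
    · rintro rfl; exact ⟨hA, Subset.rfl⟩
  rw [this, card_singleton, Nat.cast_one]

theorem w_eq_zero {C : Finset V} (hC : ¬ ind T C) : w T J C = 0 := by
  unfold w
  rw [Nat.cast_eq_zero, card_eq_zero, filter_eq_empty_iff]
  intro A hA h
  exact hC (ind_mono h (mem_I.1 hA).2)

theorem w_empty : w T J ∅ = ((I T J).card : ℝ) := by
  unfold w
  rw [filter_true_of_mem fun A _ => empty_subset A]

theorem w_anti {B C : Finset V} (h : B ⊆ C) : w T J C ≤ w T J B := by
  unfold w
  have : ((I T J).filter fun A => C ⊆ A) ⊆ ((I T J).filter fun A => B ⊆ A) := by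
    intro A hA
    rw [mem_filter] at hA ⊢
    exact ⟨hA.1, h.trans hA.2⟩
  exact_mod_cast card_le_card this

/-- sets between two sets -/
theorem card_between {B A : Finset V} (hBA : B ⊆ A) {q : ℕ} (hq : B.card ≤ q) :
    ((powersetCard q (univ : Finset V)).filter fun C => B ⊆ C ∧ C ⊆ A).card =
      (A.card - B.card).choose (q - B.card) := by
  rw [← card_sdiff_of_subset hBA, ← card_powersetCard]
  refine card_nbij' (fun C => C \ B) (fun D => D ∪ B) ?_ ?_ ?_ ?_
  · intro C hC
    simp only [coe_filter, mem_powersetCard, Set.mem_ofPred_eq] at hC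
    refine mem_coe.2 (mem_powersetCard.2 ⟨sdiff_subset_sdiff hC.2.2 Subset.rfl, ?_⟩)
    rw [card_sdiff_of_subset hC.2.1, hC.1.2]
  · intro D hD
    have hD := mem_powersetCard.1 (mem_coe.1 hD)
    have hdis : Disjoint D B := by
      rw [Finset.disjoint_left]; intro x hx; exact (mem_sdiff.1 (hD.1 hx)).2
    simp only [coe_filter, mem_powersetCard, Set.mem_ofPred_eq]
    refine ⟨⟨subset_univ _, ?_⟩, subset_union_right, union_subset (hD.1.trans sdiff_subset) hBA⟩
    rw [card_union_of_disjoint hdis, hD.2]; omega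
  · intro C hC
    simp only [coe_filter, mem_powersetCard, Set.mem_ofPred_eq] at hC
    exact sdiff_union_of_subset hC.2.1
  · intro D hD
    have hD := mem_powersetCard.1 (mem_coe.1 hD)
    have hdis : Disjoint D B := by
      rw [Finset.disjoint_left]; intro x hx; exact (mem_sdiff.1 (hD.1 hx)).2
    simp only
    rw [union_sdiff_right]; exact sdiff_eq_self_of_disjoint hdis

/-- summation over the supersets -/
theorem sum_w_sup (T : Finset (Finset V)) (J : ℕ) (B : Finset V) {q : ℕ} (hq : B.card ≤ q) :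
    ∑ C ∈ (I T q).filter (fun C => B ⊆ C), w T J C =
      w T J B * ((J - B.card).choose (q - B.card) : ℕ) := by
  have h1 : ∀ C ∈ (I T q).filter (fun C => B ⊆ C), w T J C =
      ∑ A ∈ I T J, if C ⊆ A then (1 : ℝ) else 0 := by
    intro C _
    unfold w
    rw [← Finset.sum_filter, sum_const, nsmul_eq_mul, mul_one]
  rw [sum_congr rfl h1, sum_comm]
  have h2 : ∀ A ∈ I T J, (∑ C ∈ (I T q).filter (fun C => B ⊆ C), if C ⊆ A then (1 : ℝ) else 0) =
      if B ⊆ A then (((J - B.card).choose (q - B.card) : ℕ) : ℝ) else 0 := by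
    intro A hA
    rw [← Finset.sum_filter, sum_const, nsmul_eq_mul, mul_one]
    split_ifs with hBA
    · rw [← (mem_I.1 hA).1, ← card_between hBA hq]
      congr 2
      ext C
      simp only [mem_filter, I, mem_powersetCard]
      constructor
      · rintro ⟨⟨⟨h1, h2⟩, h3⟩, h4⟩; exact ⟨h1, h3, h4⟩
      · rintro ⟨h1, h3, h4⟩; exact ⟨⟨⟨h1, ind_mono h4 (mem_I.1 hA).2⟩, h3⟩, h4⟩
    · rw [Nat.cast_eq_zero, card_eq_zero, filter_eq_empty_iff]
      intro C hC hCA
      exact hBA ((mem_filter.1 hC).2.trans hCA)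
  rw [sum_congr rfl h2, ← Finset.sum_filter, sum_const, nsmul_eq_mul]
  rfl

/-- summation over the supersets avoiding `y`, of the weights with `y` added -/
theorem sum_w_sup_insert (T : Finset (Finset V)) (J : ℕ) (B : Finset V) {q : ℕ}
    (hq : B.card ≤ q) {y : V} (hy : y ∉ B) :
    ∑ C ∈ (I T q).filter (fun C => B ⊆ C ∧ y ∉ C), w T J (insert y C) =
      w T J (insert y B) * ((J - 1 - B.card).choose (q - B.card) : ℕ) := by
  have h1 : ∀ C ∈ (I T q).filter (fun C => B ⊆ C ∧ y ∉ C), w T J (insert y C) =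
      ∑ A ∈ I T J, if insert y C ⊆ A then (1 : ℝ) else 0 := by
    intro C _
    unfold w
    rw [← Finset.sum_filter, sum_const, nsmul_eq_mul, mul_one]
  rw [sum_congr rfl h1, sum_comm]
  have h2 : ∀ A ∈ I T J,
      (∑ C ∈ (I T q).filter (fun C => B ⊆ C ∧ y ∉ C), if insert y C ⊆ A then (1 : ℝ) else 0) =
      if insert y B ⊆ A then (((J - 1 - B.card).choose (q - B.card) : ℕ) : ℝ) else 0 := by
    intro A hA
    rw [← Finset.sum_filter, sum_const, nsmul_eq_mul, mul_one]
    split_ifs with hBA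
    · rw [insert_subset_iff] at hBA
      have hBe : B ⊆ A.erase y := fun x hx => mem_erase.2 ⟨fun h => hy (h ▸ hx), hBA.2 hx⟩
      have e1 : J - 1 = (A.erase y).card := by rw [card_erase_of_mem hBA.1, (mem_I.1 hA).1]
      rw [e1, ← card_between hBe hq]
      congr 2
      ext C
      simp only [mem_filter, I, mem_powersetCard, insert_subset_iff]
      constructor
      · rintro ⟨⟨⟨h1, h2⟩, h3, h4⟩, h5, h6⟩
        exact ⟨h1, h3, fun x hx => mem_erase.2 ⟨fun h => h4 (h ▸ hx), h6 hx⟩⟩
      · rintro ⟨h1, h3, h4⟩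
        have h5 : C ⊆ A := h4.trans (erase_subset _ _)
        exact ⟨⟨⟨h1, ind_mono h5 (mem_I.1 hA).2⟩, h3, fun h => (mem_erase.1 (h4 h)).1 rfl⟩,
          hBA.1, h5⟩
    · rw [Nat.cast_eq_zero, card_eq_zero, filter_eq_empty_iff]
      intro C hC hCA
      exact hBA ((insert_subset_insert _ (mem_filter.1 hC).2.1).trans hCA)
  rw [sum_congr rfl h2, ← Finset.sum_filter, sum_const, nsmul_eq_mul]
  rfl

theorem W_eq {i : ℕ} : W T J i = ((I T J).card : ℝ) * (J.choose i : ℕ) := by
  have h := sum_w_sup T J (∅ : Finset V) (q := i) (by simp)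
  rw [w_empty] at h
  simp only [card_empty, Nat.sub_zero, empty_subset, filter_true] at h
  exact h

theorem W_pos (hJ : (I T J).Nonempty) {i : ℕ} (hi : i ≤ J) : 0 < W T J i := by
  rw [W_eq]
  have h1 : (0 : ℝ) < ((I T J).card : ℝ) := by exact_mod_cast card_pos.2 hJ
  have h2 : (0 : ℝ) < ((J.choose i : ℕ) : ℝ) := by exact_mod_cast Nat.choose_pos hi
  positivity

/-- the weights of the one-step extensions -/
theorem sum_w_insert {C : Finset V} (hC : C.card ≤ J) :
    ∑ y ∈ U T C, w T J (insert y C) = ((J : ℝ) - C.card) * w T J C := by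
  have h1 : ∀ y ∈ U T C, w T J (insert y C) = ∑ A ∈ I T J, if insert y C ⊆ A then (1 : ℝ) else 0 := by
    intro y _
    unfold w
    rw [← Finset.sum_filter, sum_const, nsmul_eq_mul, mul_one]
  rw [sum_congr rfl h1, sum_comm]
  have h2 : ∀ A ∈ I T J, (∑ y ∈ U T C, if insert y C ⊆ A then (1 : ℝ) else 0) =
      if C ⊆ A then ((J : ℝ) - C.card) else 0 := by
    intro A hA
    rw [← Finset.sum_filter, sum_const, nsmul_eq_mul, mul_one]
    split_ifs with hCA
    · have : ((U T C).filter fun y => insert y C ⊆ A) = A \ C := by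
        ext y
        rw [mem_filter, mem_U, mem_sdiff, insert_subset_iff]
        constructor
        · rintro ⟨⟨h1, -⟩, h2, -⟩; exact ⟨h2, h1⟩
        · rintro ⟨h1, h2⟩
          exact ⟨⟨h2, ind_mono (insert_subset h1 hCA) (mem_I.1 hA).2⟩, h1, hCA⟩
      rw [this, card_sdiff_of_subset hCA, (mem_I.1 hA).1, Nat.cast_sub hC]
    · rw [Nat.cast_eq_zero, card_eq_zero, filter_eq_empty_iff]
      intro y _ h
      exact hCA ((subset_insert _ _).trans h)
  rw [sum_congr rfl h2, ← Finset.sum_filter, sum_const, nsmul_eq_mul, mul_comm]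
  rfl

theorem W_succ {i : ℕ} (hi : i ≤ J) : ((J : ℝ) - i) * W T J i = ((i : ℝ) + 1) * W T J (i + 1) := by
  have h1 := sum_pairs T i (fun C y => w T J (insert y C))
  have h2 : ∑ C ∈ I T i, ∑ y ∈ U T C, w T J (insert y C) = ((J : ℝ) - i) * W T J i := by
    rw [W, mul_sum]
    refine sum_congr rfl fun C hC => ?_
    rw [sum_w_insert (by rw [(mem_I.1 hC).1]; exact hi), (mem_I.1 hC).1]
  have h3 : ∑ A ∈ I T (i + 1), ∑ a ∈ A, w T J (insert a (A.erase a)) =
      ((i : ℝ) + 1) * W T J (i + 1) := by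
    rw [W, mul_sum]
    refine sum_congr rfl fun A hA => ?_
    rw [sum_congr rfl (fun a ha => by rw [insert_erase ha])]
    rw [sum_const, nsmul_eq_mul, (mem_I.1 hA).1]
    push_cast; ring
  rw [← h2, h1, h3]

/-- moving weights one level up -/
theorem sum_pairs_w (i : ℕ) (F : Finset V → V → ℝ) :
    ∑ C ∈ I T i, ∑ y ∈ U T C, w T J (insert y C) * F C y =
      ∑ A ∈ I T (i + 1), w T J A * ∑ a ∈ A, F (A.erase a) a := by
  rw [sum_pairs T i (fun C y => w T J (insert y C) * F C y)]
  refine sum_congr rfl fun A _ => ?_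
  rw [mul_sum]
  exact sum_congr rfl fun a ha => by rw [insert_erase ha]

/-- mean number of free vertices -/
noncomputable def vv (T : Finset (Finset V)) (J i : ℕ) : ℝ := av T J i fun C => ((U T C).card : ℝ)

/-- mean number of blocked vertices -/
noncomputable def bb (T : Finset (Finset V)) (J i : ℕ) : ℝ := av T J i fun C => ((blk T C).card : ℝ)

/-- mean deficiency -/
noncomputable def sg (T : Finset (Finset V)) (r J i : ℕ) : ℝ := av T J i (sig T r)

theorem av_mul_W (hJ : (I T J).Nonempty) {i : ℕ} (hi : i ≤ J) (F : Finset V → ℝ) :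
    av T J i F * W T J i = ∑ C ∈ I T i, w T J C * F C := by
  unfold av
  exact div_mul_cancel₀ _ (W_pos hJ hi).ne'

theorem vv_add_bb (hJ : (I T J).Nonempty) {i : ℕ} (hi : i ≤ J) :
    (i : ℝ) + vv T J i + bb T J i = Fintype.card V := by
  have hW := W_pos hJ hi
  have h1 : ((i : ℝ) + vv T J i + bb T J i) * W T J i = (Fintype.card V : ℝ) * W T J i := by
    rw [add_mul, add_mul, vv, bb, av_mul_W hJ hi, av_mul_W hJ hi]
    unfold W
    rw [mul_sum, mul_sum, ← sum_add_distrib, ← sum_add_distrib]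
    refine sum_congr rfl fun C hC => ?_
    have h2 := card_parts (T := T) C
    rw [(mem_I.1 hC).1] at h2
    have h3 : (i : ℝ) + (U T C).card + (blk T C).card = Fintype.card V := by exact_mod_cast h2
    rw [← h3]; ring
  exact mul_right_cancel₀ hW.ne' h1

theorem sg_nonneg {r : ℕ} (hT : ∀ e ∈ T, e.card = r) (i : ℕ) : 0 ≤ sg T r J i := by
  unfold sg av
  refine div_nonneg (sum_nonneg fun C hC => mul_nonneg (w_nonneg C) (sig_nonneg hT (mem_I.1 hC).2)) ?_
  exact sum_nonneg fun C _ => w_nonneg C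

theorem bb_nonneg (i : ℕ) : 0 ≤ bb T J i := by
  unfold bb av
  refine div_nonneg (sum_nonneg fun C _ => mul_nonneg (w_nonneg C) (Nat.cast_nonneg _)) ?_
  exact sum_nonneg fun C _ => w_nonneg C

theorem vv_nonneg (i : ℕ) : 0 ≤ vv T J i := by
  unfold vv av
  refine div_nonneg (sum_nonneg fun C _ => mul_nonneg (w_nonneg C) (Nat.cast_nonneg _)) ?_
  exact sum_nonneg fun C _ => w_nonneg C

/-- the recursion along the chain -/
theorem recursion (hJ : (I T J).Nonempty) (r : ℕ) {i : ℕ} (hi : i < J) :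
    ((i : ℝ) + 1) * (bb T J (i + 1) - bb T J i) =
      ((r : ℝ) - 1) * bb T J (i + 1) - sg T r J (i + 1) := by
  have hW := W_pos hJ (i := i + 1) hi
  have hWi := W_pos hJ (i := i) hi.le
  have key : (((J : ℝ) - i) * W T J i) * vv T J i - (((i : ℝ) + 1) * W T J (i + 1)) * vv T J (i + 1)
      = ((i : ℝ) + 1) * W T J (i + 1) + ((r : ℝ) - 1) * (bb T J (i + 1) * W T J (i + 1)) -
        sg T r J (i + 1) * W T J (i + 1) := by
    have h1 := sum_pairs_w (T := T) (J := J) i
      (fun C y => ((U T C).card : ℝ) - ((U T (insert y C)).card : ℝ))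
    have h2 : ∑ C ∈ I T i, ∑ y ∈ U T C, w T J (insert y C) *
        (((U T C).card : ℝ) - ((U T (insert y C)).card : ℝ)) =
        (((J : ℝ) - i) * W T J i) * vv T J i -
          (((i : ℝ) + 1) * W T J (i + 1)) * vv T J (i + 1) := by
      simp only [mul_sub, sum_sub_distrib]
      congr 1
      · have e1 : (((J : ℝ) - i) * W T J i) * vv T J i =
            ((J : ℝ) - i) * (vv T J i * W T J i) := by ring
        rw [e1, vv, av_mul_W hJ hi.le, mul_sum]
        refine sum_congr rfl fun C hC => ?_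
        rw [← sum_mul, sum_w_insert (by rw [(mem_I.1 hC).1]; exact hi.le), (mem_I.1 hC).1]
        ring
      · rw [sum_pairs T i (fun C y => w T J (insert y C) * ((U T (insert y C)).card : ℝ))]
        have e1 : (((i : ℝ) + 1) * W T J (i + 1)) * vv T J (i + 1) =
            ((i : ℝ) + 1) * (vv T J (i + 1) * W T J (i + 1)) := by ring
        rw [e1, vv, av_mul_W hJ (Nat.succ_le_of_lt hi), mul_sum]
        refine sum_congr rfl fun A hA => ?_
        rw [sum_congr rfl (fun a ha => by rw [insert_erase ha]), sum_const, nsmul_eq_mul,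
          (mem_I.1 hA).1]
        push_cast; ring
    have h3 : ∑ A ∈ I T (i + 1), w T J A * ∑ a ∈ A,
        (((U T (A.erase a)).card : ℝ) - ((U T (insert a (A.erase a))).card : ℝ)) =
        ((i : ℝ) + 1) * W T J (i + 1) + ((r : ℝ) - 1) * (bb T J (i + 1) * W T J (i + 1)) -
          sg T r J (i + 1) * W T J (i + 1) := by
      rw [bb, sg, av_mul_W hJ (Nat.succ_le_of_lt hi), av_mul_W hJ (Nat.succ_le_of_lt hi), W,
        mul_sum, mul_sum, ← sum_add_distrib, ← sum_sub_distrib]
      refine sum_congr rfl fun A hA => ?_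
      have e2 : ∑ a ∈ A, (((U T (A.erase a)).card : ℝ) - ((U T (insert a (A.erase a))).card : ℝ)) =
          ∑ a ∈ A, ((cls T (A.erase a) a).card : ℝ) := by
        refine sum_congr rfl fun a ha => ?_
        have haU : a ∈ U T (A.erase a) := by
          rw [mem_U, insert_erase ha]; exact ⟨notMem_erase _ _, (mem_I.1 hA).2⟩
        have := card_U_insert haU
        have h4 : ((U T (insert a (A.erase a))).card : ℝ) + (cls T (A.erase a) a).card =
          (U T (A.erase a)).card := by exact_mod_cast this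
        linarith
      rw [e2, sum_cls r (mem_I.1 hA).2, (mem_I.1 hA).1]
      push_cast; ring
    rw [← h2, h1, h3]
  rw [W_succ hi.le] at key
  have hv1 := vv_add_bb hJ hi.le
  have hv2 := vv_add_bb hJ (i := i + 1) hi
  push_cast at hv2
  have e3 : vv T J i - vv T J (i + 1) = 1 + bb T J (i + 1) - bb T J i := by linarith
  have key2 : W T J (i + 1) * (((i : ℝ) + 1) * (vv T J i - vv T J (i + 1))) =
      W T J (i + 1) * (((i : ℝ) + 1) + ((r : ℝ) - 1) * bb T J (i + 1) - sg T r J (i + 1)) := by
    linarith [key]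
  have key3 := mul_left_cancel₀ hW.ne' key2
  rw [e3] at key3
  linarith

end Pool.Agent.J4.H84.TU
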