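import Pool.Agent.J4.H84.TU.Chain

/-! # The entropy of the chain -/

set_option autoImplicit false

open Finset

namespace Pool.Agent.J4.H84.TU

variable {V : Type*} [Fintype V] [DecidableEq V] {T : Finset (Finset V)} {J : ℕ}

/-- mean logarithm of the weight -/
noncomputable def ell (T : Finset (Finset V)) (J i : ℕ) : ℝ :=
  av T J i fun C => Real.log (w T J C)

/-- the entropy defect at the level `i` -/
noncomputable def kap (T : Finset (Finset V)) (J i : ℕ) : ℝ :=
  Real.log (vv T J i) - Real.log ((J : ℝ) - i) + ell T J (i + 1) - ell T J i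

theorem elem_log {a b : ℝ} (ha : 0 < a) (hb : 0 < b) :
    (√a - √b) ^ 2 + a - b ≤ a * (Real.log a - Real.log b) := by
  have h1 : Real.log (√(b / a)) ≤ √(b / a) - 1 := Real.log_le_sub_one_of_pos (by positivity)
  rw [Real.log_sqrt (by positivity), Real.log_div hb.ne' ha.ne'] at h1
  have h2 : a * √(b / a) = √a * √b := by
    rw [Real.sqrt_div' _ ha.le, mul_div_assoc']
    rw [div_eq_iff (by positivity)]
    have h9 := Real.mul_self_sqrt ha.le
    calc a * √b = (√a * √a) * √b := by rw [h9]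
      _ = √a * √b * √a := by ring
  have h3 : a * ((Real.log b - Real.log a) / 2) ≤ a * (√(b / a) - 1) :=
    mul_le_mul_of_nonneg_left h1 ha.le
  have h4 := Real.sq_sqrt ha.le
  have h5 := Real.sq_sqrt hb.le
  nlinarith [h2, h3, h4, h5]

theorem vv_pos (hJ : (I T J).Nonempty) {i : ℕ} (hi : i < J) : 1 ≤ vv T J i := by
  have hW := W_pos hJ hi.le
  rw [vv, av, le_div_iff₀ hW, one_mul, W]
  refine sum_le_sum fun C hC => ?_
  by_cases h0 : w T J C = 0
  · rw [h0, zero_mul]
  · have h1 : 0 < w T J C := lt_of_le_of_ne (w_nonneg C) (Ne.symm h0)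
    have h2 := sum_w_insert (T := T) (J := J) (C := C) (by rw [(mem_I.1 hC).1]; exact hi.le)
    rw [(mem_I.1 hC).1] at h2
    have h3 : (0 : ℝ) < (J : ℝ) - i := by
      have : (i : ℝ) < J := by exact_mod_cast hi
      linarith
    have h4 : (U T C).Nonempty := by
      by_contra h
      rw [not_nonempty_iff_eq_empty] at h
      rw [h, sum_empty] at h2
      have : 0 < ((J : ℝ) - i) * w T J C := mul_pos h3 h1
      linarith
    have h5 : (1 : ℝ) ≤ (U T C).card := by exact_mod_cast card_pos.2 h4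
    nlinarith

/-- total deviation from the uniform choice -/
noncomputable def dev (T : Finset (Finset V)) (J i : ℕ) : ℝ :=
  ∑ C ∈ I T i, ∑ y ∈ U T C, |w T J (insert y C) - ((J : ℝ) - i) * w T J C / vv T J i|

theorem kap_dev (hJ : (I T J).Nonempty) {i : ℕ} (hi : i < J) :
    0 ≤ kap T J i ∧ dev T J i ≤ 2 * (((J : ℝ) - i) * W T J i) * √(kap T J i) := by
  have hW := W_pos hJ hi.le
  have hJi : (0 : ℝ) < (J : ℝ) - i := by
    have : (i : ℝ) < J := by exact_mod_cast hi
    linarith
  have hv : 0 < vv T J i := lt_of_lt_of_le one_pos (vv_pos hJ hi)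
  set v := vv T J i with hvdef
  -- the sigma type
  set S := (I T i).sigma (fun C => U T C) with hS
  set a : (Σ _ : Finset V, V) → ℝ := fun x => w T J (insert x.2 x.1) with ha
  set b : (Σ _ : Finset V, V) → ℝ := fun x => ((J : ℝ) - i) * w T J x.1 / v with hb
  have ha0 : ∀ x, 0 ≤ a x := fun x => w_nonneg _
  have hb0 : ∀ x, 0 ≤ b x := fun x => div_nonneg (mul_nonneg hJi.le (w_nonneg _)) hv.le
  have suma : ∑ x ∈ S, a x = ((J : ℝ) - i) * W T J i := by
    rw [hS, sum_sigma, W, mul_sum]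
    refine sum_congr rfl fun C hC => ?_
    have := sum_w_insert (T := T) (J := J) (C := C) (by rw [(mem_I.1 hC).1]; exact hi.le)
    rw [(mem_I.1 hC).1] at this
    exact this
  have sumb : ∑ x ∈ S, b x = ((J : ℝ) - i) * W T J i := by
    rw [hS, sum_sigma]
    have h1 : ∀ C ∈ I T i, ∑ y ∈ U T C, b ⟨C, y⟩ = (((J : ℝ) - i) / v) * (w T J C * (U T C).card) := by
      intro C _
      simp only [hb, sum_const, nsmul_eq_mul]
      ring
    rw [sum_congr rfl h1, ← mul_sum, ← av_mul_W hJ hi.le]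
    have : av T J i (fun C => ((U T C).card : ℝ)) = v := rfl
    rw [this]
    field_simp
  -- the logarithmic sum
  have sumK : ∑ x ∈ S, a x * (Real.log (w T J (insert x.2 x.1)) + Real.log v -
      Real.log ((J : ℝ) - i) - Real.log (w T J x.1)) = (((J : ℝ) - i) * W T J i) * kap T J i := by
    have h1 : ∑ x ∈ S, a x * Real.log (w T J (insert x.2 x.1)) =
        (((J : ℝ) - i) * W T J i) * ell T J (i + 1) := by
      rw [hS, sum_sigma]
      have h2 := sum_pairs T i (fun C y => w T J (insert y C) * Real.log (w T J (insert y C)))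
      simp only [ha]
      rw [h2, W_succ hi.le]
      have e1 : ((i : ℝ) + 1) * W T J (i + 1) * ell T J (i + 1) =
          ((i : ℝ) + 1) * (ell T J (i + 1) * W T J (i + 1)) := by ring
      rw [e1, ell, av_mul_W hJ (Nat.succ_le_of_lt hi), mul_sum]
      refine sum_congr rfl fun A hA => ?_
      rw [sum_congr rfl (fun a ha => by rw [insert_erase ha]), sum_const, nsmul_eq_mul,
        (mem_I.1 hA).1]
      push_cast; ring
    have h3 : ∑ x ∈ S, a x * Real.log (w T J x.1) = (((J : ℝ) - i) * W T J i) * ell T J i := by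
      rw [hS, sum_sigma]
      have e1 : ((J : ℝ) - i) * W T J i * ell T J i =
          ((J : ℝ) - i) * (ell T J i * W T J i) := by ring
      rw [e1, ell, av_mul_W hJ hi.le, mul_sum]
      refine sum_congr rfl fun C hC => ?_
      simp only [ha]
      rw [← sum_mul, sum_w_insert (by rw [(mem_I.1 hC).1]; exact hi.le), (mem_I.1 hC).1]
      ring
    have h4 : ∑ x ∈ S, a x * (Real.log (w T J (insert x.2 x.1)) + Real.log v -
      Real.log ((J : ℝ) - i) - Real.log (w T J x.1)) =
      ∑ x ∈ S, a x * Real.log (w T J (insert x.2 x.1)) - ∑ x ∈ S, a x * Real.log (w T J x.1) +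
        (∑ x ∈ S, a x) * (Real.log v - Real.log ((J : ℝ) - i)) := by
      rw [sum_mul, ← sum_sub_distrib, ← sum_add_distrib]
      exact sum_congr rfl fun x _ => by ring
    rw [h4, h1, h3, suma, kap, ← hvdef]
    ring
  have hpt : ∀ x ∈ S, (√(a x) - √(b x)) ^ 2 + a x - b x ≤
      a x * (Real.log (w T J (insert x.2 x.1)) + Real.log v -
        Real.log ((J : ℝ) - i) - Real.log (w T J x.1)) := by
    intro x _
    rcases (ha0 x).eq_or_lt with h0 | h0
    · rw [← h0]
      simp only [Real.sqrt_zero, zero_sub, zero_mul, add_zero]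
      rw [neg_sq, Real.sq_sqrt (hb0 x), sub_self]
    · have h1 : 0 < w T J x.1 := lt_of_lt_of_le h0 (w_anti (subset_insert _ _))
      have h2 : 0 < b x := by simp only [hb]; positivity
      have h3 := elem_log h0 h2
      have h4 : Real.log (b x) = Real.log ((J : ℝ) - i) + Real.log (w T J x.1) - Real.log v := by
        simp only [hb]
        rw [Real.log_div (by positivity) hv.ne', Real.log_mul hJi.ne' h1.ne']
      rw [h4] at h3
      refine h3.trans (le_of_eq ?_)
      simp only [ha]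
      ring
  have hK : ∑ x ∈ S, (√(a x) - √(b x)) ^ 2 ≤ (((J : ℝ) - i) * W T J i) * kap T J i := by
    have h1 := sum_le_sum hpt
    rw [sumK, sum_sub_distrib, sum_add_distrib, suma, sumb] at h1
    linarith
  have hMpos : 0 < ((J : ℝ) - i) * W T J i := mul_pos hJi hW
  have hk0 : 0 ≤ kap T J i := by
    have : 0 ≤ (((J : ℝ) - i) * W T J i) * kap T J i :=
      (sum_nonneg fun x _ => sq_nonneg _).trans hK
    exact nonneg_of_mul_nonneg_right this hMpos
  refine ⟨hk0, ?_⟩
  have hdev : dev T J i = ∑ x ∈ S, |√(a x) - √(b x)| * (√(a x) + √(b x)) := by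
    rw [hS, sum_sigma, dev]
    refine sum_congr rfl fun C _ => sum_congr rfl fun y _ => ?_
    have e1 : w T J (insert y C) = a ⟨C, y⟩ := rfl
    have e2 : ((J : ℝ) - i) * w T J C / vv T J i = b ⟨C, y⟩ := rfl
    rw [e1, e2]
    have h1 := Real.mul_self_sqrt (ha0 ⟨C, y⟩)
    have h2 := Real.mul_self_sqrt (hb0 ⟨C, y⟩)
    have h3 : a ⟨C, y⟩ - b ⟨C, y⟩ = (√(a ⟨C, y⟩) - √(b ⟨C, y⟩)) * (√(a ⟨C, y⟩) + √(b ⟨C, y⟩)) := by
      nlinarith
    rw [h3, abs_mul, abs_of_nonneg (a := √(a ⟨C, y⟩) + √(b ⟨C, y⟩)) (by positivity)]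
  have hcs := Finset.sum_mul_sq_le_sq_mul_sq S (fun x => |√(a x) - √(b x)|)
    (fun x => √(a x) + √(b x))
  rw [← hdev] at hcs
  have h5 : ∑ x ∈ S, |√(a x) - √(b x)| ^ 2 ≤ (((J : ℝ) - i) * W T J i) * kap T J i := by
    refine le_trans (le_of_eq (sum_congr rfl fun x _ => sq_abs _)) hK
  have h6 : ∑ x ∈ S, (√(a x) + √(b x)) ^ 2 ≤ 4 * (((J : ℝ) - i) * W T J i) := by
    have : ∑ x ∈ S, (√(a x) + √(b x)) ^ 2 ≤ ∑ x ∈ S, (2 * a x + 2 * b x) := by
      refine sum_le_sum fun x _ => ?_
      have h1 := Real.sq_sqrt (ha0 x)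
      have h2 := Real.sq_sqrt (hb0 x)
      nlinarith [sq_nonneg (√(a x) - √(b x))]
    rw [sum_add_distrib, ← mul_sum, ← mul_sum, suma, sumb] at this
    linarith
  have h7 : (dev T J i) ^ 2 ≤ (2 * (((J : ℝ) - i) * W T J i) * √(kap T J i)) ^ 2 := by
    have h8 : (dev T J i) ^ 2 ≤ ((((J : ℝ) - i) * W T J i) * kap T J i) *
        (4 * (((J : ℝ) - i) * W T J i)) :=
      hcs.trans (mul_le_mul h5 h6 (sum_nonneg fun x _ => sq_nonneg _)
        (mul_nonneg hMpos.le hk0))
    refine h8.trans (le_of_eq ?_)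
    rw [mul_pow, mul_pow, Real.sq_sqrt hk0]
    ring
  exact abs_le_of_sq_le_sq' h7 (by positivity) |>.2

/-- the total entropy -/
theorem sum_kap (hJ : (I T J).Nonempty) :
    ∑ i ∈ range J, kap T J i = ∑ i ∈ range J, (Real.log (vv T J i) - Real.log (vv T i i)) := by
  have hne : ∀ i ≤ J, (I T i).Nonempty := by
    intro i hi
    obtain ⟨A, hA⟩ := hJ
    obtain ⟨B, hB, hBc⟩ := exists_subset_card_eq (s := A) (n := i) (by rw [(mem_I.1 hA).1]; exact hi)
    exact ⟨B, mem_I.2 ⟨hBc, ind_mono hB (mem_I.1 hA).2⟩⟩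
  have hcan : ∀ i < J, vv T i i * ((I T i).card : ℝ) = ((i : ℝ) + 1) * ((I T (i + 1)).card : ℝ) := by
    intro i hi
    have h1 := sum_pairs T i (fun _ _ => (1 : ℝ))
    simp only [sum_const, nsmul_eq_mul, mul_one] at h1
    have h2 : ∑ A ∈ I T (i + 1), (A.card : ℝ) = ((i : ℝ) + 1) * ((I T (i + 1)).card : ℝ) := by
      rw [sum_congr rfl (fun A hA => by rw [(mem_I.1 hA).1]), sum_const, nsmul_eq_mul]
      push_cast; ring
    have h3 : ((I T i).card : ℝ) = W T i i := by
      rw [W_eq, Nat.choose_self]; push_cast; ring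
    rw [h3, vv, av_mul_W (hne i hi.le) le_rfl, ← h2, ← h1]
    refine sum_congr rfl fun C hC => ?_
    rw [w_top hC, one_mul]
  have hlog : ∀ i < J, Real.log (vv T i i) =
      Real.log ((i : ℝ) + 1) + Real.log ((I T (i + 1)).card : ℝ) - Real.log ((I T i).card : ℝ) := by
    intro i hi
    have h1 : (0 : ℝ) < ((I T i).card : ℝ) := by exact_mod_cast card_pos.2 (hne i hi.le)
    have h2 : (0 : ℝ) < ((I T (i + 1)).card : ℝ) := by exact_mod_cast card_pos.2 (hne (i + 1) hi)
    have h3 := hcan i hi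
    have h4 : vv T i i = ((i : ℝ) + 1) * ((I T (i + 1)).card : ℝ) / ((I T i).card : ℝ) := by
      rw [eq_div_iff h1.ne']; exact h3
    rw [h4, Real.log_div (by positivity) h1.ne', Real.log_mul (by positivity) h2.ne']
  have e1 : ∑ i ∈ range J, kap T J i = ∑ i ∈ range J, Real.log (vv T J i) -
      ∑ i ∈ range J, Real.log ((J : ℝ) - i) + (ell T J J - ell T J 0) := by
    rw [← Finset.sum_range_sub (fun i => ell T J i) J, ← sum_sub_distrib, ← sum_add_distrib]
    refine sum_congr rfl fun i _ => ?_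
    unfold kap; ring
  have e2 : ∑ i ∈ range J, Real.log (vv T i i) = ∑ i ∈ range J, Real.log ((i : ℝ) + 1) +
      (Real.log ((I T J).card : ℝ) - Real.log ((I T 0).card : ℝ)) := by
    rw [← Finset.sum_range_sub (fun i => Real.log ((I T i).card : ℝ)) J, ← sum_add_distrib]
    refine sum_congr rfl fun i hi => ?_
    rw [hlog i (mem_range.1 hi)]
    ring
  have e3 : ∑ i ∈ range J, Real.log ((J : ℝ) - i) = ∑ i ∈ range J, Real.log ((i : ℝ) + 1) := by
    rw [← Finset.sum_range_reflect]
    refine sum_congr rfl fun i hi => ?_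
    have hi := mem_range.1 hi
    congr 1
    rw [Nat.cast_sub (by omega), Nat.cast_sub (by omega)]
    push_cast; ring
  have e4 : ell T J J = 0 := by
    unfold ell av
    rw [sum_eq_zero, zero_div]
    intro A hA
    simp only [w_top hA, Real.log_one, mul_zero]
  have hI0 : I T 0 = {∅} := by
    obtain ⟨B, hB⟩ := hne 0 (Nat.zero_le _)
    have hB0 : B = ∅ := card_eq_zero.1 (mem_I.1 hB).1
    subst hB0
    ext C
    rw [mem_singleton, mem_I]
    constructor
    · rintro ⟨h, -⟩; exact card_eq_zero.1 h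
    · rintro rfl; exact mem_I.1 hB
  have e5 : ell T J 0 = Real.log ((I T J).card : ℝ) := by
    unfold ell av W
    rw [hI0, sum_singleton, sum_singleton]
    simp only [w_empty]
    have : (0 : ℝ) < ((I T J).card : ℝ) := by exact_mod_cast card_pos.2 hJ
    field_simp
  have e6 : Real.log ((I T 0).card : ℝ) = 0 := by rw [hI0, card_singleton, Nat.cast_one, Real.log_one]
  rw [sum_sub_distrib, e1, e2, e3, e4, e5, e6]
  ring

end Pool.Agent.J4.H84.TU
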