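import Pool.Agent.J4.H84.TU.Canon
import Pool.Agent.J4.H84.TU.Ent

/-! # The chain against the canonical averages -/

set_option autoImplicit false

open Finset

namespace Pool.Agent.J4.H84.TU

variable {V : Type*} [Fintype V] [DecidableEq V] {T : Finset (Finset V)} {J : ℕ}

/-- the excess of the chain -/
noncomputable def SS (T : Finset (Finset V)) (r J i : ℕ) : ℝ :=
  bb T J i / ((i.choose (r - 1) : ℕ) : ℝ) - BB T r J

theorem SS_top (r : ℕ) : SS T r J J = 0 := by
  unfold SS BB; ring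

theorem bb_small {r : ℕ} (hT : ∀ e ∈ T, e.card = r) {i : ℕ} (hi : i + 1 < r) : bb T J i = 0 := by
  unfold bb av
  rw [sum_eq_zero, zero_div]
  intro C hC
  have h1 : blk T C = ∅ := by
    rw [eq_empty_iff_forall_notMem]
    intro z hz
    rw [mem_blk] at hz
    refine hz.2 fun e he hes => ?_
    have h2 := card_le_card hes
    have h3 := card_insert_le z C
    rw [(mem_I.1 hC).1] at h3
    rw [hT e he] at h2
    omega
  simp only [h1, card_empty, Nat.cast_zero, mul_zero]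

theorem bb_eq {r i : ℕ} (hri : r - 1 ≤ i) :
    bb T J i = ((i.choose (r - 1) : ℕ) : ℝ) * (BB T r J + SS T r J i) := by
  have g1 : (((i.choose (r - 1) : ℕ)) : ℝ) ≠ 0 := by
    have := Nat.choose_pos hri
    exact_mod_cast this.ne'
  unfold SS
  rw [show BB T r J + (bb T J i / ((i.choose (r - 1) : ℕ) : ℝ) - BB T r J) =
    bb T J i / ((i.choose (r - 1) : ℕ) : ℝ) by ring, mul_div_cancel₀ _ g1]

theorem SS_rec {r i : ℕ} (hr : 1 ≤ r) (hri : r - 1 ≤ i) (hJ : (I T J).Nonempty) (hi : i < J) :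
    ((i : ℝ) + 1) * ((i.choose (r - 1) : ℕ) : ℝ) * (SS T r J i - SS T r J (i + 1)) =
      sg T r J (i + 1) := by
  have h1 := recursion hJ r hi
  have h2 := Nat.choose_mul_succ_eq i (r - 1)
  have h3 : ((i.choose (r - 1) : ℕ) : ℝ) * ((i : ℝ) + 1) =
      (((i + 1).choose (r - 1) : ℕ) : ℝ) * ((i : ℝ) + 1 - ((r : ℝ) - 1)) := by
    have h4 : ((i.choose (r - 1) * (i + 1) : ℕ) : ℝ) =
        (((i + 1).choose (r - 1) * (i + 1 - (r - 1)) : ℕ) : ℝ) := by rw [h2]
    rw [Nat.cast_mul, Nat.cast_mul, Nat.cast_sub (by omega), Nat.cast_sub hr] at h4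
    push_cast at h4
    exact h4
  have k1 := bb_eq (T := T) (J := J) (r := r) hri
  have k2 := bb_eq (T := T) (J := J) (r := r) (i := i + 1) (by omega)
  rw [k1, k2] at h1
  linear_combination (-1 : ℝ) * h1 - (BB T r J + SS T r J (i + 1)) * h3

theorem SS_anti_succ {r i : ℕ} (hr : 1 ≤ r) (hT : ∀ e ∈ T, e.card = r) (hri : r - 1 ≤ i)
    (hJ : (I T J).Nonempty) (hi : i < J) : SS T r J (i + 1) ≤ SS T r J i := by
  have h1 := SS_rec hr hri hJ hi
  have h2 := sg_nonneg (T := T) (J := J) hT (i + 1)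
  have g1 : (0 : ℝ) < ((i.choose (r - 1) : ℕ) : ℝ) := by exact_mod_cast Nat.choose_pos hri
  have h4 : 0 ≤ ((i : ℝ) + 1) * ((i.choose (r - 1) : ℕ) : ℝ) * (SS T r J i - SS T r J (i + 1)) := by
    rw [h1]; exact h2
  have h5 := nonneg_of_mul_nonneg_right h4 (by positivity)
  linarith

theorem SS_anti {r : ℕ} (hr : 1 ≤ r) (hT : ∀ e ∈ T, e.card = r) (hJ : (I T J).Nonempty) {i l : ℕ}
    (hri : r - 1 ≤ i) (hil : i ≤ l) (hl : l ≤ J) : SS T r J l ≤ SS T r J i := by
  induction l, hil using Nat.le_induction with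
  | base => exact le_rfl
  | succ l hil ih =>
    exact (SS_anti_succ hr hT (by omega) hJ (by omega)).trans (ih (by omega))

theorem SS_nonneg {r : ℕ} (hr : 1 ≤ r) (hT : ∀ e ∈ T, e.card = r) (hJ : (I T J).Nonempty) {i : ℕ}
    (hri : r - 1 ≤ i) (hi : i ≤ J) : 0 ≤ SS T r J i := by
  rw [← SS_top (T := T) (J := J) r]
  exact SS_anti hr hT hJ hri hi le_rfl

theorem vv_eq {r i : ℕ} (hri : r - 1 ≤ i) (hJ : (I T J).Nonempty) (hi : i ≤ J) :
    vv T J i = Fintype.card V - i - ((i.choose (r - 1) : ℕ) : ℝ) * (BB T r J + SS T r J i) := by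
  have h1 := vv_add_bb hJ hi
  rw [bb_eq (r := r) hri] at h1
  linarith

theorem uu_eq {r i : ℕ} (hri : r - 1 ≤ i) (hi : (I T i).Nonempty) :
    vv T i i = Fintype.card V - i - ((i.choose (r - 1) : ℕ) : ℝ) * BB T r i := by
  have h := vv_eq (J := i) hri hi le_rfl
  rw [SS_top, add_zero] at h
  exact h

theorem sum_choose (r : ℕ) (hr : 1 ≤ r) (N : ℕ) :
    ∑ i ∈ range N, ((i.choose (r - 1) : ℕ) : ℝ) = ((N.choose r : ℕ) : ℝ) := by
  induction N with
  | zero => rw [range_zero, sum_empty, Nat.choose_eq_zero_of_lt hr, Nat.cast_zero]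
  | succ N ih =>
    rw [sum_range_succ, ih]
    obtain ⟨s, rfl⟩ : ∃ s, r = s + 1 := ⟨r - 1, by omega⟩
    rw [Nat.choose_succ_succ, Nat.add_sub_cancel, Nat.cast_add]
    ring

/-- **the total entropy is small** -/
theorem kap_total {r : ℕ} (hr : 1 ≤ r) (hT : ∀ e ∈ T, e.card = r) (hJ : (I T J).Nonempty)
    {u X : ℝ} (hu : 0 < u) (huu : ∀ i < J, u ≤ vv T i i)
    (hX : BB T r (r - 1) - BB T r J ≤ X) (hX0 : 0 ≤ X) :
    ∑ i ∈ range J, kap T J i +
      (∑ i ∈ range J, ((i.choose (r - 1) : ℕ) : ℝ) * SS T r J i) / Fintype.card V ≤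
      X / u * ((J.choose r : ℕ) : ℝ) := by
  rw [sum_kap hJ, ← sum_choose r hr, mul_sum, sum_div, ← sum_add_distrib]
  refine sum_le_sum fun i hi => ?_
  have hi := mem_range.1 hi
  have hui := huu i hi
  have hui0 : 0 < vv T i i := lt_of_lt_of_le hu hui
  have hvi0 : 0 < vv T J i := lt_of_lt_of_le one_pos (vv_pos hJ hi)
  have hG0 : (0 : ℝ) ≤ ((i.choose (r - 1) : ℕ) : ℝ) := Nat.cast_nonneg _
  have hlog : Real.log (vv T J i) - Real.log (vv T i i) ≤ (vv T J i - vv T i i) / vv T i i := by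
    rw [← Real.log_div hvi0.ne' hui0.ne']
    have := Real.log_le_sub_one_of_pos (div_pos hvi0 hui0)
    rw [sub_div, div_self hui0.ne']
    exact this
  have hni := ne_down hJ hi.le
  have hVn : vv T i i ≤ Fintype.card V := by
    have h1 := vv_add_bb hni (i := i) le_rfl
    have h2 := bb_nonneg (T := T) (J := i) i
    have h3 : (0 : ℝ) ≤ i := Nat.cast_nonneg _
    linarith
  have hn0 : (0 : ℝ) < Fintype.card V := lt_of_lt_of_le hui0 hVn
  have hXu : 0 ≤ X / u * ((i.choose (r - 1) : ℕ) : ℝ) := by positivity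
  by_cases hri : r - 1 ≤ i
  · have e1 := vv_eq hri hJ hi.le
    have e2 := uu_eq hri hni
    have hS := SS_nonneg hr hT hJ hri hi.le
    have hB1 : BB T r i ≤ BB T r (r - 1) := BB_anti hr hT le_rfl hri hni
    have e3 : vv T J i - vv T i i =
        ((i.choose (r - 1) : ℕ) : ℝ) * (BB T r i - BB T r J - SS T r J i) := by
      rw [e1, e2]; ring
    have e4 : vv T J i - vv T i i ≤ ((i.choose (r - 1) : ℕ) : ℝ) * X -
        ((i.choose (r - 1) : ℕ) : ℝ) * SS T r J i := by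
      rw [e3, ← mul_sub]
      exact mul_le_mul_of_nonneg_left (by linarith) hG0
    have e5 : (vv T J i - vv T i i) / vv T i i ≤
        (((i.choose (r - 1) : ℕ) : ℝ) * X) / vv T i i -
        (((i.choose (r - 1) : ℕ) : ℝ) * SS T r J i) / vv T i i := by
      rw [← sub_div]
      exact div_le_div_of_nonneg_right e4 hui0.le
    have e6 : (((i.choose (r - 1) : ℕ) : ℝ) * X) / vv T i i ≤
        (((i.choose (r - 1) : ℕ) : ℝ) * X) / u :=
      div_le_div_of_nonneg_left (by positivity) hu hui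
    have e7 : (((i.choose (r - 1) : ℕ) : ℝ) * SS T r J i) / Fintype.card V ≤
        (((i.choose (r - 1) : ℕ) : ℝ) * SS T r J i) / vv T i i :=
      div_le_div_of_nonneg_left (by positivity) hui0 hVn
    have e8 : (((i.choose (r - 1) : ℕ) : ℝ) * X) / u = X / u * ((i.choose (r - 1) : ℕ) : ℝ) := by
      ring
    linarith
  · have h0 : ((i.choose (r - 1) : ℕ) : ℝ) = 0 := by
      rw [Nat.choose_eq_zero_of_lt (by omega), Nat.cast_zero]
    rw [h0, zero_mul, zero_div, add_zero, mul_zero]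
    have h1 := vv_add_bb hJ hi.le
    have h2 := vv_add_bb hni (i := i) le_rfl
    rw [bb_small hT (by omega)] at h1 h2
    have : vv T J i = vv T i i := by linarith
    rw [this, sub_self]

theorem kap_sum_le {r : ℕ} (hr : 1 ≤ r) (hT : ∀ e ∈ T, e.card = r) (hJ : (I T J).Nonempty)
    {u X : ℝ} (hu : 0 < u) (huu : ∀ i < J, u ≤ vv T i i)
    (hX : BB T r (r - 1) - BB T r J ≤ X) (hX0 : 0 ≤ X) :
    ∑ i ∈ range J, kap T J i ≤ X / u * ((J.choose r : ℕ) : ℝ) := by
  refine le_trans (le_add_of_nonneg_right ?_) (kap_total hr hT hJ hu huu hX hX0)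
  refine div_nonneg (sum_nonneg fun i hi => ?_) (Nat.cast_nonneg _)
  have hi := mem_range.1 hi
  by_cases hri : r - 1 ≤ i
  · exact mul_nonneg (Nat.cast_nonneg _) (SS_nonneg hr hT hJ hri hi.le)
  · rw [Nat.choose_eq_zero_of_lt (show i < r - 1 by omega), Nat.cast_zero, zero_mul]

theorem SS_le {r : ℕ} (hr : 1 ≤ r) (hT : ∀ e ∈ T, e.card = r) (hJ : (I T J).Nonempty)
    {u X : ℝ} (hu : 0 < u) (huu : ∀ i < J, u ≤ vv T i i)
    (hX : BB T r (r - 1) - BB T r J ≤ X) (hX0 : 0 ≤ X) {P : ℕ} (hPJ : P < J)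
    (hn : 0 < Fintype.card V) :
    SS T r J P * (((P + 1).choose r : ℕ) : ℝ) ≤
      Fintype.card V * (X / u * ((J.choose r : ℕ) : ℝ)) := by
  have hn0 : (0 : ℝ) < Fintype.card V := by exact_mod_cast hn
  have h1 := kap_total hr hT hJ hu huu hX hX0
  have h2 : 0 ≤ ∑ i ∈ range J, kap T J i :=
    sum_nonneg fun i hi => (kap_dev hJ (mem_range.1 hi)).1
  have h3 : SS T r J P * (((P + 1).choose r : ℕ) : ℝ) ≤
      ∑ i ∈ range J, ((i.choose (r - 1) : ℕ) : ℝ) * SS T r J i := by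
    rw [← sum_choose r hr, mul_sum]
    refine le_trans (sum_le_sum (g := fun i => ((i.choose (r - 1) : ℕ) : ℝ) * SS T r J i)
      fun i hi => ?_)
      (sum_le_sum_of_subset_of_nonneg (fun i hi => mem_range.2 (by
        have := mem_range.1 hi; omega)) fun i hi _ => ?_)
    · have hi := mem_range.1 hi
      rw [mul_comm]
      by_cases hri : r - 1 ≤ i
      · exact mul_le_mul_of_nonneg_left (SS_anti hr hT hJ hri (by omega) hPJ.le) (Nat.cast_nonneg _)
      · rw [Nat.choose_eq_zero_of_lt (show i < r - 1 by omega), Nat.cast_zero, zero_mul, zero_mul]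
    · have hi := mem_range.1 hi
      by_cases hri : r - 1 ≤ i
      · exact mul_nonneg (Nat.cast_nonneg _) (SS_nonneg hr hT hJ hri hi.le)
      · rw [Nat.choose_eq_zero_of_lt (show i < r - 1 by omega), Nat.cast_zero, zero_mul]
  have h4 : (∑ i ∈ range J, ((i.choose (r - 1) : ℕ) : ℝ) * SS T r J i) / Fintype.card V ≤
      X / u * ((J.choose r : ℕ) : ℝ) := by linarith
  rw [div_le_iff₀ hn0] at h4
  linarith

end Pool.Agent.J4.H84.TU
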