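import Pool.Agent.J4.H84.TU.Level4

/-! # The contradiction -/

set_option autoImplicit false

open Finset

namespace Pool.Agent.J4.H84.TU

variable {V : Type*} [Fintype V] [DecidableEq V] {T : Finset (Finset V)} {r J k0 : ℕ}

/-- the binomial condition at the far level -/
theorem Setup.hC (S : Setup T r J k0) {p : ℕ} (hp : J ≤ p + 10 ^ 4 * k0) (hp2 : p < J) :
    (((J - 1 - (r - 2)).choose (p - (r - 2)) : ℕ) : ℝ) ^ 2 ≤
      (((J - 1).choose p : ℕ) : ℝ) * ((((J - 1 - 2 * (r - 2)).choose (J - 1 - p) : ℕ) : ℝ) +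
        (1 / 10 ^ 12) * (((J - 1).choose p : ℕ) : ℝ)) := by
  obtain ⟨h1, h2, h3, h4, h5, h6⟩ := S.num
  have hr := S.hr
  have hJ := S.Jpos
  have hk0 : (0 : ℝ) < k0 := by linarith
  have hs0 : (0 : ℝ) < ((r - 2 : ℕ) : ℝ) := by exact_mod_cast (show 0 < r - 2 by omega)
  have h10 : 10 ^ 4 * k0 ≤ 10 ^ 8 * k0 := Nat.mul_le_mul_right _ (by norm_num)
  have hsr : ((r - 2 : ℕ) : ℝ) ≤ (r : ℝ) - 1 := by
    rw [Nat.cast_sub (by omega)]; push_cast; linarith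
  have hsJ : 4 * 10 ^ 8 * ((r - 2 : ℕ) : ℝ) ≤ J := by
    have e1 : ((10 ^ 8 * (r - 1) * 4 : ℕ) : ℝ) ≤ J := by exact_mod_cast h6
    rw [Nat.cast_mul, Nat.cast_mul, Nat.cast_sub (by omega)] at e1
    push_cast at e1
    linarith
  have hpJ : (999 / 1000 : ℝ) * J ≤ (p : ℝ) := by
    have e1 : (J : ℝ) ≤ p + 10 ^ 4 * k0 := by exact_mod_cast hp
    have e2 : (10 : ℝ) ^ 8 * k0 * 2 ≤ J := by exact_mod_cast h5
    linarith
  have hpJ' : (p : ℝ) ≤ ((J - 1 : ℕ) : ℝ) := by exact_mod_cast (show p ≤ J - 1 by omega)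
  have hJ1 : ((J - 1 : ℕ) : ℝ) = J - 1 := by rw [Nat.cast_sub (by omega)]; push_cast; ring
  have hJbig : (10 : ℝ) ^ 8 ≤ J := by nlinarith
  have h := c_sq (N := J - 1) (p := p) (s := r - 2) (by omega) (by omega)
    (y := 1 / (10 ^ 12 * ((r - 2 : ℕ) : ℝ))) (by positivity) (by
      intro i hi
      rw [div_mul_eq_mul_div, le_div_iff₀ (by positivity), one_mul]
      have hi' : (i : ℝ) ≤ ((r - 2 : ℕ) : ℝ) := by exact_mod_cast hi.le
      have hi0 : (0 : ℝ) ≤ i := Nat.cast_nonneg _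
      have e1 : 99 / 100 * J ≤ (p : ℝ) - i := by linarith
      have e2 : 99 / 100 * J ≤ ((J - 1 : ℕ) : ℝ) - ((r - 2 : ℕ) : ℝ) - i := by
        rw [hJ1]; linarith
      have e3 : (99 / 100 * J) * (99 / 100 * J) ≤
          ((p : ℝ) - i) * (((J - 1 : ℕ) : ℝ) - ((r - 2 : ℕ) : ℝ) - i) :=
        mul_le_mul e1 e2 (by positivity) (by linarith)
      have e4 : ((r - 2 : ℕ) : ℝ) * (((J - 1 : ℕ) : ℝ) - p) ≤ 1 / 10 ^ 4 * J := by
        have e5 : (J : ℝ) ≤ p + 10 ^ 4 * k0 := by exact_mod_cast hp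
        have e6 : ((r - 2 : ℕ) : ℝ) * (((J - 1 : ℕ) : ℝ) - p) ≤ ((r : ℝ) - 1) * (10 ^ 4 * k0) :=
          mul_le_mul hsr (by rw [hJ1]; linarith) (by linarith) (by linarith)
        linarith
      have e7 : ((r - 2 : ℕ) : ℝ) * (((J - 1 : ℕ) : ℝ) - p) * ((r - 2 : ℕ) : ℝ) ≤
          (1 / 10 ^ 4 * J) * (1 / (4 * 10 ^ 8) * J) :=
        mul_le_mul e4 (by linarith) hs0.le (by positivity)
      nlinarith)
  have e8 : ((r - 2 : ℕ) : ℝ) * (1 / (10 ^ 12 * ((r - 2 : ℕ) : ℝ))) = 1 / 10 ^ 12 := by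
    field_simp
  rw [e8] at h
  exact h

/-- **the contradiction** -/
theorem Setup.false (S : Setup T r J k0) : False := by
  obtain ⟨h1, h2, h3, h4, h5, h6⟩ := S.num
  have hr := S.hr
  have hk := S.hk0
  have hJ := S.Jpos
  have hmm := S.mpos
  have hb := S.bpos
  have hnp := S.npos
  have hR : 0 < (r : ℝ) - 1 := by linarith
  have hk0 : (0 : ℝ) < k0 := by linarith
  have h10 : 10 ^ 4 * k0 ≤ 10 ^ 8 * k0 := Nat.mul_le_mul_right _ (by norm_num)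
  have hmJ := S.mJ
  have hN : (0 : ℝ) < ((I T J).card : ℝ) := by exact_mod_cast card_pos.2 S.hJ
  -- the two levels
  obtain ⟨p, hp1, hp2, M, hM0, hM1, hM2⟩ := S.level (lo := J - 10 ^ 4 * k0) (by omega) (by omega)
  obtain ⟨p', hp1', hp2', M', hM0', hM1', hM2'⟩ := S.level (lo := J - 3 * k0) (by omega) (by omega)
  set NJ : ℝ := ((I T J).card : ℝ) * J with hNJ
  have hNJ0 : 0 < NJ := mul_pos hN hJ
  set μ := mm T r J with hμ
  -- the mean degree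
  have hs0 := sg_nonneg (T := T) (J := J) S.hT J
  have hs1 := S.hs1
  rw [← hmJ] at hs1
  obtain ⟨m, hm⟩ : ∃ m : ℝ, m = (((r : ℝ) - 1) * bb T J J - sg T r J J) / J := ⟨_, rfl⟩
  have hmJ2 : m * J = ((r : ℝ) - 1) * bb T J J - sg T r J J := by
    rw [hm]; exact div_mul_cancel₀ _ hJ.ne'
  have hmle : m ≤ μ := by
    have : m * J ≤ μ * J := by rw [hmJ2, hmJ]; linarith
    exact le_of_mul_le_mul_right this hJ
  have hmge : μ * (1 - 64 / 10 ^ 48) ≤ m := by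
    have : (μ * (1 - 64 / 10 ^ 48)) * J ≤ m * J := by rw [hmJ2, ← hmJ]; linarith
    exact le_of_mul_le_mul_right this hJ
  have hm0 : 0 < m := lt_of_lt_of_le (by positivity) hmge
  have hsumD : ∑ A ∈ I T J, ∑ a ∈ A, ((D T A a).card : ℝ) = NJ * m := by
    rw [sum_D_total (r := r) S.hJ, ← hmJ2, hNJ]; ring
  -- deviations of the degrees
  obtain ⟨e, he⟩ : ∃ e : ℝ, e = ∑ A ∈ I T J, ∑ a ∈ A, max 0 (m - ((D T A a).card : ℝ)) := ⟨_, rfl⟩
  have he' : ∑ A ∈ I T J, ∑ a ∈ A, max 0 (((D T A a).card : ℝ) - m) = e := by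
    have h7 : ∑ A ∈ I T J, ∑ a ∈ A, max 0 (((D T A a).card : ℝ) - m) =
        ∑ A ∈ I T J, ∑ a ∈ A, ((D T A a).card : ℝ) - ∑ A ∈ I T J, ∑ _a ∈ A, m +
        ∑ A ∈ I T J, ∑ a ∈ A, max 0 (m - ((D T A a).card : ℝ)) := by
      rw [← sum_sub_distrib, ← sum_add_distrib]
      refine sum_congr rfl fun A _ => ?_
      rw [← sum_sub_distrib, ← sum_add_distrib]
      refine sum_congr rfl fun a _ => ?_
      rcases le_total ((D T A a).card : ℝ) m with h | h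
      · rw [max_eq_left (by linarith), max_eq_right (by linarith)]; ring
      · rw [max_eq_right (by linarith), max_eq_left (by linarith)]; ring
    rw [h7, hsumD, sum_pairs_const, ← hNJ, ← he]; ring
  have he0 : 0 ≤ e := by
    rw [he]; exact sum_nonneg fun _ _ => sum_nonneg fun _ _ => le_max_left _ _
  have hele : e ≤ NJ * (13 / 10 ^ 8 * μ) := by
    have c0 : (0 : ℝ) < (((J - 1).choose p' : ℕ) : ℝ) := by
      exact_mod_cast Nat.choose_pos (show p' ≤ J - 1 by omega)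
    have d1 := low_D (T := T) (J := J) (p := p') M'
    have d2 : ∑ A ∈ I T J, ∑ a ∈ A, max 0 (M' - ((D T A a).card : ℝ)) ≤ NJ * (2 / 10 ^ 8 * μ) := by
      have d3 := d1.trans hM2'
      have d4 : (((J - 1).choose p' : ℕ) : ℝ) *
          ∑ A ∈ I T J, ∑ a ∈ A, max 0 (M' - ((D T A a).card : ℝ)) ≤
          (((J - 1).choose p' : ℕ) : ℝ) * (NJ * (2 / 10 ^ 8 * μ)) := by linarith
      exact le_of_mul_le_mul_left d4 c0
    have d5 : max 0 (m - M') ≤ 11 / 10 ^ 8 * μ := by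
      have d6 : ((J : ℝ) - p') * ((r : ℝ) - 1) / J ≤ 3 / 10 ^ 8 := by
        rw [div_le_iff₀ hJ]
        have d7 : (J : ℝ) ≤ p' + 3 * k0 := by exact_mod_cast (show J ≤ p' + 3 * k0 by omega)
        have d8 : ((J : ℝ) - p') * ((r : ℝ) - 1) ≤ (3 * k0) * ((r : ℝ) - 1) :=
          mul_le_mul_of_nonneg_right (by linarith) hR.le
        linarith
      have d9 : μ * (1 - 11 / 10 ^ 8) ≤ M' := by
        refine le_trans (mul_le_mul_of_nonneg_left ?_ hmm.le) hM1'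
        linarith
      exact max_le (by positivity) (by linarith)
    have d10 : e ≤ ∑ A ∈ I T J, ∑ a ∈ A, max 0 (M' - ((D T A a).card : ℝ)) +
        ∑ A ∈ I T J, ∑ _a ∈ A, max 0 (m - M') := by
      rw [he, ← sum_add_distrib]
      refine sum_le_sum fun A _ => ?_
      rw [← sum_add_distrib]
      refine sum_le_sum fun a _ => ?_
      have x1 := le_max_left 0 (M' - ((D T A a).card : ℝ))
      have x2 := le_max_right 0 (M' - ((D T A a).card : ℝ))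
      have x3 := le_max_left 0 (m - M')
      have x4 := le_max_right 0 (m - M')
      exact max_le (by linarith) (by linarith)
    rw [sum_pairs_const, ← hNJ] at d10
    have d11 := mul_le_mul_of_nonneg_left d5 hNJ0.le
    linarith
  -- the light inequality at the far level
  obtain ⟨m0, hm0d⟩ : ∃ m0 : ℝ, m0 = min M m := ⟨_, rfl⟩
  have hm00 : 0 ≤ m0 := by rw [hm0d]; exact le_min hM0 hm0.le
  have hm0m : m0 ≤ m := by rw [hm0d]; exact min_le_right _ _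
  have hm0M : m0 ≤ M := by rw [hm0d]; exact min_le_left _ _
  have hpp : J ≤ p + 10 ^ 4 * k0 := by omega
  have hpJ1 : p < J - 1 := by omega
  have hlight := light (T := T) (J := J) S.hT (p := p) (by omega) hpJ1 hm00 hm0m
    (g := 1 / 10 ^ 12) (by positivity) (S.hC hpp (by omega))
  rw [he', ← hNJ] at hlight
  obtain ⟨Gd, hGd⟩ : ∃ Gd : ℝ, Gd = ∑ A ∈ I T J, ∑ a ∈ A, gd T m A a := ⟨_, rfl⟩
  rw [← hGd] at hlight
  have hGd0 : 0 ≤ Gd := by
    rw [hGd]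
    refine sum_nonneg fun A _ => sum_nonneg fun a _ => ?_
    unfold gd
    split_ifs
    · exact sum_nonneg fun _ _ => sq_nonneg _
    · exact le_rfl
  have hC2 := c2_lower (N := J - 1) (p := p) (s := r - 2) (by omega) (by omega)
  set C0 : ℝ := (((J - 1).choose p : ℕ) : ℝ) with hC0
  set C2 : ℝ := (((J - 1 - 2 * (r - 2)).choose (J - 1 - p) : ℕ) : ℝ) with hC2d
  have hC00 : 0 < C0 := by rw [hC0]; exact_mod_cast Nat.choose_pos (show p ≤ J - 1 by omega)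
  have hJ1c : ((J - 1 : ℕ) : ℝ) = J - 1 := by rw [Nat.cast_sub (by omega)]; push_cast; ring
  have hpJr : (999 / 1000 : ℝ) * J ≤ (p : ℝ) := by
    have e1 : (J : ℝ) ≤ p + 10 ^ 4 * k0 := by exact_mod_cast hpp
    have e2 : (10 : ℝ) ^ 8 * k0 * 2 ≤ J := by exact_mod_cast h5
    linarith
  have hC2b : C0 * (1 / 2) ≤ C2 := by
    refine le_trans (mul_le_mul_of_nonneg_left ?_ hC00.le) hC2
    have e1 : (((J - 1 : ℕ) : ℝ) - p) * (2 * ((r - 2 : ℕ) : ℝ)) / ((p : ℝ) + 1) ≤ 1 / 2 := by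
      rw [div_le_iff₀ (by positivity)]
      have e2 : (J : ℝ) ≤ p + 10 ^ 4 * k0 := by exact_mod_cast hpp
      have e3 : 2 * ((r - 2 : ℕ) : ℝ) ≤ 2 * ((r : ℝ) - 1) := by
        rw [Nat.cast_sub (by omega)]; push_cast; linarith
      have e4 : (((J - 1 : ℕ) : ℝ) - p) * (2 * ((r - 2 : ℕ) : ℝ)) ≤
          (10 ^ 4 * k0) * (2 * ((r : ℝ) - 1)) :=
        mul_le_mul (by rw [hJ1c]; linarith) e3 (by positivity) (by positivity)
      linarith
    linarith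
  -- the fraction of deleted elements
  have hfrac : 9999 * k0 / (2 * 10 ^ 8 * (((r : ℝ) - 1) * k0)) ≤
      (((J - 1 - p : ℕ) : ℝ) / ((J - 1 : ℕ) : ℝ)) := by
    have e1 : (9999 : ℝ) * k0 ≤ ((J - 1 - p : ℕ) : ℝ) := by
      exact_mod_cast (show 9999 * k0 ≤ J - 1 - p by omega)
    have e2 : (0 : ℝ) < ((J - 1 : ℕ) : ℝ) := by
      exact_mod_cast (show 0 < J - 1 by omega)
    have e3 : ((J - 1 : ℕ) : ℝ) ≤ 2 * 10 ^ 8 * (((r : ℝ) - 1) * k0) := by rw [hJ1c]; linarith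
    exact div_le_div₀ (Nat.cast_nonneg _) e1 e2 e3
  have hfrac2 : (9999 : ℝ) * k0 / (2 * 10 ^ 8 * (((r : ℝ) - 1) * k0)) =
      9999 / (2 * 10 ^ 8) / ((r : ℝ) - 1) := by
    field_simp
  rw [hfrac2] at hfrac
  set kk : ℝ := (((J - 1 - p : ℕ) : ℝ) / ((J - 1 : ℕ) : ℝ)) with hkk
  have hleft : C0 * (1 / 2) * (9999 / (2 * 10 ^ 8) / ((r : ℝ) - 1) * Gd) ≤ C2 * (kk * Gd) := by
    refine mul_le_mul hC2b (mul_le_mul_of_nonneg_right hfrac hGd0) (by positivity) (by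
      exact le_trans (by positivity) hC2b)
  -- the right side
  have hsumY : ∑ A ∈ I T J, ∑ a ∈ A, ∑ C ∈ powersetCard p (A.erase a),
      max 0 (m0 - ((Y T A a C).card : ℝ)) ≤ (NJ * C0) * (2 / 10 ^ 8 * μ) := by
    refine le_trans (sum_le_sum fun A _ => sum_le_sum fun a _ => sum_le_sum fun C _ => ?_) hM2
    exact max_le_max le_rfl (by linarith)
  have hmm0 : m - m0 ≤ 4 / 10 ^ 4 * μ := by
    have d6 : ((J : ℝ) - p) * ((r : ℝ) - 1) / J ≤ 1 / 10 ^ 4 := by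
      rw [div_le_iff₀ hJ]
      have d7 : (J : ℝ) ≤ p + 10 ^ 4 * k0 := by exact_mod_cast hpp
      have d8 : ((J : ℝ) - p) * ((r : ℝ) - 1) ≤ (10 ^ 4 * k0) * ((r : ℝ) - 1) :=
        mul_le_mul_of_nonneg_right (by linarith) hR.le
      linarith
    have d9 : μ * (1 - 4 / 10 ^ 4) ≤ M := by
      refine le_trans (mul_le_mul_of_nonneg_left ?_ hmm.le) hM1
      linarith
    rw [hm0d]
    rcases le_total M m with h | h
    · rw [min_eq_left h]; linarith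
    · rw [min_eq_right h, sub_self]; positivity
  have hright : m0 * (∑ A ∈ I T J, ∑ a ∈ A, ∑ C ∈ powersetCard p (A.erase a),
      max 0 (m0 - ((Y T A a C).card : ℝ))) +
      C0 * (4 * m * e + NJ * (2 * (m - m0) ^ 2 + 4 * (1 / 10 ^ 12) * m ^ 2)) ≤
      C0 * (NJ * (87 / 10 ^ 8 * μ ^ 2)) := by
    have r1 : m0 * (∑ A ∈ I T J, ∑ a ∈ A, ∑ C ∈ powersetCard p (A.erase a),
      max 0 (m0 - ((Y T A a C).card : ℝ))) ≤ μ * ((NJ * C0) * (2 / 10 ^ 8 * μ)) :=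
      mul_le_mul (hm0m.trans hmle) hsumY (sum_nonneg fun _ _ => sum_nonneg fun _ _ =>
        sum_nonneg fun _ _ => le_max_left _ _) hmm.le
    have r2 : m * e ≤ μ * (NJ * (13 / 10 ^ 8 * μ)) := mul_le_mul hmle hele he0 hmm.le
    have r3 : (m - m0) ^ 2 ≤ (4 / 10 ^ 4 * μ) ^ 2 :=
      pow_le_pow_left₀ (by linarith) hmm0 2
    have r4 : m ^ 2 ≤ μ ^ 2 := pow_le_pow_left₀ hm0.le hmle 2
    have r5 : NJ * (2 * (m - m0) ^ 2 + 4 * (1 / 10 ^ 12) * m ^ 2) ≤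
        NJ * (2 * (4 / 10 ^ 4 * μ) ^ 2 + 4 * (1 / 10 ^ 12) * μ ^ 2) := by
      refine mul_le_mul_of_nonneg_left ?_ hNJ0.le
      linarith
    have r6 : C0 * (NJ * (2 * (m - m0) ^ 2 + 4 * (1 / 10 ^ 12) * m ^ 2)) ≤
        C0 * (NJ * (2 * (4 / 10 ^ 4 * μ) ^ 2 + 4 * (1 / 10 ^ 12) * μ ^ 2)) :=
      mul_le_mul_of_nonneg_left r5 hC00.le
    have r9 : C0 * (4 * m * e + NJ * (2 * (m - m0) ^ 2 + 4 * (1 / 10 ^ 12) * m ^ 2)) =
        4 * C0 * (m * e) + C0 * (NJ * (2 * (m - m0) ^ 2 + 4 * (1 / 10 ^ 12) * m ^ 2)) := by ring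
    rw [r9]
    have r7 : 0 < C0 * (NJ * μ ^ 2) := by positivity
    have r8 := mul_le_mul_of_nonneg_left r2 (show 0 ≤ 4 * C0 by positivity)
    linarith
  have hGdle : Gd ≤ (35 / 1000) * (((r : ℝ) - 1) * (NJ * μ ^ 2)) := by
    have s1 := (hleft.trans hlight).trans hright
    have s2 : C0 * ((9999 / (4 * 10 ^ 8)) * Gd) ≤
        C0 * (((r : ℝ) - 1) * (NJ * (87 / 10 ^ 8 * μ ^ 2))) := by
      have s3 := mul_le_mul_of_nonneg_left s1 hR.le
      have s4 : ((r : ℝ) - 1) * (C0 * (1 / 2) * (9999 / (2 * 10 ^ 8) / ((r : ℝ) - 1) * Gd)) =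
          C0 * ((9999 / (4 * 10 ^ 8)) * Gd) := by
        field_simp
        ring
      rw [s4] at s3
      linarith
    have s5 := le_of_mul_le_mul_left s2 hC00
    have s6 : 0 < ((r : ℝ) - 1) * (NJ * μ ^ 2) := by positivity
    linarith
  -- the star inequality
  have hstar := star (show 2 ≤ r by omega) S.hT J hm0.le
  rw [hsumD, ← he, he', ← hGd] at hstar
  have q1 : ∑ A ∈ I T J, sig T r A ≤ NJ * (64 / 10 ^ 48 * μ) := by
    have e1 : sg T r J J * ((I T J).card : ℝ) = ∑ A ∈ I T J, sig T r A := by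
      rw [sg, av_top, div_mul_cancel₀ _ hN.ne']
    rw [← e1, hNJ]
    have := mul_le_mul_of_nonneg_right hs1 hN.le
    linarith
  have q2 : ((r : ℝ) - 1) * ∑ A ∈ I T (J + 1), sig T r A ≤ 214 / 10 ^ 48 * (NJ * μ ^ 2) := by
    have hN1 : (0 : ℝ) < ((I T (J + 1)).card : ℝ) := by exact_mod_cast card_pos.2 S.hJ1
    have e1 : sg T r (J + 1) (J + 1) * ((I T (J + 1)).card : ℝ) = ∑ A ∈ I T (J + 1), sig T r A := by
      rw [sg, av_top, div_mul_cancel₀ _ hN1.ne']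
    have hs2 := S.hs2
    rw [← hmJ] at hs2
    have e2 := vv_top_mul S.hJ
    have e3 : vv T J J ≤ Fintype.card V := by
      have x1 := vv_add_bb S.hJ (i := J) le_rfl
      linarith
    have e4 : (J : ℝ) * ((I T (J + 1)).card : ℝ) ≤ Fintype.card V * ((I T J).card : ℝ) := by
      have x1 := mul_le_mul_of_nonneg_right e3 hN.le
      rw [e2] at x1
      linarith
    have e5 : (Fintype.card V : ℝ) ≤ 10 / 3 * bb T J J := by linarith [S.hb1]
    have e6 : ((r : ℝ) - 1) * (J * ((I T (J + 1)).card : ℝ)) ≤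
        10 / 3 * (μ * J) * ((I T J).card : ℝ) := by
      have x1 := mul_le_mul_of_nonneg_left e4 hR.le
      have x2 : ((r : ℝ) - 1) * (Fintype.card V * ((I T J).card : ℝ)) ≤
          ((r : ℝ) - 1) * ((10 / 3 * bb T J J) * ((I T J).card : ℝ)) :=
        mul_le_mul_of_nonneg_left (mul_le_mul_of_nonneg_right e5 hN.le) hR.le
      rw [hmJ]
      linarith
    rw [← e1]
    have e7 : ((r : ℝ) - 1) * (sg T r (J + 1) (J + 1) * ((I T (J + 1)).card : ℝ)) ≤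
        ((r : ℝ) - 1) * ((64 / 10 ^ 48 * (μ * J)) * ((I T (J + 1)).card : ℝ)) :=
      mul_le_mul_of_nonneg_left (mul_le_mul_of_nonneg_right hs2 hN1.le) hR.le
    have e8 : (64 / 10 ^ 48 * μ) * (((r : ℝ) - 1) * (J * ((I T (J + 1)).card : ℝ))) ≤
        (64 / 10 ^ 48 * μ) * (10 / 3 * (μ * J) * ((I T J).card : ℝ)) :=
      mul_le_mul_of_nonneg_left e6 (by positivity)
    have e9 : 0 < NJ * μ ^ 2 := by positivity
    rw [hNJ] at e9 ⊢
    linarith
  -- conclusion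
  have hr2 : 0 ≤ (r : ℝ) - 2 := by linarith
  have hr2' : ((r : ℝ) - 1) * (1 / 2) ≤ (r : ℝ) - 2 := by linarith
  have hr2'' : (r : ℝ) - 2 ≤ (r : ℝ) - 1 := by linarith
  have Z : 0 < ((r : ℝ) - 1) * (NJ * μ ^ 2) := by positivity
  have z1 : (((r : ℝ) - 1) * (1 / 2)) * (NJ * (998 / 1000 * μ ^ 2)) ≤
      ((r : ℝ) - 2) * (NJ * m ^ 2) := by
    refine mul_le_mul hr2' (mul_le_mul_of_nonneg_left ?_ hNJ0.le) (by positivity) hr2
    have y1 : (999 / 1000 * μ) ^ 2 ≤ m ^ 2 := pow_le_pow_left₀ (by positivity) (by linarith) 2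
    have y3 : 0 ≤ μ ^ 2 := sq_nonneg μ
    linarith
  have z2 : ((r : ℝ) - 2) * (m * e) ≤ ((r : ℝ) - 1) * (μ * (NJ * (13 / 10 ^ 8 * μ))) :=
    mul_le_mul hr2'' (mul_le_mul hmle hele he0 hmm.le) (by positivity) hR.le
  have z3 : m * ∑ A ∈ I T J, sig T r A ≤ μ * (NJ * (64 / 10 ^ 48 * μ)) :=
    mul_le_mul hmle q1 (sum_nonneg fun A hA => sig_nonneg S.hT (mem_I.1 hA).2) hmm.le
  have z4 := mul_le_mul_of_nonneg_left z3 hR.le
  have z5 := mul_le_mul_of_nonneg_left q2 hR.le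
  linarith

end Pool.Agent.J4.H84.TU
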