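import Pool.Agent.J4.H84.TU.Select
import Pool.Agent.H120R2.CliqueDefs

/-! # The Turán function and the Turán density -/

set_option autoImplicit false

open Finset Filter Topology

namespace Pool.Agent.J4.H84.TU

open Pool.Agent.H120R2.Clique

theorem exists_extremal {n r m : ℕ} (hrm : r ≤ m) :
    ∃ G : Finset (Finset (Fin n)), (∀ A ∈ G, A.card = r) ∧ ¬ HasClique G r m ∧
      G.card = ex n r m := by
  classical
  have hnon : ((((univ : Finset (Fin n)).powersetCard r).powerset).filter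
      (fun G => ¬ HasClique G r m)).Nonempty := by
    refine ⟨∅, ?_⟩
    rw [mem_filter, mem_powerset]
    refine ⟨empty_subset _, ?_⟩
    rintro ⟨A, hA, hAs⟩
    have h1 := card_le_card hAs
    rw [card_powersetCard, hA, card_empty] at h1
    have := Nat.choose_pos hrm
    omega
  obtain ⟨H, hH, he⟩ := Finset.exists_mem_eq_sup _ hnon Finset.card
  rw [mem_filter, mem_powerset] at hH
  refine ⟨H, fun A hA => (mem_powersetCard.mp (hH.1 hA)).2, hH.2, ?_⟩
  unfold ex
  rw [he]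

/-- the comparison for a family without independent `m`-sets -/
theorem cover_bound {V : Type*} [Fintype V] [DecidableEq V] {T : Finset (Finset V)} {r m : ℕ}
    (hr : 3 ≤ r) (hT : ∀ e ∈ T, e.card = r) (hind : ∀ A : Finset V, A.card = m → ¬ ind T A)
    (hm : 3 * 10 ^ 9 * r ≤ m) (hn : 10 ^ 11 * m ≤ Fintype.card V) :
    (1 + 1 / 10 ^ 48) * ((Fintype.card V : ℝ) - m + 1) * (((Fintype.card V).choose (r - 1) : ℕ) : ℝ) ≤
      ((((m - 1).choose (r - 1) : ℕ)) : ℝ) * (r * (T.card : ℝ)) := by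
  classical
  -- the largest independent sets
  have hIm : I T m = ∅ := by
    rw [eq_empty_iff_forall_notMem]
    intro A hA
    exact hind A (mem_I.1 hA).1 (mem_I.1 hA).2
  have hIr : (I T (r - 1)).Nonempty := by
    obtain ⟨A, -, hA⟩ := exists_subset_card_eq (s := (univ : Finset V)) (n := r - 1)
      (by rw [card_univ]; omega)
    refine ⟨A, mem_I.2 ⟨hA, fun e he heA => ?_⟩⟩
    have := card_le_card heA
    rw [hT e he] at this; omega
  have h1 : (I T (r - 1)).Nonempty := hIr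
  obtain ⟨j, hjd⟩ : ∃ j, j = Nat.findGreatest (fun i => (I T i).Nonempty) (m - 1) := ⟨_, rfl⟩
  have hjI : (I T j).Nonempty := by
    rw [hjd]
    exact Nat.findGreatest_spec (P := fun i => (I T i).Nonempty) (m := r - 1) (by omega) h1
  have hrj : r - 1 ≤ j := by
    rw [hjd]
    exact Nat.le_findGreatest (P := fun i => (I T i).Nonempty) (m := r - 1) (by omega) h1
  have hjm : j ≤ m - 1 := by
    rw [hjd]; exact Nat.findGreatest_le _
  have hj1 : I T (j + 1) = ∅ := by
    rcases hjm.lt_or_eq with h | h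
    · have h2 := Nat.findGreatest_is_greatest (P := fun i => (I T i).Nonempty) (n := m - 1)
        (k := j + 1) (by rw [← hjd]; omega) (by omega)
      exact not_nonempty_iff_eq_empty.1 h2
    · rw [h, show m - 1 + 1 = m by omega]; exact hIm
  obtain ⟨n, hnd⟩ : ∃ n : ℝ, n = (Fintype.card V : ℝ) := ⟨_, rfl⟩
  have hGj : (0 : ℝ) < ((j.choose (r - 1) : ℕ) : ℝ) := by exact_mod_cast Nat.choose_pos hrj
  have hBj : BB T r j * ((j.choose (r - 1) : ℕ) : ℝ) = n - j := by
    unfold BB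
    rw [div_mul_cancel₀ _ hGj.ne', bb_last hjI hj1, hnd]
  have hBr : BB T r (r - 1) * (((Fintype.card V).choose (r - 1) : ℕ) : ℝ) = r * (T.card : ℝ) := by
    unfold BB
    rw [Nat.choose_self, Nat.cast_one, div_one]
    exact bb_base (by omega) hT
  have hBr0 : 0 ≤ BB T r (r - 1) := by
    unfold BB
    exact div_nonneg (bb_nonneg _) (Nat.cast_nonneg _)
  have hnm : 10 ^ 11 * (m : ℝ) ≤ n := by rw [hnd]; exact_mod_cast hn
  have hm0 : (0 : ℝ) < m := by exact_mod_cast (show 0 < m by omega)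
  have hjm' : (j : ℝ) ≤ m - 1 := by
    have : ((j + 1 : ℕ) : ℝ) ≤ m := by exact_mod_cast (show j + 1 ≤ m by omega)
    push_cast at this; linarith
  have key : (1 + 1 / 10 ^ 48) * (n - m + 1) ≤
      BB T r (r - 1) * (((m - 1).choose (r - 1) : ℕ) : ℝ) := by
    by_cases hc : m - 1 ≤ 2 * j
    · have h2 := finite_main hr hT hjI hj1 (by omega) (by omega)
      have h3 : ((j.choose (r - 1) : ℕ) : ℝ) ≤ (((m - 1).choose (r - 1) : ℕ) : ℝ) := by
        exact_mod_cast Nat.choose_le_choose _ hjm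
      have h4 : (1 + 1 / 10 ^ 48) * (n - j) ≤ BB T r (r - 1) * ((j.choose (r - 1) : ℕ) : ℝ) := by
        rw [← hBj]
        have := mul_le_mul_of_nonneg_right h2.le hGj.le
        linarith
      have h5 := mul_le_mul_of_nonneg_left h3 hBr0
      have h6 : (1 + 1 / 10 ^ 48) * (n - m + 1) ≤ (1 + 1 / 10 ^ 48) * (n - j) :=
        mul_le_mul_of_nonneg_left (by linarith) (by norm_num)
      linarith
    · have h2 : BB T r j ≤ BB T r (r - 1) := BB_anti (by omega) hT le_rfl hrj hjI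
      have h3 : 2 * ((j.choose (r - 1) : ℕ) : ℝ) ≤ (((m - 1).choose (r - 1) : ℕ) : ℝ) := by
        have e1 := choose_superadd (r - 1) j j (by omega)
        have e2 : (j + j).choose (r - 1) ≤ (m - 1).choose (r - 1) :=
          Nat.choose_le_choose _ (by omega)
        exact_mod_cast (show 2 * j.choose (r - 1) ≤ (m - 1).choose (r - 1) by omega)
      have h4 := mul_le_mul_of_nonneg_right h2 hGj.le
      rw [hBj] at h4
      have h5 := mul_le_mul_of_nonneg_left h3 hBr0
      linarith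
  have hc0 : (0 : ℝ) ≤ (((Fintype.card V).choose (r - 1) : ℕ) : ℝ) := Nat.cast_nonneg _
  have h7 := mul_le_mul_of_nonneg_right key hc0
  rw [← hnd, ← hBr]
  linarith

/-- **the improvement of de Caen's bound, finite form** -/
theorem finite_turan {r m n : ℕ} (hr : 3 ≤ r) (hm : 3 * 10 ^ 9 * r ≤ m) (hn : 10 ^ 11 * m ≤ n) :
    (1 + 1 / 10 ^ 48) * ((n : ℝ) - m + 1) * ((n.choose r : ℕ) : ℝ) ≤
      ((n : ℝ) - r + 1) * ((((m - 1).choose (r - 1) : ℕ)) : ℝ) *
        (((n.choose r : ℕ) : ℝ) - (ex n r m : ℝ)) := by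
  classical
  obtain ⟨G, hG1, hG2, hG3⟩ := exists_extremal (n := n) (r := r) (m := m) (by omega)
  set T : Finset (Finset (Fin n)) := (powersetCard r univ) \ G with hTd
  have hT : ∀ e ∈ T, e.card = r := fun e he => (mem_powersetCard.1 (mem_sdiff.1 he).1).2
  have hind : ∀ A : Finset (Fin n), A.card = m → ¬ ind T A := by
    intro A hA hi
    refine hG2 ⟨A, hA, fun e he => ?_⟩
    by_contra hne
    have he' := mem_powersetCard.1 he
    exact hi e (mem_sdiff.2 ⟨mem_powersetCard.2 ⟨subset_univ _, he'.2⟩, hne⟩) he'.1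
  have h := cover_bound hr hT hind hm (by rw [Fintype.card_fin]; exact hn)
  rw [Fintype.card_fin] at h
  have hTc : (T.card : ℝ) = ((n.choose r : ℕ) : ℝ) - (ex n r m : ℝ) := by
    have h1 : G ⊆ powersetCard r univ := fun e he => mem_powersetCard.2 ⟨subset_univ _, hG1 e he⟩
    rw [hTd, cast_card_sdiff h1, card_powersetCard, card_univ, Fintype.card_fin, hG3]
  rw [← hTc]
  have h2 := Nat.choose_succ_right_eq n (r - 1)
  rw [show r - 1 + 1 = r by omega] at h2
  have h3 : ((n.choose r : ℕ) : ℝ) * r = ((n.choose (r - 1) : ℕ) : ℝ) * ((n : ℝ) - r + 1) := by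
    have h4 : ((n.choose r * r : ℕ) : ℝ) = ((n.choose (r - 1) * (n - (r - 1)) : ℕ) : ℝ) := by rw [h2]
    rw [Nat.cast_mul, Nat.cast_mul, Nat.cast_sub (by omega), Nat.cast_sub (by omega)] at h4
    push_cast at h4
    rw [h4]; ring
  have hr0 : (0 : ℝ) < r := by exact_mod_cast (show 0 < r by omega)
  have hnr : (0 : ℝ) ≤ (n : ℝ) - r + 1 := by
    have : (r : ℝ) ≤ n := by exact_mod_cast (show r ≤ n by omega)
    linarith
  have h5 := mul_le_mul_of_nonneg_right h hnr
  have h6 : ((1 + 1 / 10 ^ 48) * ((n : ℝ) - m + 1) * ((n.choose r : ℕ) : ℝ)) * r ≤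
      (((n : ℝ) - r + 1) * ((((m - 1).choose (r - 1) : ℕ)) : ℝ) * (T.card : ℝ)) * r := by
    have e1 : ((1 + 1 / 10 ^ 48) * ((n : ℝ) - m + 1) * ((n.choose r : ℕ) : ℝ)) * r =
        (1 + 1 / 10 ^ 48) * ((n : ℝ) - m + 1) * (((n.choose r : ℕ) : ℝ) * r) := by ring
    rw [e1, h3]
    linarith
  exact le_of_mul_le_mul_right h6 hr0

/-- **the improvement of de Caen's bound, density form** -/
theorem density {r m : ℕ} (hr : 3 ≤ r) (hm : 3 * 10 ^ 9 * r ≤ m) :
    turanDensity r m ≤ 1 - (1 + 1 / 10 ^ 48) / ((((m - 1).choose (r - 1) : ℕ)) : ℝ) := by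
  have hC : (0 : ℝ) < ((((m - 1).choose (r - 1) : ℕ)) : ℝ) := by
    exact_mod_cast Nat.choose_pos (show r - 1 ≤ m - 1 by omega)
  have h1 : Tendsto (fun n : ℕ => 1 - (ex n r m : ℝ) / (n.choose r : ℝ)) atTop
      (𝓝 (1 - turanDensity r m)) := (ratio_tendsto r m).const_sub 1
  have h2 : Tendsto (fun n : ℕ => (1 + 1 / 10 ^ 48) / ((((m - 1).choose (r - 1) : ℕ)) : ℝ) *
      (1 - ((m : ℝ) - r) / ((n : ℝ) + (1 - r)))) atTop
      (𝓝 ((1 + 1 / 10 ^ 48) / ((((m - 1).choose (r - 1) : ℕ)) : ℝ) * (1 - 0))) := by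
    refine Tendsto.const_mul _ (Tendsto.const_sub 1 ?_)
    refine Tendsto.div_atTop tendsto_const_nhds ?_
    exact tendsto_atTop_add_const_right _ _ tendsto_natCast_atTop_atTop
  rw [sub_zero, mul_one] at h2
  have h3 : (1 + 1 / 10 ^ 48) / ((((m - 1).choose (r - 1) : ℕ)) : ℝ) ≤ 1 - turanDensity r m := by
    refine le_of_tendsto_of_tendsto h2 h1 ?_
    filter_upwards [eventually_ge_atTop (10 ^ 11 * m)] with n hn
    have h4 := finite_turan hr hm hn
    have hrn : (r : ℝ) ≤ n := by exact_mod_cast (show r ≤ n by omega)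
    have hx : (0 : ℝ) < (n : ℝ) - r + 1 := by linarith
    have hCn : (0 : ℝ) < ((n.choose r : ℕ) : ℝ) := by
      exact_mod_cast Nat.choose_pos (show r ≤ n by omega)
    have e1 : (1 - ((m : ℝ) - r) / ((n : ℝ) + (1 - r))) = ((n : ℝ) - m + 1) / ((n : ℝ) - r + 1) := by
      rw [show (n : ℝ) + (1 - r) = (n : ℝ) - r + 1 by ring, eq_div_iff hx.ne', sub_mul,
        div_mul_cancel₀ _ hx.ne']
      ring
    have e2 : 1 - (ex n r m : ℝ) / (n.choose r : ℝ) =
        (((n.choose r : ℕ) : ℝ) - (ex n r m : ℝ)) / ((n.choose r : ℕ) : ℝ) := by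
      rw [sub_div, div_self hCn.ne']
    rw [e1, e2, div_mul_div_comm, div_le_div_iff₀ (by positivity) hCn]
    linarith
  linarith

end Pool.Agent.J4.H84.TU
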