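import Pool.Agent.J4.H84.TU.Ent

/-! # The hazards are nearly constant -/

set_option autoImplicit false

open Finset

namespace Pool.Agent.J4.H84.TU

variable {V : Type*} [Fintype V] [DecidableEq V] {T : Finset (Finset V)} {J : ℕ}

/-- weight of the class -/
noncomputable def H (T : Finset (Finset V)) (J : ℕ) (C : Finset V) (y : V) : ℝ :=
  ∑ a ∈ cls T C y, w T J (insert a C)

/-- weight of the supersets of size `q` which leave `y` free -/
noncomputable def S (T : Finset (Finset V)) (J q : ℕ) (C : Finset V) (y : V) : ℝ :=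
  ∑ C' ∈ (I T q).filter (fun C' => C ⊆ C' ∧ y ∈ U T C'), w T J C'

theorem card_sub {C' : Finset V} {p q : ℕ} (hC' : C' ∈ I T q) :
    ((I T p).filter fun C => C ⊆ C').card = q.choose p := by
  rw [← (mem_I.1 hC').1, ← card_powersetCard]
  congr 1
  ext C
  rw [mem_filter, mem_I, mem_powersetCard]
  constructor
  · rintro ⟨⟨h1, -⟩, h2⟩; exact ⟨h2, h1⟩
  · rintro ⟨h2, h1⟩; exact ⟨⟨h1, ind_mono h2 (mem_I.1 hC').2⟩, h2⟩

theorem sum_swap (T : Finset (Finset V)) (p q : ℕ) (F : Finset V → V → ℝ) :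
    ∑ C ∈ I T p, ∑ y ∈ U T C, ∑ C' ∈ (I T q).filter (fun C' => C ⊆ C' ∧ y ∈ U T C'), F C' y =
      (q.choose p : ℕ) * ∑ C' ∈ I T q, ∑ y ∈ U T C', F C' y := by
  have h1 : ∀ C ∈ I T p, ∑ y ∈ U T C, ∑ C' ∈ (I T q).filter (fun C' => C ⊆ C' ∧ y ∈ U T C'), F C' y
      = ∑ C' ∈ (I T q).filter (fun C' => C ⊆ C'), ∑ y ∈ U T C', F C' y := by
    intro C _
    rw [Finset.sum_comm' (t' := (I T q).filter (fun C' => C ⊆ C')) (s' := fun C' => U T C')]
    intro y C'
    simp only [mem_filter]
    constructor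
    · rintro ⟨h1, h2, h3, h4⟩; exact ⟨h4, h2, h3⟩
    · rintro ⟨h4, h2, h3⟩; exact ⟨U_anti h3 h4, h2, h3, h4⟩
  rw [sum_congr rfl h1]
  rw [Finset.sum_comm' (t' := I T q) (s' := fun C' => (I T p).filter fun C => C ⊆ C')]
  · rw [mul_sum]
    refine sum_congr rfl fun C' hC' => ?_
    rw [sum_const, nsmul_eq_mul, card_sub hC']
  · intro C C'
    simp only [mem_filter]
    tauto

theorem W_mul_choose {p q : ℕ} (hpq : p ≤ q) (hqJ : q ≤ J) :
    W T J q * (q.choose p : ℕ) = W T J p * ((J - p).choose (q - p) : ℕ) := by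
  rw [W_eq, W_eq]
  have h := Nat.choose_mul (n := J) (k := q) (s := p) hpq
  have h2 : ((J.choose q : ℕ) : ℝ) * (q.choose p : ℕ) =
      (J.choose p : ℕ) * ((J - p).choose (q - p) : ℕ) := by exact_mod_cast h
  rw [mul_assoc, h2]; ring

/-- (Q) : the survival probabilities are nearly constant -/
theorem surv (hJ : (I T J).Nonempty) {p q : ℕ} (hpq : p < q) (hqJ : q < J) :
    ∑ C ∈ I T p, ∑ y ∈ U T C, |S T J q C y / ((J - p).choose (q - p) : ℕ) -
      vv T J q / vv T J p * w T J C| ≤
      W T J p * (vv T J q * (2 * √(kap T J p) + 2 * √(kap T J q))) := by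
  have hWp := W_pos hJ (i := p) (by omega)
  have hWq := W_pos hJ (i := q) (by omega)
  have hvp : 0 < vv T J p := lt_of_lt_of_le one_pos (vv_pos hJ (by omega))
  have hvq : 0 < vv T J q := lt_of_lt_of_le one_pos (vv_pos hJ (by omega))
  have hJp : (0 : ℝ) < (J : ℝ) - p := by
    have : (p : ℝ) < J := by exact_mod_cast (show p < J by omega)
    linarith
  have hJq : (0 : ℝ) < (J : ℝ) - q := by
    have : (q : ℝ) < J := by exact_mod_cast (show q < J by omega)
    linarith
  set Ch : ℝ := (((J - p).choose (q - p) : ℕ) : ℝ) with hCh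
  have hChpos : 0 < Ch := by rw [hCh]; exact_mod_cast Nat.choose_pos (by omega)
  have hCh1 : (((J - 1 - p).choose (q - p) : ℕ) : ℝ) = Ch * ((J : ℝ) - q) / ((J : ℝ) - p) := by
    rw [eq_div_iff hJp.ne', hCh]
    have h2 := Nat.choose_mul_succ_eq (J - 1 - p) (q - p)
    have e1 : (J - 1 - p) + 1 = J - p := by omega
    rw [e1] at h2
    have h3 : (((J - 1 - p).choose (q - p) * (J - p) : ℕ) : ℝ) =
        (((J - p).choose (q - p) * (J - p - (q - p)) : ℕ) : ℝ) := by rw [h2]
    rw [Nat.cast_mul, Nat.cast_mul, Nat.cast_sub (show p ≤ J by omega)] at h3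
    rw [h3]
    congr 1
    rw [Nat.cast_sub (by omega), Nat.cast_sub (by omega), Nat.cast_sub (by omega)]
    ring
  have hkp := (kap_dev hJ (show p < J by omega)).2
  have hkq := (kap_dev hJ hqJ).2
  -- first comparison
  have hA : ∑ C ∈ I T p, ∑ y ∈ U T C,
      |vv T J q * w T J (insert y C) / ((J : ℝ) - p) - S T J q C y / Ch| ≤
      W T J p * (vv T J q * (2 * √(kap T J q))) := by
    have h1 : ∀ C ∈ I T p, ∀ y ∈ U T C,
        |vv T J q * w T J (insert y C) / ((J : ℝ) - p) - S T J q C y / Ch| ≤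
        (vv T J q / (Ch * ((J : ℝ) - q))) *
          ∑ C' ∈ (I T q).filter (fun C' => C ⊆ C' ∧ y ∈ U T C'),
            |w T J (insert y C') - ((J : ℝ) - q) * w T J C' / vv T J q| := by
      intro C hC y hy
      have hCc := (mem_I.1 hC).1
      have h2 := sum_w_sup_insert T J C (q := q) (by omega) (y := y) (mem_U.1 hy).1
      rw [hCc, hCh1] at h2
      have h3 : ∑ C' ∈ (I T q).filter (fun C' => C ⊆ C' ∧ y ∉ C'), w T J (insert y C') =
          ∑ C' ∈ (I T q).filter (fun C' => C ⊆ C' ∧ y ∈ U T C'), w T J (insert y C') := by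
        symm
        refine sum_subset ?_ ?_
        · intro C' h
          rw [mem_filter] at h ⊢
          exact ⟨h.1, h.2.1, (mem_U.1 h.2.2).1⟩
        · intro C' h h'
          rw [mem_filter] at h h'
          refine w_eq_zero fun hind => h' ⟨h.1, h.2.1, mem_U.2 ⟨h.2.2, hind⟩⟩
      rw [h3] at h2
      have h4 : vv T J q * w T J (insert y C) / ((J : ℝ) - p) - S T J q C y / Ch =
          (vv T J q / (Ch * ((J : ℝ) - q))) *
          ∑ C' ∈ (I T q).filter (fun C' => C ⊆ C' ∧ y ∈ U T C'),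
            (w T J (insert y C') - ((J : ℝ) - q) * w T J C' / vv T J q) := by
        rw [sum_sub_distrib, h2, ← sum_div, ← mul_sum]
        have e : ∑ C' ∈ (I T q).filter (fun C' => C ⊆ C' ∧ y ∈ U T C'), w T J C' = S T J q C y := rfl
        rw [e]
        field_simp
      rw [h4, abs_mul, abs_of_nonneg (a := vv T J q / (Ch * ((J : ℝ) - q))) (by positivity)]
      exact mul_le_mul_of_nonneg_left (abs_sum_le_sum_abs _ _) (by positivity)
    refine (sum_le_sum fun C hC => sum_le_sum fun y hy => h1 C hC y hy).trans ?_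
    simp_rw [← mul_sum]
    rw [sum_swap T p q (fun C' y => |w T J (insert y C') - ((J : ℝ) - q) * w T J C' / vv T J q|)]
    have e2 : ∑ C' ∈ I T q, ∑ y ∈ U T C',
        |w T J (insert y C') - ((J : ℝ) - q) * w T J C' / vv T J q| = dev T J q := rfl
    rw [e2]
    have h5 := W_mul_choose (T := T) (J := J) hpq.le hqJ.le
    rw [← hCh] at h5
    calc vv T J q / (Ch * ((J : ℝ) - q)) * ((q.choose p : ℕ) * dev T J q)
        ≤ vv T J q / (Ch * ((J : ℝ) - q)) * ((q.choose p : ℕ) *
          (2 * (((J : ℝ) - q) * W T J q) * √(kap T J q))) := by gcongr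
      _ = vv T J q / Ch * (W T J q * (q.choose p : ℕ)) * (2 * √(kap T J q)) := by
          field_simp
      _ = W T J p * (vv T J q * (2 * √(kap T J q))) := by rw [h5]; field_simp
  have hB : ∑ C ∈ I T p, ∑ y ∈ U T C,
      |vv T J q * w T J (insert y C) / ((J : ℝ) - p) - vv T J q / vv T J p * w T J C| ≤
      W T J p * (vv T J q * (2 * √(kap T J p))) := by
    have h1 : ∀ C ∈ I T p, ∀ y ∈ U T C,
        |vv T J q * w T J (insert y C) / ((J : ℝ) - p) - vv T J q / vv T J p * w T J C| =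
        (vv T J q / ((J : ℝ) - p)) *
            |w T J (insert y C) - ((J : ℝ) - p) * w T J C / vv T J p| := by
      intro C _ y _
      have hc : 0 ≤ vv T J q / ((J : ℝ) - p) := by positivity
      have e9 : vv T J q * w T J (insert y C) / ((J : ℝ) - p) - vv T J q / vv T J p * w T J C =
          (vv T J q / ((J : ℝ) - p)) * (w T J (insert y C) - ((J : ℝ) - p) * w T J C / vv T J p) := by
        field_simp
      rw [e9, abs_mul, abs_of_nonneg hc]
    rw [sum_congr rfl fun C hC => sum_congr rfl fun y hy => h1 C hC y hy]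
    simp_rw [← mul_sum]
    have e2 : ∑ C' ∈ I T p, ∑ y ∈ U T C',
        |w T J (insert y C') - ((J : ℝ) - p) * w T J C' / vv T J p| = dev T J p := rfl
    rw [e2]
    calc vv T J q / ((J : ℝ) - p) * dev T J p
        ≤ vv T J q / ((J : ℝ) - p) * (2 * (((J : ℝ) - p) * W T J p) * √(kap T J p)) := by gcongr
      _ = W T J p * (vv T J q * (2 * √(kap T J p))) := by field_simp
  have hfin : ∑ C ∈ I T p, ∑ y ∈ U T C, |S T J q C y / Ch - vv T J q / vv T J p * w T J C| ≤
      ∑ C ∈ I T p, ∑ y ∈ U T C,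
      (|vv T J q * w T J (insert y C) / ((J : ℝ) - p) - S T J q C y / Ch| +
      |vv T J q * w T J (insert y C) / ((J : ℝ) - p) - vv T J q / vv T J p * w T J C|) := by
    refine sum_le_sum fun C _ => sum_le_sum fun y _ => ?_
    have := abs_sub_le (S T J q C y / Ch) (vv T J q * w T J (insert y C) / ((J : ℝ) - p))
      (vv T J q / vv T J p * w T J C)
    rwa [abs_sub_comm (S T J q C y / Ch) (vv T J q * w T J (insert y C) / ((J : ℝ) - p))] at this
  simp_rw [sum_add_distrib] at hfin
  refine hfin.trans ((add_le_add hA hB).trans (le_of_eq ?_))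
  ring

/-- the mean class size -/
theorem sum_H_one (hJ : (I T J).Nonempty) {p : ℕ} (hp : p < J) :
    ∑ C ∈ I T p, ∑ a ∈ U T C, w T J (insert a C) * ((cls T C a).card : ℝ) =
      (((J : ℝ) - p) * W T J p) * (vv T J p - vv T J (p + 1)) := by
  have h2 : ∑ C ∈ I T p, ∑ a ∈ U T C, w T J (insert a C) * ((cls T C a).card : ℝ) =
      ∑ C ∈ I T p, ∑ a ∈ U T C, (w T J (insert a C) * ((U T C).card : ℝ) -
        w T J (insert a C) * ((U T (insert a C)).card : ℝ)) := by
    refine sum_congr rfl fun C _ => sum_congr rfl fun a ha => ?_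
    have := card_U_insert ha
    have h4 : ((U T (insert a C)).card : ℝ) + (cls T C a).card = (U T C).card := by
      exact_mod_cast this
    rw [← mul_sub]
    congr 1
    linarith
  rw [h2]
  simp_rw [sum_sub_distrib]
  rw [mul_sub]
  congr 1
  · have e1 : (((J : ℝ) - p) * W T J p) * vv T J p = ((J : ℝ) - p) * (vv T J p * W T J p) := by ring
    rw [e1, vv, av_mul_W hJ hp.le, mul_sum]
    refine sum_congr rfl fun C hC => ?_
    rw [← sum_mul, sum_w_insert (by rw [(mem_I.1 hC).1]; exact hp.le), (mem_I.1 hC).1]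
    ring
  · rw [sum_pairs T p (fun C y => w T J (insert y C) * ((U T (insert y C)).card : ℝ)), W_succ hp.le]
    have e1 : (((p : ℝ) + 1) * W T J (p + 1)) * vv T J (p + 1) =
        ((p : ℝ) + 1) * (vv T J (p + 1) * W T J (p + 1)) := by ring
    rw [e1, vv, av_mul_W hJ (Nat.succ_le_of_lt hp), mul_sum]
    refine sum_congr rfl fun A hA => ?_
    rw [sum_congr rfl (fun a ha => by rw [insert_erase ha]), sum_const, nsmul_eq_mul,
      (mem_I.1 hA).1]
    push_cast; ring

/-- transposition of the class relation -/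
theorem sum_H (C : Finset V) : ∑ y ∈ U T C, H T J C y =
    ∑ a ∈ U T C, w T J (insert a C) * ((cls T C a).card : ℝ) := by
  unfold H
  rw [Finset.sum_comm' (t' := U T C) (s' := fun a => cls T C a)]
  · refine sum_congr rfl fun a _ => ?_
    rw [sum_const, nsmul_eq_mul, mul_comm]
  · intro y a
    constructor
    · rintro ⟨h1, h2⟩
      exact ⟨cls_symm h1 h2, cls_subset_U _ _ h2⟩
    · rintro ⟨h1, h2⟩
      exact ⟨cls_subset_U _ _ h1, cls_symm h2 h1⟩

end Pool.Agent.J4.H84.TU
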