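import Pool.Agent.J4.H84.TU.Haz

/-! # The hazards are nearly constant: conclusion -/

set_option autoImplicit false

open Finset

namespace Pool.Agent.J4.H84.TU

variable {V : Type*} [Fintype V] [DecidableEq V] {T : Finset (Finset V)} {J : ℕ}

/-- weight of the pairs in a class -/
noncomputable def H2 (T : Finset (Finset V)) (J : ℕ) (C : Finset V) (y : V) : ℝ :=
  ∑ a ∈ cls T C y, ∑ b ∈ (cls T C y).erase a, w T J (insert b (insert a C))

theorem choose_one {m k : ℕ} (hk : 1 ≤ k) (hkm : k ≤ m) :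
    (((m - 1).choose (k - 1) : ℕ) : ℝ) = ((m.choose k : ℕ) : ℝ) * k / m := by
  obtain ⟨k, rfl⟩ : ∃ k', k = k' + 1 := ⟨k - 1, by omega⟩
  obtain ⟨m, rfl⟩ : ∃ m', m = m' + 1 := ⟨m - 1, by omega⟩
  rw [eq_div_iff (by positivity)]
  have h := Nat.add_one_mul_choose_eq m k
  simp only [Nat.add_sub_cancel]
  have h2 : (((m + 1) * m.choose k : ℕ) : ℝ) = (((m + 1).choose (k + 1) * (k + 1) : ℕ) : ℝ) := by
    rw [h]
  push_cast at h2 ⊢
  linarith

theorem hazard_pt {p q : ℕ} (hpq : p + 2 ≤ q) (hqJ : q < J) {C : Finset V} (hC : C ∈ I T p)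
    {y : V} (hy : y ∈ U T C) :
    ((q : ℝ) - p) * H T J C y / ((J : ℝ) - p) ≤
      (w T J C - S T J q C y / ((J - p).choose (q - p) : ℕ)) +
      ((q : ℝ) - p) * ((q : ℝ) - p - 1) / (2 * ((J : ℝ) - p) * ((J : ℝ) - p - 1)) * H2 T J C y := by
  have hCc := (mem_I.1 hC).1
  set Ch : ℝ := (((J - p).choose (q - p) : ℕ) : ℝ) with hCh
  have hChpos : 0 < Ch := by rw [hCh]; exact_mod_cast Nat.choose_pos (by omega)
  have hJp : (2 : ℝ) < (J : ℝ) - p := by
    have : ((p + 2 : ℕ) : ℝ) < J := by exact_mod_cast (show p + 2 < J by omega)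
    push_cast at this; linarith
  have hqp : (2 : ℝ) ≤ (q : ℝ) - p := by
    have : ((p + 2 : ℕ) : ℝ) ≤ q := by exact_mod_cast hpq
    push_cast at this; linarith
  have c1 : (((J - (p + 1)).choose (q - (p + 1)) : ℕ) : ℝ) = Ch * ((q : ℝ) - p) / ((J : ℝ) - p) := by
    have h := choose_one (m := J - p) (k := q - p) (by omega) (by omega)
    rw [show J - (p + 1) = J - p - 1 by omega, show q - (p + 1) = q - p - 1 by omega, h, hCh,
      Nat.cast_sub (show p ≤ q by omega), Nat.cast_sub (show p ≤ J by omega)]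
  have c2 : (((J - (p + 2)).choose (q - (p + 2)) : ℕ) : ℝ) =
      Ch * ((q : ℝ) - p) * ((q : ℝ) - p - 1) / (((J : ℝ) - p) * ((J : ℝ) - p - 1)) := by
    have h := choose_one (m := J - (p + 1)) (k := q - (p + 1)) (by omega) (by omega)
    rw [show J - (p + 2) = J - (p + 1) - 1 by omega, show q - (p + 2) = q - (p + 1) - 1 by omega, h,
      c1, Nat.cast_sub (show p + 1 ≤ q by omega), Nat.cast_sub (show p + 1 ≤ J by omega)]
    push_cast
    have e1 : (J : ℝ) - (p + 1) = (J : ℝ) - p - 1 := by ring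
    have e2 : (q : ℝ) - (p + 1) = (q : ℝ) - p - 1 := by ring
    rw [e1, e2]
    have h3 : (J : ℝ) - p ≠ 0 := by linarith
    have h4 : (J : ℝ) - p - 1 ≠ 0 := by linarith
    field_simp
  set F := (I T q).filter (fun C' => C ⊆ C') with hF
  -- total
  have t0 : ∑ C' ∈ F, w T J C' = w T J C * Ch := by
    have := sum_w_sup T J C (q := q) (by omega)
    rw [hCc] at this; exact this
  have t1 : ∑ C' ∈ F, w T J C' * (((cls T C y).filter fun a => a ∈ C').card : ℝ) =
      H T J C y * (Ch * ((q : ℝ) - p) / ((J : ℝ) - p)) := by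
    have h1 : ∀ C' ∈ F, w T J C' * (((cls T C y).filter fun a => a ∈ C').card : ℝ) =
        ∑ a ∈ cls T C y, if a ∈ C' then w T J C' else 0 := by
      intro C' _
      rw [← Finset.sum_filter, sum_const, nsmul_eq_mul, mul_comm]
    rw [sum_congr rfl h1, sum_comm, H, sum_mul]
    refine sum_congr rfl fun a ha => ?_
    rw [← Finset.sum_filter, hF, filter_filter]
    have haC : a ∉ C := (mem_U.1 (cls_subset_U _ _ ha)).1
    have hc : (insert a C).card = p + 1 := by rw [card_insert_of_notMem haC, hCc]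
    have h2 := sum_w_sup T J (insert a C) (q := q) (by omega)
    rw [hc, c1] at h2
    rw [← h2]
    refine sum_congr (filter_congr fun C' _ => ?_) fun _ _ => rfl
    rw [insert_subset_iff]; tauto
  have t2 : ∑ C' ∈ F, w T J C' * ((((cls T C y).filter fun a => a ∈ C').card : ℝ) *
      ((((cls T C y).filter fun a => a ∈ C').card : ℝ) - 1)) =
      H2 T J C y * (Ch * ((q : ℝ) - p) * ((q : ℝ) - p - 1) / (((J : ℝ) - p) * ((J : ℝ) - p - 1))) := by
    have h1 : ∀ C' ∈ F, w T J C' * ((((cls T C y).filter fun a => a ∈ C').card : ℝ) *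
        ((((cls T C y).filter fun a => a ∈ C').card : ℝ) - 1)) =
        ∑ a ∈ cls T C y, ∑ b ∈ (cls T C y).erase a,
          if a ∈ C' ∧ b ∈ C' then w T J C' else 0 := by
      intro C' _
      have h2 : ∀ a ∈ cls T C y, (∑ b ∈ (cls T C y).erase a,
          if a ∈ C' ∧ b ∈ C' then w T J C' else 0) =
          if a ∈ C' then w T J C' * ((((cls T C y).filter fun a => a ∈ C').card : ℝ) - 1) else 0 := by
        intro a ha
        split_ifs with haC'
        · simp only [haC', true_and]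
          rw [← Finset.sum_filter, sum_const, nsmul_eq_mul, mul_comm]
          congr 1
          have : ((cls T C y).erase a).filter (fun b => b ∈ C') =
              ((cls T C y).filter fun b => b ∈ C').erase a := by
            ext b; simp only [mem_filter, mem_erase]; tauto
          rw [this, card_erase_of_mem (mem_filter.2 ⟨ha, haC'⟩), Nat.cast_sub, Nat.cast_one]
          exact card_pos.2 ⟨a, mem_filter.2 ⟨ha, haC'⟩⟩
        · simp [haC']
      rw [sum_congr rfl h2, ← Finset.sum_filter, sum_const, nsmul_eq_mul]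
      ring
    rw [sum_congr rfl h1, sum_comm, H2, sum_mul]
    refine sum_congr rfl fun a ha => ?_
    rw [sum_comm, sum_mul]
    refine sum_congr rfl fun b hb => ?_
    rw [← Finset.sum_filter, hF, filter_filter]
    have haC : a ∉ C := (mem_U.1 (cls_subset_U _ _ ha)).1
    have hbC : b ∉ C := (mem_U.1 (cls_subset_U _ _ (mem_of_mem_erase hb))).1
    have hba : b ≠ a := (mem_erase.1 hb).1
    have hc : (insert b (insert a C)).card = p + 2 := by
      rw [card_insert_of_notMem (by rw [mem_insert, not_or]; exact ⟨hba, hbC⟩),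
        card_insert_of_notMem haC, hCc]
    have h2 := sum_w_sup T J (insert b (insert a C)) (q := q) (by omega)
    rw [hc, c2] at h2
    rw [← h2]
    refine sum_congr (filter_congr fun C' _ => ?_) fun _ _ => rfl
    rw [insert_subset_iff, insert_subset_iff]; tauto
  have t3 : ∑ C' ∈ F, w T J C' * (if y ∈ U T C' then (0 : ℝ) else 1) = w T J C * Ch - S T J q C y := by
    have h1 : S T J q C y = ∑ C' ∈ F, if y ∈ U T C' then w T J C' else 0 := by
      rw [← Finset.sum_filter, hF, filter_filter]; rfl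
    rw [h1, ← t0, ← sum_sub_distrib]
    refine sum_congr rfl fun C' _ => ?_
    split_ifs <;> simp
  have key : ∑ C' ∈ F, w T J C' * (((cls T C y).filter fun a => a ∈ C').card : ℝ) ≤
      ∑ C' ∈ F, w T J C' * (if y ∈ U T C' then (0 : ℝ) else 1) + (1 / 2) *
      ∑ C' ∈ F, w T J C' * ((((cls T C y).filter fun a => a ∈ C').card : ℝ) *
      ((((cls T C y).filter fun a => a ∈ C').card : ℝ) - 1)) := by
    rw [mul_sum, ← sum_add_distrib]
    refine sum_le_sum fun C' hC' => ?_
    have hCC' : C ⊆ C' := (mem_filter.1 hC').2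
    have h1 : (((cls T C y).filter fun a => a ∈ C').card : ℝ) ≤ (if y ∈ U T C' then (0 : ℝ) else 1) +
        (1 / 2) * ((((cls T C y).filter fun a => a ∈ C').card : ℝ) *
        ((((cls T C y).filter fun a => a ∈ C').card : ℝ) - 1)) := by
      rcases Nat.eq_zero_or_pos ((cls T C y).filter fun a => a ∈ C').card with h0 | h0
      · rw [h0]; split_ifs <;> norm_num
      · have hne : y ∉ U T C' := by
          intro hyU
          obtain ⟨a, ha⟩ := card_pos.1 h0
          rw [mem_filter, mem_cls] at ha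
          obtain ⟨⟨ha1, ha2⟩, ha3⟩ := ha
          rw [mem_U] at hyU
          rcases ha2 with h | h
          · exact hyU.1 (h ▸ ha3)
          · refine h (ind_mono ?_ hyU.2)
            exact insert_subset_insert _ (insert_subset ha3 hCC')
        rw [if_neg hne]
        set X := ((cls T C y).filter fun a => a ∈ C').card with hX
        have h2 : (X : ℝ) = 1 ∨ 2 ≤ (X : ℝ) := by
          rcases Nat.lt_or_ge 1 X with h | h
          · right; exact_mod_cast h
          · left
            have : X = 1 := by omega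
            rw [this, Nat.cast_one]
        rcases h2 with h2 | h2
        · rw [h2]; norm_num
        · nlinarith
    have h2 := mul_le_mul_of_nonneg_left h1 (w_nonneg (T := T) (J := J) C')
    linarith
  rw [t1, t2, t3] at key
  have h3 : (0 : ℝ) < (J : ℝ) - p := by linarith
  have h4 : (0 : ℝ) < (J : ℝ) - p - 1 := by linarith
  have h5 := div_le_div_of_nonneg_right key hChpos.le
  calc ((q : ℝ) - p) * H T J C y / ((J : ℝ) - p)
      = H T J C y * (Ch * ((q : ℝ) - p) / ((J : ℝ) - p)) / Ch := by field_simp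
    _ ≤ (w T J C * Ch - S T J q C y + 1 / 2 * (H2 T J C y *
        (Ch * ((q : ℝ) - p) * ((q : ℝ) - p - 1) / (((J : ℝ) - p) * ((J : ℝ) - p - 1))))) / Ch := h5
    _ = _ := by field_simp

/-- the total weight of the pairs in a class -/
theorem sum_H2 {r : ℕ} (hT : ∀ e ∈ T, e.card = r) (hJ : (I T J).Nonempty) {p : ℕ} (hp : p + 2 ≤ J) :
    ∑ C ∈ I T p, ∑ y ∈ U T C, H2 T J C y ≤
      2 * ((r : ℝ) - 1) * (sg T r J (p + 2) * W T J (p + 2)) := by
  have h1 : ∀ C ∈ I T p, ∑ y ∈ U T C, H2 T J C y =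
      ∑ a ∈ U T C, ∑ b ∈ U T (insert a C),
        w T J (insert b (insert a C)) * ((cls T C a ∩ cls T C b).card : ℝ) := by
    intro C _
    unfold H2
    rw [Finset.sum_comm' (t' := U T C) (s' := fun a => cls T C a)]
    swap
    · intro y a
      constructor
      · rintro ⟨h1, h2⟩
        exact ⟨cls_symm h1 h2, cls_subset_U _ _ h2⟩
      · rintro ⟨h1, h2⟩
        exact ⟨cls_subset_U _ _ h1, cls_symm h2 h1⟩
    refine sum_congr rfl fun a ha => ?_
    have h2 : ∀ y ∈ cls T C a, ∑ b ∈ (cls T C y).erase a, w T J (insert b (insert a C)) =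
        ∑ b ∈ U T (insert a C), if b ∈ cls T C y then w T J (insert b (insert a C)) else 0 := by
      intro y _
      rw [← Finset.sum_filter]
      symm
      refine sum_subset ?_ ?_
      · intro b hb
        rw [mem_filter] at hb
        refine mem_erase.2 ⟨fun h => (mem_U.1 hb.1).1 (h ▸ mem_insert_self _ _), hb.2⟩
      · intro b hb hb'
        rw [mem_erase] at hb
        refine w_eq_zero fun hind => hb' (mem_filter.2 ⟨mem_U.2 ⟨?_, hind⟩, hb.2⟩)
        rw [mem_insert, not_or]
        exact ⟨hb.1, (mem_U.1 (cls_subset_U _ _ hb.2)).1⟩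
    rw [sum_congr rfl h2, sum_comm]
    refine sum_congr rfl fun b hb => ?_
    rw [← Finset.sum_filter, sum_const, nsmul_eq_mul, mul_comm]
    congr 2
    congr 1
    ext y
    rw [mem_filter, mem_inter]
    have hbU : b ∈ U T C := U_anti (subset_insert _ _) hb
    constructor
    · rintro ⟨h1, h2⟩
      exact ⟨h1, cls_symm (cls_subset_U _ _ h1) h2⟩
    · rintro ⟨h1, h2⟩
      exact ⟨h1, cls_symm hbU h2⟩
  rw [sum_congr rfl h1]
  rw [sum_pairs T p (fun C a => ∑ b ∈ U T (insert a C),
        w T J (insert b (insert a C)) * ((cls T C a ∩ cls T C b).card : ℝ))]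
  have h3 : ∑ A ∈ I T (p + 1), ∑ a ∈ A, ∑ b ∈ U T (insert a (A.erase a)),
      w T J (insert b (insert a (A.erase a))) *
        ((cls T (A.erase a) a ∩ cls T (A.erase a) b).card : ℝ) =
      ∑ A ∈ I T (p + 1), ∑ b ∈ U T A, ∑ a ∈ A,
      w T J (insert b A) * ((cls T (A.erase a) a ∩ cls T (A.erase a) b).card : ℝ) := by
    refine sum_congr rfl fun A _ => ?_
    rw [sum_comm]
    refine sum_congr rfl fun a ha => ?_
    rw [insert_erase ha]
  rw [h3, sum_pairs T (p + 1) (fun A b => ∑ a ∈ A,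
      w T J (insert b A) * ((cls T (A.erase a) a ∩ cls T (A.erase a) b).card : ℝ)),
    sg, av_mul_W hJ hp, mul_sum]
  refine sum_le_sum fun A hA => ?_
  have hA' : A ∈ I T (p + 2) := hA
  have h4 : ∑ b ∈ A, ∑ a ∈ A.erase b, w T J (insert b (A.erase b)) *
      ((cls T ((A.erase b).erase a) a ∩ cls T ((A.erase b).erase a) b).card : ℝ) =
      w T J A * ∑ b ∈ A, ∑ a ∈ A.erase b,
      ((cls T ((A.erase b).erase a) b ∩ cls T ((A.erase b).erase a) a).card : ℝ) := by
    rw [mul_sum]
    refine sum_congr rfl fun b hb => ?_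
    rw [mul_sum]
    refine sum_congr rfl fun a _ => ?_
    rw [insert_erase hb, inter_comm]
  rw [h4]
  have h5 := mul_le_mul_of_nonneg_left (sum_inter hT (mem_I.1 hA').2) (w_nonneg (T := T) (J := J) A)
  linarith

/-- **the hazards are nearly constant** -/
theorem hazard {r : ℕ} (hT : ∀ e ∈ T, e.card = r) (hJ : (I T J).Nonempty) {p q : ℕ}
    (hpq : p + 2 ≤ q) (hqJ : q < J) :
    ∑ C ∈ I T p, ∑ y ∈ U T C, |((q : ℝ) - p) * H T J C y / ((J : ℝ) - p) -
      (1 - vv T J q / vv T J p) * w T J C| ≤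
    W T J p * ((vv T J p - vv T J q) - ((q : ℝ) - p) * (vv T J p - vv T J (p + 1)) +
      2 * (((q : ℝ) - p) * ((q : ℝ) - p - 1) * (((r : ℝ) - 1) * sg T r J (p + 2)) /
        (((p : ℝ) + 1) * ((p : ℝ) + 2))) +
      vv T J q * (2 * √(kap T J p) + 2 * √(kap T J q))) := by
  have hWp := W_pos hJ (i := p) (by omega)
  have hvp : 0 < vv T J p := lt_of_lt_of_le one_pos (vv_pos hJ (by omega))
  have hJp : (2 : ℝ) < (J : ℝ) - p := by
    have : ((p + 2 : ℕ) : ℝ) < J := by exact_mod_cast (show p + 2 < J by omega)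
    push_cast at this; linarith
  have hqp : (2 : ℝ) ≤ (q : ℝ) - p := by
    have : ((p + 2 : ℕ) : ℝ) ≤ q := by exact_mod_cast hpq
    push_cast at this; linarith
  set Ch : ℝ := (((J - p).choose (q - p) : ℕ) : ℝ) with hCh
  have hChpos : 0 < Ch := by rw [hCh]; exact_mod_cast Nat.choose_pos (by omega)
  set κ : ℝ := ((q : ℝ) - p) * ((q : ℝ) - p - 1) / (2 * ((J : ℝ) - p) * ((J : ℝ) - p - 1)) with hκ
  have h4 : (0 : ℝ) < (J : ℝ) - p - 1 := by linarith
  have hκ0 : 0 ≤ κ := by
    rw [hκ]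
    have : (0 : ℝ) ≤ (q : ℝ) - p - 1 := by linarith
    positivity
  have hsurv := surv hJ (show p < q by omega) hqJ
  rw [← hCh] at hsurv
  have e1 : ∑ C ∈ I T p, ∑ y ∈ U T C, ((q : ℝ) - p) * H T J C y / ((J : ℝ) - p) =
      ((q : ℝ) - p) * (W T J p * (vv T J p - vv T J (p + 1))) := by
    have h1 := sum_H_one hJ (show p < J by omega)
    have h2 : ∑ C ∈ I T p, ∑ y ∈ U T C, ((q : ℝ) - p) * H T J C y / ((J : ℝ) - p) =
        (((q : ℝ) - p) / ((J : ℝ) - p)) * ∑ C ∈ I T p, ∑ y ∈ U T C, H T J C y := by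
      simp_rw [mul_sum]
      exact sum_congr rfl fun C _ => sum_congr rfl fun y _ => by ring
    rw [h2, sum_congr rfl fun C _ => sum_H C, h1]
    have : (J : ℝ) - p ≠ 0 := by linarith
    field_simp
  have e2 : ∑ C ∈ I T p, ∑ y ∈ U T C, S T J q C y / Ch = W T J p * vv T J q := by
    have h2 : ∑ C ∈ I T p, ∑ y ∈ U T C, S T J q C y / Ch =
        (∑ C ∈ I T p, ∑ y ∈ U T C, S T J q C y) / Ch := by
      simp_rw [sum_div]
    rw [h2]
    unfold S
    rw [sum_swap T p q (fun C' _ => w T J C')]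
    have h3 : ∑ C' ∈ I T q, ∑ y ∈ U T C', w T J C' = vv T J q * W T J q := by
      rw [vv, av_mul_W hJ hqJ.le]
      exact sum_congr rfl fun C' _ => by rw [sum_const, nsmul_eq_mul, mul_comm]
    rw [h3]
    have h5 := W_mul_choose (T := T) (J := J) (show p ≤ q by omega) hqJ.le
    rw [← hCh] at h5
    calc ((q.choose p : ℕ) : ℝ) * (vv T J q * W T J q) / Ch
        = vv T J q * (W T J q * ((q.choose p : ℕ) : ℝ)) / Ch := by ring
      _ = W T J p * vv T J q := by rw [h5]; field_simp
  have e3 : ∑ C ∈ I T p, ∑ _y ∈ U T C, w T J C = W T J p * vv T J p := by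
    rw [mul_comm, vv, av_mul_W hJ (by omega)]
    exact sum_congr rfl fun C' _ => by rw [sum_const, nsmul_eq_mul, mul_comm]
  have e4 := sum_H2 hT hJ (p := p) (by omega)
  -- pointwise
  have hpt : ∀ C ∈ I T p, ∀ y ∈ U T C,
      |((q : ℝ) - p) * H T J C y / ((J : ℝ) - p) - (1 - vv T J q / vv T J p) * w T J C| ≤
      ((w T J C - S T J q C y / Ch) - ((q : ℝ) - p) * H T J C y / ((J : ℝ) - p)) +
      2 * κ * H2 T J C y + |S T J q C y / Ch - vv T J q / vv T J p * w T J C| := by
    intro C hC y hy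
    have h1 := hazard_pt hpq hqJ hC hy
    rw [← hCh, ← hκ] at h1
    have h2 : 0 ≤ κ * H2 T J C y := mul_nonneg hκ0
      (sum_nonneg fun a _ => sum_nonneg fun b _ => w_nonneg _)
    have h3 : |((q : ℝ) - p) * H T J C y / ((J : ℝ) - p) - (w T J C - S T J q C y / Ch)| ≤
        ((w T J C - S T J q C y / Ch) - ((q : ℝ) - p) * H T J C y / ((J : ℝ) - p)) +
          2 * (κ * H2 T J C y) := by
      rw [abs_le]; constructor <;> linarith
    have h4 := abs_add_le (((q : ℝ) - p) * H T J C y / ((J : ℝ) - p) - (w T J C - S T J q C y / Ch))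
      (-(S T J q C y / Ch - vv T J q / vv T J p * w T J C))
    rw [abs_neg] at h4
    have h5 : ((q : ℝ) - p) * H T J C y / ((J : ℝ) - p) - (w T J C - S T J q C y / Ch) +
      -(S T J q C y / Ch - vv T J q / vv T J p * w T J C) =
      ((q : ℝ) - p) * H T J C y / ((J : ℝ) - p) - (1 - vv T J q / vv T J p) * w T J C := by ring
    rw [h5] at h4
    linarith
  refine (sum_le_sum fun C hC => sum_le_sum fun y hy => hpt C hC y hy).trans ?_
  simp_rw [sum_add_distrib, sum_sub_distrib]
  rw [e1, e2, e3]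
  have e5 : ∑ C ∈ I T p, ∑ y ∈ U T C, 2 * κ * H2 T J C y ≤
      W T J p * (2 * (((q : ℝ) - p) * ((q : ℝ) - p - 1) * (((r : ℝ) - 1) * sg T r J (p + 2)) /
        (((p : ℝ) + 1) * ((p : ℝ) + 2)))) := by
    simp_rw [← mul_sum]
    have h6 : 2 * κ * ∑ C ∈ I T p, ∑ y ∈ U T C, H2 T J C y ≤
        2 * κ * (2 * ((r : ℝ) - 1) * (sg T r J (p + 2) * W T J (p + 2))) :=
      mul_le_mul_of_nonneg_left e4 (by positivity)
    refine h6.trans (le_of_eq ?_)
    have h7 := W_succ (T := T) (J := J) (i := p) (by omega)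
    have h8 := W_succ (T := T) (J := J) (i := p + 1) (by omega)
    push_cast at h8
    have h9 : W T J (p + 2) = ((J : ℝ) - p - 1) * (((J : ℝ) - p) * W T J p) /
        (((p : ℝ) + 1) * ((p : ℝ) + 2)) := by
      rw [eq_div_iff (by positivity), h7]
      have : ((p : ℝ) + 1 + 1) * W T J (p + 1 + 1) = ((p : ℝ) + 2) * W T J (p + 2) := by
        norm_num; left; ring
      rw [this] at h8
      linear_combination -((p : ℝ) + 1) * h8
    rw [h9, hκ]
    have h10 : (J : ℝ) - p ≠ 0 := by linarith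
    field_simp
  linarith [e5, hsurv]

end Pool.Agent.J4.H84.TU
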