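import Pool.Agent.J4.H84.TU.Star2

/-! # Stars: the total inequality -/

set_option autoImplicit false

open Finset

namespace Pool.Agent.J4.H84.TU

variable {V : Type*} [Fintype V] [DecidableEq V] {T : Finset (Finset V)}

theorem min_sub {a b m : ℝ} (ha : 0 ≤ a) (hb : 0 ≤ b) (hm : 0 ≤ m) : min (a + b) m ≤ min a m + min b m := by
  rcases le_total a m with h1 | h1 <;> rcases le_total b m with h2 | h2 <;>
    rcases le_total (a + b) m with h3 | h3 <;> simp [h1, h2, h3] <;> linarith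

theorem star_sum {r : ℕ} (hT : ∀ e ∈ T, e.card = r) (J : ℕ) {m : ℝ} (hm : 0 ≤ m) :
    ∑ A ∈ I T J, ∑ a ∈ A, ∑ b ∈ A.erase a, ((Q T A a b).card : ℝ) * min ((D T A a).card : ℝ) m ≤
      2 * ∑ A ∈ I T J, ∑ a ∈ A, ∑ b ∈ A.erase a,
        ((Q T A a b).card : ℝ) * min ((Q T A a b).card : ℝ) m +
      ∑ A ∈ I T J, ∑ a ∈ A, ∑ b ∈ A.erase a, ((Q T A a b).card : ℝ) *
        min ((((cls T ((A.erase a).erase b) a) ∩ (cls T ((A.erase a).erase b) b)).card : ℝ)) m +
      2 * ((r : ℝ) - 1) ^ 2 * ∑ A ∈ I T (J + 1), sig T r A := by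
  -- rewriting of the sums
  have s1 := sum_hh (T := T) J (fun A a _ _ => min ((D T A a).card : ℝ) m)
  have s2 := sum_hh (T := T) J (fun A a b _ => min ((Q T A a b).card : ℝ) m)
  have s3 := sum_hh (T := T) J (fun A a b _ =>
    min ((((cls T ((A.erase a).erase b) a) ∩ (cls T ((A.erase a).erase b) b)).card : ℝ)) m)
  have s4 := sum_hh (T := T) J (fun A a b z =>
    ((((cls T ((A.erase a).erase b) z) ∩ U T A).card : ℝ)))
  simp only [sum_const, nsmul_eq_mul] at s1 s2 s3
  have t1 := sum_hh_swap (T := T) J (fun C a b _ => min ((D T (insert a (insert b C)) a).card : ℝ) m)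
  have t2 := sum_hh_swap (T := T) J
    (fun C a b _ => min ((Q T (insert a (insert b C)) a b).card : ℝ) m)
  have t3 := sum_hh_rot (T := T) J
    (fun C a b _ => min (((cls T C a) ∩ (cls T C b)).card : ℝ) m)
  have er : ∀ x ∈ hh T J, ((insert x.2.1 (insert x.2.2.1 x.1)).erase x.2.1).erase x.2.2.1 = x.1 := by
    rintro ⟨C, a, b, z⟩ h
    rw [mem_hh] at h
    obtain ⟨h1, h2, h3, h4, h5, h6, h7, h8, h9, h10, h11⟩ := h
    simp only at h1 h2 h3 h4 h5 h6 h7 h8 h9 h10 h11
    have ha : a ∉ insert b C := by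
      rw [mem_insert, not_or]; exact ⟨h5, h2⟩
    simp only
    rw [erase_insert ha, erase_insert h3]
  have s3' : ∑ x ∈ hh T J, min (((cls T x.1 x.2.1) ∩ (cls T x.1 x.2.2.1)).card : ℝ) m =
      ∑ A ∈ I T J, ∑ a ∈ A, ∑ b ∈ A.erase a, ((Q T A a b).card : ℝ) *
        min ((((cls T ((A.erase a).erase b) a) ∩ (cls T ((A.erase a).erase b) b)).card : ℝ)) m := by
    rw [← s3]
    exact sum_congr rfl fun x hx => by rw [er x hx]
  have s4' : ∑ x ∈ hh T J, (((cls T x.1 x.2.2.2) ∩ U T (insert x.2.1 (insert x.2.2.1 x.1))).card : ℝ)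
      = ∑ A ∈ I T J, ∑ a ∈ A, ∑ b ∈ A.erase a, ∑ z ∈ Q T A a b,
      (((cls T ((A.erase a).erase b) z) ∩ U T A).card : ℝ) := by
    rw [← s4]
    exact sum_congr rfl fun x hx => by rw [er x hx]
  have key : ∑ x ∈ hh T J, min ((D T (insert x.2.2.2 (insert x.2.2.1 x.1)) x.2.2.2).card : ℝ) m ≤
      ∑ x ∈ hh T J, (min ((Q T (insert x.2.2.2 (insert x.2.2.1 x.1)) x.2.2.2 x.2.2.1).card : ℝ) m +
        min ((Q T (insert x.2.1 (insert x.2.2.1 x.1)) x.2.1 x.2.2.1).card : ℝ) m +
        min (((cls T x.1 x.2.2.2) ∩ (cls T x.1 x.2.1)).card : ℝ) m +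
        (((cls T x.1 x.2.2.2) ∩ U T (insert x.2.1 (insert x.2.2.1 x.1))).card : ℝ)) := by
    refine sum_le_sum ?_
    rintro ⟨C, a, b, z⟩ h
    rw [mem_hh] at h
    have h1 := star_pt h
    simp only
    have h2 : ((D T (insert z (insert b C)) z).card : ℝ) ≤
        (((Q T (insert z (insert b C)) z b).card : ℝ) + ((Q T (insert a (insert b C)) a b).card : ℝ) +
        ((cls T C z ∩ cls T C a).card : ℝ)) + ((cls T C z ∩ U T (insert a (insert b C))).card : ℝ) := by
      exact_mod_cast h1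
    refine (min_le_min_right m h2).trans ?_
    refine (min_sub (by positivity) (by positivity) hm).trans (add_le_add ?_ (min_le_left _ _))
    refine (min_sub (by positivity) (by positivity) hm).trans (add_le_add ?_ le_rfl)
    exact min_sub (by positivity) (by positivity) hm
  simp only [sum_add_distrib] at key
  rw [t1, t2, t3, s1, s2, s3', s4'] at key
  have h4 := term4 hT J
  linarith

/-- the squares of the overlaps, for the pairs of normal degree -/
noncomputable def gd (T : Finset (Finset V)) (m : ℝ) (A : Finset V) (a : V) : ℝ :=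
  if ((D T A a).card : ℝ) ≤ 2 * m then ∑ b ∈ A.erase a, ((Q T A a b).card : ℝ) ^ 2 else 0

theorem sum_Q_le {r : ℕ} (hT : ∀ e ∈ T, e.card = r) {A : Finset V} (hA : ind T A) (a : V) :
    ∑ b ∈ A.erase a, ((Q T A a b).card : ℝ) ≤ ((r : ℝ) - 2) * (D T A a).card := by
  rw [sum_Q, mul_comm, ← nsmul_eq_mul, ← sum_const]
  refine sum_le_sum fun z hz => ?_
  have h1 := card_core_le hT hA (mem_D.1 hz).1
  have h2 : ((core T A z).card : ℝ) + 1 ≤ r := by exact_mod_cast h1
  linarith

/-- **the star inequality** -/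
theorem star {r : ℕ} (hr : 2 ≤ r) (hT : ∀ e ∈ T, e.card = r) (J : ℕ) {m : ℝ} (hm : 0 ≤ m) :
    ((r : ℝ) - 2) * m * (∑ A ∈ I T J, ∑ a ∈ A, ((D T A a).card : ℝ) -
      ∑ A ∈ I T J, ∑ a ∈ A, max 0 (m - (D T A a).card)) ≤
    2 * ∑ A ∈ I T J, ∑ a ∈ A, gd T m A a +
      6 * m * ((r : ℝ) - 2) * ∑ A ∈ I T J, ∑ a ∈ A, max 0 (((D T A a).card : ℝ) - m) +
      5 * m * ((r : ℝ) - 1) * ∑ A ∈ I T J, sig T r A +
      2 * ((r : ℝ) - 1) ^ 2 * ∑ A ∈ I T (J + 1), sig T r A := by
  have hr2 : (0 : ℝ) ≤ (r : ℝ) - 2 := by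
    have : ((2 : ℕ) : ℝ) ≤ r := by exact_mod_cast hr
    push_cast at this; linarith
  have h0 := star_sum hT J hm
  -- lower bound
  have hlow : ((r : ℝ) - 2) * m * (∑ A ∈ I T J, ∑ a ∈ A, ((D T A a).card : ℝ) -
      ∑ A ∈ I T J, ∑ a ∈ A, max 0 (m - (D T A a).card)) -
      m * ((r : ℝ) - 1) * ∑ A ∈ I T J, sig T r A ≤
      ∑ A ∈ I T J, ∑ a ∈ A, ∑ b ∈ A.erase a, ((Q T A a b).card : ℝ) * min ((D T A a).card : ℝ) m := by
    rw [← sum_sub_distrib, mul_sum, mul_sum, ← sum_sub_distrib]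
    refine sum_le_sum fun A hA => ?_
    have hA2 := (mem_I.1 hA).2
    have e1 : ∀ a ∈ A, ∑ b ∈ A.erase a, ((Q T A a b).card : ℝ) * min ((D T A a).card : ℝ) m =
        (((r : ℝ) - 2) * (D T A a).card - ∑ z ∈ D T A a, ((r : ℝ) - 1 - (core T A z).card)) *
          min ((D T A a).card : ℝ) m := by
      intro a _
      rw [← sum_mul, sum_Q]
      congr 1
      rw [mul_comm ((r : ℝ) - 2), ← nsmul_eq_mul, ← sum_const, ← sum_sub_distrib]
      exact sum_congr rfl fun z _ => by ring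
    rw [sum_congr rfl e1]
    have e2 : ∀ a ∈ A, ((r : ℝ) - 2) * m * (((D T A a).card : ℝ) - max 0 (m - (D T A a).card)) -
        m * ∑ z ∈ D T A a, ((r : ℝ) - 1 - (core T A z).card) ≤
        (((r : ℝ) - 2) * (D T A a).card - ∑ z ∈ D T A a, ((r : ℝ) - 1 - (core T A z).card)) *
          min ((D T A a).card : ℝ) m := by
      intro a _
      set d : ℝ := ((D T A a).card : ℝ) with hd
      have hd0 : 0 ≤ d := Nat.cast_nonneg _
      set s : ℝ := ∑ z ∈ D T A a, ((r : ℝ) - 1 - (core T A z).card) with hs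
      have hs0 : 0 ≤ s := by
        refine sum_nonneg fun z hz => ?_
        have h1 := card_core_le hT hA2 (mem_D.1 hz).1
        have h2 : ((core T A z).card : ℝ) + 1 ≤ r := by exact_mod_cast h1
        linarith
      have h5 : m * (d - max 0 (m - d)) ≤ d * min d m := by
        rcases le_total d m with h | h
        · rw [min_eq_left h, max_eq_right (by linarith)]
          nlinarith [sq_nonneg (d - m)]
        · rw [min_eq_right h, max_eq_left (by linarith)]
          nlinarith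
      have h6 : s * min d m ≤ m * s := by
        rw [mul_comm m s]; exact mul_le_mul_of_nonneg_left (min_le_right _ _) hs0
      have h7 := mul_le_mul_of_nonneg_left h5 hr2
      nlinarith [h7, h6]
    have e3 := sum_le_sum e2
    refine le_trans ?_ e3
    rw [sum_sub_distrib, ← mul_sum, ← mul_sum, sum_sub_distrib]
    have e4 : ∑ a ∈ A, ∑ z ∈ D T A a, ((r : ℝ) - 1 - (core T A z).card) ≤
        ((r : ℝ) - 1) * sig T r A := by
      have h1 : ∀ a ∈ A, ∑ z ∈ D T A a, ((r : ℝ) - 1 - (core T A z).card) =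
          ∑ z ∈ blk T A, if a ∈ core T A z then ((r : ℝ) - 1 - (core T A z).card) else 0 := by
        intro a _
        rw [D, sum_filter]
      rw [sum_congr rfl h1, sum_comm, sig, mul_sum]
      refine sum_le_sum fun z hz => ?_
      rw [← Finset.sum_filter, sum_const, nsmul_eq_mul]
      have h2 := card_core_le hT hA2 hz
      have h3 : ((core T A z).card : ℝ) + 1 ≤ r := by exact_mod_cast h2
      refine mul_le_mul_of_nonneg_right ?_ (by linarith)
      have h4 : (A.filter fun a => a ∈ core T A z).card ≤ (core T A z).card :=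
        card_le_card fun a ha => (mem_filter.1 ha).2
      have h5 : ((A.filter fun a => a ∈ core T A z).card : ℝ) ≤ (core T A z).card := by
        exact_mod_cast h4
      linarith
    have e5 := mul_le_mul_of_nonneg_left e4 hm
    linarith
  -- upper bounds
  have hbad : ∀ A ∈ I T J, ∀ a ∈ A, ¬ ((D T A a).card : ℝ) ≤ 2 * m → ∀ f : V → ℝ,
      (∀ b, f b ≤ m) → ∑ b ∈ A.erase a, ((Q T A a b).card : ℝ) * f b ≤
      2 * m * ((r : ℝ) - 2) * max 0 (((D T A a).card : ℝ) - m) := by
    intro A hA a _ hd f hf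
    rw [not_le] at hd
    have h1 := sum_Q_le hT (mem_I.1 hA).2 a
    calc ∑ b ∈ A.erase a, ((Q T A a b).card : ℝ) * f b
        ≤ ∑ b ∈ A.erase a, ((Q T A a b).card : ℝ) * m :=
          sum_le_sum fun b _ => mul_le_mul_of_nonneg_left (hf b) (Nat.cast_nonneg _)
      _ = (∑ b ∈ A.erase a, ((Q T A a b).card : ℝ)) * m := by rw [sum_mul]
      _ ≤ (((r : ℝ) - 2) * (D T A a).card) * m := mul_le_mul_of_nonneg_right h1 hm
      _ ≤ 2 * m * ((r : ℝ) - 2) * max 0 (((D T A a).card : ℝ) - m) := by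
          rw [max_eq_right (by linarith)]
          have h2 : 0 ≤ ((r : ℝ) - 2) * m := mul_nonneg hr2 hm
          nlinarith
  have hup2 : ∑ A ∈ I T J, ∑ a ∈ A, ∑ b ∈ A.erase a,
        ((Q T A a b).card : ℝ) * min ((Q T A a b).card : ℝ) m ≤
      ∑ A ∈ I T J, ∑ a ∈ A, gd T m A a +
      2 * m * ((r : ℝ) - 2) * ∑ A ∈ I T J, ∑ a ∈ A, max 0 (((D T A a).card : ℝ) - m) := by
    rw [mul_sum, ← sum_add_distrib]
    refine sum_le_sum fun A hA => ?_
    rw [mul_sum, ← sum_add_distrib]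
    refine sum_le_sum fun a ha => ?_
    unfold gd
    by_cases hd : ((D T A a).card : ℝ) ≤ 2 * m
    · rw [if_pos hd]
      have h1 : 0 ≤ 2 * m * ((r : ℝ) - 2) * max 0 (((D T A a).card : ℝ) - m) :=
        mul_nonneg (mul_nonneg (by linarith) hr2) (le_max_left _ _)
      have h2 : ∑ b ∈ A.erase a, ((Q T A a b).card : ℝ) * min ((Q T A a b).card : ℝ) m ≤
          ∑ b ∈ A.erase a, ((Q T A a b).card : ℝ) ^ 2 := by
        refine sum_le_sum fun b _ => ?_
        rw [sq]
        exact mul_le_mul_of_nonneg_left (min_le_left _ _) (Nat.cast_nonneg _)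
      linarith
    · rw [if_neg hd, zero_add]
      exact hbad A hA a ha hd _ fun b => min_le_right _ _
  have hup3 : ∑ A ∈ I T J, ∑ a ∈ A, ∑ b ∈ A.erase a, ((Q T A a b).card : ℝ) *
        min ((((cls T ((A.erase a).erase b) a) ∩ (cls T ((A.erase a).erase b) b)).card : ℝ)) m ≤
      4 * m * ((r : ℝ) - 1) * ∑ A ∈ I T J, sig T r A +
      2 * m * ((r : ℝ) - 2) * ∑ A ∈ I T J, ∑ a ∈ A, max 0 (((D T A a).card : ℝ) - m) := by
    rw [mul_sum, mul_sum, ← sum_add_distrib]
    refine sum_le_sum fun A hA => ?_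
    have hsi := sum_inter hT (mem_I.1 hA).2
    have h0 : ∑ a ∈ A, ∑ b ∈ A.erase a, ((Q T A a b).card : ℝ) *
        min ((((cls T ((A.erase a).erase b) a) ∩ (cls T ((A.erase a).erase b) b)).card : ℝ)) m ≤
        ∑ a ∈ A, (2 * m * ∑ b ∈ A.erase a,
          (((cls T ((A.erase a).erase b) a) ∩ (cls T ((A.erase a).erase b) b)).card : ℝ) +
          2 * m * ((r : ℝ) - 2) * max 0 (((D T A a).card : ℝ) - m)) := by
      refine sum_le_sum fun a ha => ?_
      by_cases hd : ((D T A a).card : ℝ) ≤ 2 * m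
      · have h1 : 0 ≤ 2 * m * ((r : ℝ) - 2) * max 0 (((D T A a).card : ℝ) - m) :=
          mul_nonneg (mul_nonneg (by linarith) hr2) (le_max_left _ _)
        have h2 : ∑ b ∈ A.erase a, ((Q T A a b).card : ℝ) *
            min ((((cls T ((A.erase a).erase b) a) ∩ (cls T ((A.erase a).erase b) b)).card : ℝ)) m ≤
            2 * m * ∑ b ∈ A.erase a,
              (((cls T ((A.erase a).erase b) a) ∩ (cls T ((A.erase a).erase b) b)).card : ℝ) := by
          rw [mul_sum]
          refine sum_le_sum fun b _ => ?_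
          have h3 : ((Q T A a b).card : ℝ) ≤ (D T A a).card := by
            exact_mod_cast card_le_card inter_subset_left
          exact mul_le_mul (h3.trans hd) (min_le_left _ _)
            (le_min (Nat.cast_nonneg _) hm) (by linarith)
        linarith
      · have h1 := hbad A hA a ha hd (fun b => min ((((cls T ((A.erase a).erase b) a) ∩
          (cls T ((A.erase a).erase b) b)).card : ℝ)) m) fun b => min_le_right _ _
        have h2 : 0 ≤ 2 * m * ∑ b ∈ A.erase a,
          (((cls T ((A.erase a).erase b) a) ∩ (cls T ((A.erase a).erase b) b)).card : ℝ) :=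
          mul_nonneg (by linarith) (sum_nonneg fun _ _ => Nat.cast_nonneg _)
        linarith
    refine h0.trans ?_
    rw [sum_add_distrib, ← mul_sum, ← mul_sum]
    have := mul_le_mul_of_nonneg_left hsi (show (0 : ℝ) ≤ 2 * m by linarith)
    linarith
  linarith

end Pool.Agent.J4.H84.TU
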