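import Pool.Agent.J4.H84.TU.Light
import Pool.Agent.J4.H84.TU.Star3

/-! # The upper bound for the overlaps -/

set_option autoImplicit false

open Finset

namespace Pool.Agent.J4.H84.TU

variable {V : Type*} [Fintype V] [DecidableEq V] {T : Finset (Finset V)} {J : ℕ}

theorem ov_nonneg (A : Finset V) (a : V) : 0 ≤ ov T A a :=
  sum_nonneg fun _ _ => sum_nonneg fun _ _ => Nat.cast_nonneg _

theorem sum_Q_sq {r : ℕ} (hT : ∀ e ∈ T, e.card = r) {A : Finset V} (hA : ind T A) (a : V) :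
    ∑ b ∈ A.erase a, ((Q T A a b).card : ℝ) ^ 2 ≤ ov T A a := by
  have h1 : ∀ b ∈ A.erase a, ((Q T A a b).card : ℝ) ^ 2 =
      ∑ z ∈ D T A a, ∑ z' ∈ D T A a, if b ∈ core T A z ∧ b ∈ core T A z' then (1 : ℝ) else 0 := by
    intro b _
    have h2 : ((Q T A a b).card : ℝ) = ∑ z ∈ D T A a, if b ∈ core T A z then (1 : ℝ) else 0 := by
      rw [← Finset.sum_filter, sum_const, nsmul_eq_mul, mul_one]
      congr 2
      ext z
      rw [mem_Q, mem_filter, mem_D]; tauto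
    rw [h2, sq, sum_mul_sum]
    refine sum_congr rfl fun z _ => sum_congr rfl fun z' _ => ?_
    by_cases h3 : b ∈ core T A z <;> by_cases h4 : b ∈ core T A z' <;> simp [h3, h4]
  rw [sum_congr rfl h1, sum_comm, ov]
  refine sum_le_sum fun z hz => ?_
  rw [sum_comm]
  refine sum_le_sum fun z' hz' => ?_
  rw [← Finset.sum_filter, sum_const, nsmul_eq_mul, mul_one]
  norm_cast
  refine card_le_card fun b hb => ?_
  rw [mem_filter] at hb
  obtain ⟨h2, h3, h4⟩ := hb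
  have k1 := Kz_spec hT hA (mem_D.1 hz).1
  have k2 := Kz_spec hT hA (mem_D.1 hz').1
  have hba := (mem_erase.1 h2).1
  exact mem_inter.2 ⟨mem_erase.2 ⟨hba, k1.2.1 h3⟩, mem_erase.2 ⟨hba, k2.2.1 h4⟩⟩

/-- the overlap at a pair of normal degree -/
theorem light_pt {r : ℕ} (hT : ∀ e ∈ T, e.card = r) {A : Finset V} (hA : A ∈ I T J)
    {a : V} (ha : a ∈ A) {p : ℕ} (hp : 2 * (r - 2) ≤ p) (hpJ : p < J - 1) {m m0 g : ℝ}
    (hm0 : 0 ≤ m0) (hmm : m0 ≤ m) (hg : 0 ≤ g)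
    (hC : (((J - 1 - (r - 2)).choose (p - (r - 2)) : ℕ) : ℝ) ^ 2 ≤
      (((J - 1).choose p : ℕ) : ℝ) * ((((J - 1 - 2 * (r - 2)).choose (J - 1 - p) : ℕ) : ℝ) +
        g * (((J - 1).choose p : ℕ) : ℝ))) :
    ((J - 1 - 2 * (r - 2)).choose (J - 1 - p) : ℕ) *
      ((((J - 1 - p : ℕ) : ℝ) / ((J - 1 : ℕ) : ℝ)) * gd T m A a) ≤
    m0 * ∑ C ∈ powersetCard p (A.erase a), max 0 (m0 - (Y T A a C).card) +
      (((J - 1).choose p : ℕ) : ℝ) * (4 * m * max 0 (((D T A a).card : ℝ) - m) +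
        2 * (m - m0) ^ 2 + 4 * g * m ^ 2) := by
  have hm : 0 ≤ m := hm0.trans hmm
  have hS0 : 0 ≤ ∑ C ∈ powersetCard p (A.erase a), max 0 (m0 - ((Y T A a C).card : ℝ)) :=
    sum_nonneg fun C _ => le_max_left _ _
  have hCp0 : (0 : ℝ) < (((J - 1).choose p : ℕ) : ℝ) := by
    exact_mod_cast Nat.choose_pos (by omega)
  unfold gd
  by_cases hd : ((D T A a).card : ℝ) ≤ 2 * m
  swap
  · rw [if_neg hd, mul_zero, mul_zero]
    have : 0 ≤ max 0 (((D T A a).card : ℝ) - m) := le_max_left _ _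
    positivity
  rw [if_pos hd]
  have h1 := sum_Y_sq hT hA ha hp hpJ
  have h2 := sum_Y hT hA ha (p := p) (by omega)
  have h3 := sum_Q_sq hT (mem_I.1 hA).2 a
  set d : ℝ := ((D T A a).card : ℝ) with hdd
  have hd0 : 0 ≤ d := Nat.cast_nonneg _
  set c0 : ℝ := (((J - 1).choose p : ℕ) : ℝ) with hc0
  set c1 : ℝ := (((J - 1 - (r - 2)).choose (p - (r - 2)) : ℕ) : ℝ) with hc1
  set c2 : ℝ := (((J - 1 - 2 * (r - 2)).choose (J - 1 - p) : ℕ) : ℝ) with hc2
  set kk : ℝ := (((J - 1 - p : ℕ) : ℝ) / ((J - 1 : ℕ) : ℝ)) with hkk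
  have hkk0 : 0 ≤ kk := by positivity
  have hc20 : 0 ≤ c2 := Nat.cast_nonneg _
  -- the second moment about m0
  have hcard : ∑ _C ∈ powersetCard p (A.erase a), (1 : ℝ) = c0 := by
    rw [sum_const, nsmul_eq_mul, mul_one, card_powersetCard, card_erase_of_mem ha, (mem_I.1 hA).1]
  have h4 : ∑ C ∈ powersetCard p (A.erase a), (((Y T A a C).card : ℝ) - m0) ^ 2 =
      ∑ C ∈ powersetCard p (A.erase a), ((Y T A a C).card : ℝ) ^ 2 - 2 * m0 * (d * c1) +
        m0 ^ 2 * c0 := by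
    rw [← h2, ← hcard, mul_sum, mul_sum, ← sum_sub_distrib, ← sum_add_distrib]
    exact sum_congr rfl fun C _ => by ring
  have h5 : ∑ C ∈ powersetCard p (A.erase a), (((Y T A a C).card : ℝ) - m0) ^ 2 ≤
      m0 * ∑ C ∈ powersetCard p (A.erase a), max 0 (m0 - (Y T A a C).card) +
      c0 * (4 * m * max 0 (d - m) + 2 * (m - m0) ^ 2) := by
    rw [mul_sum, ← hcard, sum_mul, ← sum_add_distrib]
    refine sum_le_sum fun C _ => ?_
    have hy0 : (0 : ℝ) ≤ (Y T A a C).card := Nat.cast_nonneg _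
    have hyd : ((Y T A a C).card : ℝ) ≤ d := by
      rw [hdd]; exact_mod_cast Y_le_D A a C
    set y : ℝ := ((Y T A a C).card : ℝ) with hy
    have hx0 : 0 ≤ max 0 (d - m) := le_max_left _ _
    have hx1 : d - m ≤ max 0 (d - m) := le_max_right _ _
    rcases le_total y m0 with h | h
    · rw [max_eq_right (by linarith : (0 : ℝ) ≤ m0 - y)]
      have e1 : (y - m0) ^ 2 ≤ m0 * (m0 - y) := by nlinarith
      have e2 : 0 ≤ 4 * m * max 0 (d - m) + 2 * (m - m0) ^ 2 := by positivity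
      linarith
    · rw [max_eq_left (by linarith : m0 - y ≤ 0), mul_zero, zero_add, one_mul]
      set x := max 0 (d - m) with hx
      have hxm : x ≤ m := max_le hm (by linarith)
      have e1 : y - m0 ≤ x + (m - m0) := by linarith
      have e2 : (y - m0) ^ 2 ≤ (x + (m - m0)) ^ 2 := by
        apply pow_le_pow_left₀ (by linarith) e1
      have e3 : (x + (m - m0)) ^ 2 ≤ 2 * x ^ 2 + 2 * (m - m0) ^ 2 := by
        nlinarith [sq_nonneg (x - (m - m0))]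
      have e4 : x ^ 2 ≤ m * x := by rw [sq]; exact mul_le_mul_of_nonneg_right hxm hx0
      have e5 : 0 ≤ m * x := mul_nonneg hm hx0
      linarith
  have h6 : c2 * (kk * ov T A a) ≤ ∑ C ∈ powersetCard p (A.erase a),
      (((Y T A a C).card : ℝ) - m0) ^ 2 + c0 * (4 * g * m ^ 2) := by
    rw [h4]
    have e1 : 0 ≤ c0 * m0 ^ 2 - 2 * m0 * (d * c1) + (c2 + g * c0) * d ^ 2 := by
      have e2 : 0 ≤ c0 * (c0 * m0 ^ 2 - 2 * m0 * (d * c1) + (c2 + g * c0) * d ^ 2) := by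
        have e3 : c1 ^ 2 * d ^ 2 ≤ (c0 * (c2 + g * c0)) * d ^ 2 :=
          mul_le_mul_of_nonneg_right hC (sq_nonneg d)
        nlinarith [sq_nonneg (c0 * m0 - c1 * d)]
      exact nonneg_of_mul_nonneg_right e2 hCp0
    have e4 : d ^ 2 ≤ 4 * m ^ 2 := by nlinarith
    have e5 : g * c0 * d ^ 2 ≤ g * c0 * (4 * m ^ 2) :=
      mul_le_mul_of_nonneg_left e4 (by positivity)
    nlinarith [h1, e1, e5]
  have h7 : c2 * (kk * ∑ b ∈ A.erase a, ((Q T A a b).card : ℝ) ^ 2) ≤ c2 * (kk * ov T A a) :=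
    mul_le_mul_of_nonneg_left (mul_le_mul_of_nonneg_left h3 hkk0) hc20
  linarith

theorem sum_pairs_const (c : ℝ) : ∑ A ∈ I T J, ∑ _a ∈ A, c = (((I T J).card : ℝ) * J) * c := by
  have h : ∀ A ∈ I T J, ∑ _a ∈ A, c = J * c := by
    intro A hA
    rw [sum_const, nsmul_eq_mul, (mem_I.1 hA).1]
  rw [sum_congr rfl h, sum_const, nsmul_eq_mul]; ring

theorem tot_eq {p : ℕ} (hp : p < J) :
    ((J : ℝ) - p) * W T J p = (((I T J).card : ℝ) * J) * (((J - 1).choose p : ℕ) : ℝ) := by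
  have h3 := Nat.add_one_mul_choose_eq (J - 1) (J - 1 - p)
  have e1 : (J - 1).choose (J - 1 - p) = (J - 1).choose p := Nat.choose_symm (by omega)
  have e2 : J.choose (J - p) = J.choose p := Nat.choose_symm hp.le
  rw [show J - 1 + 1 = J by omega, show J - 1 - p + 1 = J - p by omega, e1, e2] at h3
  have h4 : (J : ℝ) * ((J - 1).choose p : ℕ) = (J.choose p : ℕ) * ((J : ℝ) - p) := by
    have : ((J * (J - 1).choose p : ℕ) : ℝ) = ((J.choose p * (J - p) : ℕ) : ℝ) := by rw [h3]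
    rw [Nat.cast_mul, Nat.cast_mul, Nat.cast_sub hp.le] at this
    exact this
  rw [W_eq]
  linear_combination (-((I T J).card : ℝ)) * h4

/-- the lower deviation of the survivors -/
theorem low_Y {r : ℕ} (hT : ∀ e ∈ T, e.card = r) (hJ : (I T J).Nonempty) {p : ℕ}
    (hp : r - 2 ≤ p) (hpJ : p < J) (m0 : ℝ) :
    ∑ A ∈ I T J, ∑ a ∈ A, ∑ C ∈ powersetCard p (A.erase a), max 0 (m0 - (Y T A a C).card) ≤
    ∑ C ∈ I T p, ∑ a ∈ U T C, w T J (insert a C) * max 0 (m0 - (cls T C a).card) +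
      (((J : ℝ) - p) * W T J p) * (vv T J p - vv T J (p + 1)) -
      (((J - 1 - (r - 2)).choose (p - (r - 2)) : ℕ) : ℝ) *
        ∑ A ∈ I T J, ∑ a ∈ A, ((D T A a).card : ℝ) := by
  rw [← sum_H_one hJ hpJ, sum_chain T J p (fun C a => max 0 (m0 - ((cls T C a).card : ℝ))),
    sum_chain T J p (fun C a => ((cls T C a).card : ℝ)), mul_sum, ← sum_add_distrib,
    ← sum_sub_distrib]
  refine sum_le_sum fun A hA => ?_
  rw [mul_sum, ← sum_add_distrib, ← sum_sub_distrib]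
  refine sum_le_sum fun a ha => ?_
  rw [mul_comm, ← sum_Y hT hA ha hp, ← sum_add_distrib, ← sum_sub_distrib]
  refine sum_le_sum fun C hC => ?_
  have h1 : ((Y T A a C).card : ℝ) ≤ (cls T C a).card := by
    exact_mod_cast card_le_card (Y_sub hT (mem_I.1 hA).2 ha (mem_powersetCard.1 hC).1)
  have h2 : (0 : ℝ) ≤ max 0 (m0 - ((cls T C a).card : ℝ)) := le_max_left _ _
  have h3 : m0 - ((cls T C a).card : ℝ) ≤ max 0 (m0 - ((cls T C a).card : ℝ)) := le_max_right _ _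
  exact max_le (by linarith) (by linarith)

/-- the lower deviation of the degrees -/
theorem low_D {p : ℕ} (m0 : ℝ) :
    (((J - 1).choose p : ℕ) : ℝ) * ∑ A ∈ I T J, ∑ a ∈ A, max 0 (m0 - (D T A a).card) ≤
    ∑ A ∈ I T J, ∑ a ∈ A, ∑ C ∈ powersetCard p (A.erase a), max 0 (m0 - (Y T A a C).card) := by
  rw [mul_sum]
  refine sum_le_sum fun A hA => ?_
  rw [mul_sum]
  refine sum_le_sum fun a ha => ?_
  have h1 : (((J - 1).choose p : ℕ) : ℝ) * max 0 (m0 - ((D T A a).card : ℝ)) =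
      ∑ _C ∈ powersetCard p (A.erase a), max 0 (m0 - ((D T A a).card : ℝ)) := by
    rw [sum_const, nsmul_eq_mul, card_powersetCard, card_erase_of_mem ha, (mem_I.1 hA).1]
  rw [h1]
  refine sum_le_sum fun C _ => max_le_max le_rfl ?_
  have : ((Y T A a C).card : ℝ) ≤ (D T A a).card := by exact_mod_cast Y_le_D A a C
  linarith

/-- the total overlap -/
theorem light {r : ℕ} (hT : ∀ e ∈ T, e.card = r) {p : ℕ} (hp : 2 * (r - 2) ≤ p)
    (hpJ : p < J - 1) {m m0 g : ℝ} (hm0 : 0 ≤ m0) (hmm : m0 ≤ m) (hg : 0 ≤ g)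
    (hC : (((J - 1 - (r - 2)).choose (p - (r - 2)) : ℕ) : ℝ) ^ 2 ≤
      (((J - 1).choose p : ℕ) : ℝ) * ((((J - 1 - 2 * (r - 2)).choose (J - 1 - p) : ℕ) : ℝ) +
        g * (((J - 1).choose p : ℕ) : ℝ))) :
    ((J - 1 - 2 * (r - 2)).choose (J - 1 - p) : ℕ) *
      ((((J - 1 - p : ℕ) : ℝ) / ((J - 1 : ℕ) : ℝ)) * ∑ A ∈ I T J, ∑ a ∈ A, gd T m A a) ≤
    m0 * (∑ A ∈ I T J, ∑ a ∈ A, ∑ C ∈ powersetCard p (A.erase a),
      max 0 (m0 - (Y T A a C).card)) +
      (((J - 1).choose p : ℕ) : ℝ) * (4 * m * (∑ A ∈ I T J, ∑ a ∈ A,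
        max 0 (((D T A a).card : ℝ) - m)) +
        (((I T J).card : ℝ) * J) * (2 * (m - m0) ^ 2 + 4 * g * m ^ 2)) := by
  have h1 := sum_le_sum fun A hA => sum_le_sum fun a ha =>
    light_pt (J := J) hT hA ha hp hpJ hm0 hmm hg hC
  simp only [← mul_sum, sum_add_distrib] at h1
  rw [sum_pairs_const, sum_pairs_const] at h1
  linarith

end Pool.Agent.J4.H84.TU
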