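import Pool.Agent.J4.H84.TU.Chain2
import Pool.Agent.J4.H84.TU.Light2
import Pool.Agent.J4.H84.TU.Binom2

/-! # The facts at the chosen level -/

set_option autoImplicit false

open Finset

namespace Pool.Agent.J4.H84.TU

variable {V : Type*} [Fintype V] [DecidableEq V] {T : Finset (Finset V)}

/-- the facts at the chosen level `J` -/
structure Setup (T : Finset (Finset V)) (r J k0 : ℕ) : Prop where
  hr : 3 ≤ r
  hT : ∀ e ∈ T, e.card = r
  hJ1 : (I T (J + 1)).Nonempty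
  hk0 : 4 ≤ k0
  hk1 : 10 ^ 8 * ((r - 1) * k0) ≤ J
  hk2 : J ≤ 2 * 10 ^ 8 * ((r - 1) * k0)
  hb1 : 3 / 10 * (Fintype.card V : ℝ) ≤ bb T J J
  hb2 : bb T J J ≤ 51 / 100 * (Fintype.card V : ℝ)
  hu : ∀ i ≤ J, 2 / 5 * (Fintype.card V : ℝ) ≤ vv T i i
  hX : BB T r (r - 1) ≤ (1 + 1 / 10 ^ 48) * BB T r J
  hs1 : sg T r J J ≤ 64 / 10 ^ 48 * (((r : ℝ) - 1) * bb T J J)
  hs2 : sg T r (J + 1) (J + 1) ≤ 64 / 10 ^ 48 * (((r : ℝ) - 1) * bb T J J)
  hd : dd T (J - 1) * J ≤ 64 / 10 ^ 48 * (((r : ℝ) - 1) * bb T J J)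
  hn : 10 ^ 10 * (J : ℝ) ≤ Fintype.card V

/-- the mean degree, without defect -/
noncomputable def mm (T : Finset (Finset V)) (r J : ℕ) : ℝ := ((r : ℝ) - 1) * bb T J J / J

variable {r J k0 : ℕ}

theorem Setup.hJ (S : Setup T r J k0) : (I T J).Nonempty := ne_down S.hJ1 (by omega)

/-- the numerical relations -/
theorem Setup.num (S : Setup T r J k0) :
    (2 : ℝ) ≤ (r : ℝ) - 1 ∧ (4 : ℝ) ≤ k0 ∧ 10 ^ 8 * (((r : ℝ) - 1) * k0) ≤ J ∧
      (J : ℝ) ≤ 2 * 10 ^ 8 * (((r : ℝ) - 1) * k0) ∧ 10 ^ 8 * k0 * 2 ≤ J ∧ 10 ^ 8 * (r - 1) * 4 ≤ J := by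
  have hr := S.hr
  have hk0 := S.hk0
  have h1 := S.hk1
  have h2 := S.hk2
  have e1 : (((r - 1 : ℕ)) : ℝ) = (r : ℝ) - 1 := by rw [Nat.cast_sub (by omega)]; push_cast; ring
  refine ⟨?_, by exact_mod_cast hk0, ?_, ?_, ?_, ?_⟩
  · have : ((3 : ℕ) : ℝ) ≤ r := by exact_mod_cast hr
    push_cast at this; linarith
  · rw [← e1]; exact_mod_cast h1
  · rw [← e1]; exact_mod_cast h2
  · have h3 : 2 * k0 ≤ (r - 1) * k0 := Nat.mul_le_mul_right _ (by omega)
    omega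
  · have h3 : (r - 1) * 4 ≤ (r - 1) * k0 := Nat.mul_le_mul_left _ hk0
    omega

theorem Setup.npos (S : Setup T r J k0) : (0 : ℝ) < Fintype.card V := by
  obtain ⟨h1, h2, h3, h4, h5, h6⟩ := S.num
  have : (0 : ℝ) < J := by nlinarith
  linarith [S.hn]

theorem Setup.bpos (S : Setup T r J k0) : (0 : ℝ) < bb T J J := by
  have := S.npos
  linarith [S.hb1]

theorem Setup.bG (S : Setup T r J k0) :
    bb T J J = ((J.choose (r - 1) : ℕ) : ℝ) * BB T r J := by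
  obtain ⟨h1, h2, h3, h4, h5, h6⟩ := S.num
  have h := bb_eq (T := T) (J := J) (r := r) (i := J) (by omega)
  rw [SS_top, add_zero] at h
  exact h

theorem Setup.Gpos (S : Setup T r J k0) : (0 : ℝ) < ((J.choose (r - 1) : ℕ) : ℝ) := by
  obtain ⟨h1, h2, h3, h4, h5, h6⟩ := S.num
  exact_mod_cast Nat.choose_pos (show r - 1 ≤ J by omega)

theorem Setup.Bpos (S : Setup T r J k0) : 0 < BB T r J := by
  have h1 := S.bpos
  rw [S.bG] at h1
  exact pos_of_mul_pos_right h1 S.Gpos.le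

theorem Setup.Jpos (S : Setup T r J k0) : (0 : ℝ) < J := by
  obtain ⟨h1, h2, h3, h4, h5, h6⟩ := S.num
  nlinarith

theorem Setup.mmG (S : Setup T r J k0) :
    mm T r J = (((J - 1).choose (r - 2) : ℕ) : ℝ) * BB T r J := by
  have hJ := S.Jpos
  obtain ⟨h1, h2, h3, h4, h5, h6⟩ := S.num
  have hr := S.hr
  unfold mm
  rw [S.bG, div_eq_iff hJ.ne']
  have h := Nat.add_one_mul_choose_eq (J - 1) (r - 2)
  rw [show J - 1 + 1 = J by omega, show r - 2 + 1 = r - 1 by omega] at h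
  have h7 : (J : ℝ) * (((J - 1).choose (r - 2) : ℕ) : ℝ) = ((J.choose (r - 1) : ℕ) : ℝ) * ((r : ℝ) - 1) := by
    have h8 : ((J * (J - 1).choose (r - 2) : ℕ) : ℝ) = ((J.choose (r - 1) * (r - 1) : ℕ) : ℝ) := by
      rw [h]
    rw [Nat.cast_mul, Nat.cast_mul, Nat.cast_sub (show 1 ≤ r by omega)] at h8
    push_cast at h8
    exact h8
  linear_combination (-(BB T r J)) * h7

theorem Setup.mpos (S : Setup T r J k0) : 0 < mm T r J := by
  obtain ⟨h1, h2, h3, h4, h5, h6⟩ := S.num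
  have := S.bpos
  have := S.Jpos
  unfold mm
  have : 0 < (r : ℝ) - 1 := by linarith
  positivity

theorem Setup.mJ (S : Setup T r J k0) : mm T r J * J = ((r : ℝ) - 1) * bb T J J := by
  unfold mm
  exact div_mul_cancel₀ _ S.Jpos.ne'

/-- `b ≤ 2·10^8 k0 m` -/
theorem Setup.b_le (S : Setup T r J k0) : bb T J J ≤ 2 * 10 ^ 8 * (k0 * mm T r J) := by
  obtain ⟨h1, h2, h3, h4, h5, h6⟩ := S.num
  have hm := S.mpos
  have hR : 0 < (r : ℝ) - 1 := by linarith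
  have h7 := S.mJ
  have h8 : mm T r J * J ≤ mm T r J * (2 * 10 ^ 8 * (((r : ℝ) - 1) * k0)) :=
    mul_le_mul_of_nonneg_left h4 hm.le
  rw [h7] at h8
  have h9 : ((r : ℝ) - 1) * bb T J J ≤ ((r : ℝ) - 1) * (2 * 10 ^ 8 * (k0 * mm T r J)) := by
    linarith
  exact le_of_mul_le_mul_left h9 hR

/-- `m` is large -/
theorem Setup.m_large (S : Setup T r J k0) : 6 * 10 ^ 9 ≤ mm T r J := by
  obtain ⟨h1, h2, h3, h4, h5, h6⟩ := S.num
  have hJ := S.Jpos
  have hb := S.bpos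
  have hb1 := S.hb1
  have hn := S.hn
  unfold mm
  rw [le_div_iff₀ hJ]
  have h7 : 2 * bb T J J ≤ ((r : ℝ) - 1) * bb T J J := mul_le_mul_of_nonneg_right h1 hb.le
  linarith

/-- the total entropy -/
theorem Setup.kap_small (S : Setup T r J k0) :
    ∑ i ∈ range J, kap T J i ≤ 1 / 10 ^ 39 * k0 := by
  obtain ⟨h1, h2, h3, h4, h5, h6⟩ := S.num
  have hr := S.hr
  have hn := S.npos
  have hB := S.Bpos
  have hG := S.Gpos
  have h := kap_sum_le (T := T) (J := J) (r := r) (by omega) S.hT S.hJ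
    (u := 2 / 5 * (Fintype.card V : ℝ)) (X := 1 / 10 ^ 48 * BB T r J) (by positivity)
    (fun i hi => S.hu i hi.le) (by linarith [S.hX]) (by positivity)
  refine h.trans ?_
  have hc : ((J.choose r : ℕ) : ℝ) * ((r : ℝ) - 1) ≤ ((J.choose (r - 1) : ℕ) : ℝ) * J := by
    have h7 := Nat.choose_succ_right_eq J (r - 1)
    rw [show r - 1 + 1 = r by omega] at h7
    have h8 : J.choose r * (r - 1) ≤ J.choose (r - 1) * J :=
      calc J.choose r * (r - 1) ≤ J.choose r * r := Nat.mul_le_mul_left _ (by omega)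
        _ = J.choose (r - 1) * (J - (r - 1)) := h7
        _ ≤ J.choose (r - 1) * J := Nat.mul_le_mul_left _ (by omega)
    have h9 : ((J.choose r * (r - 1) : ℕ) : ℝ) ≤ ((J.choose (r - 1) * J : ℕ) : ℝ) := by
      exact_mod_cast h8
    rw [Nat.cast_mul, Nat.cast_mul, Nat.cast_sub (show 1 ≤ r by omega)] at h9
    push_cast at h9
    exact h9
  have hR : 0 < (r : ℝ) - 1 := by linarith
  have hk0 : (0 : ℝ) < k0 := by linarith
  have hbG := S.bG
  have hb2 := S.hb2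
  -- multiply by (r-1) * n
  rw [div_mul_eq_mul_div, div_le_iff₀ (by positivity)]
  have e1 : (1 / 10 ^ 48 * BB T r J * ((J.choose r : ℕ) : ℝ)) * ((r : ℝ) - 1) ≤
      (1 / 10 ^ 39 * k0 * (2 / 5 * (Fintype.card V : ℝ))) * ((r : ℝ) - 1) := by
    have e2 : (1 / 10 ^ 48 * BB T r J * ((J.choose r : ℕ) : ℝ)) * ((r : ℝ) - 1) ≤
        1 / 10 ^ 48 * (bb T J J * J) := by
      rw [hbG]
      have := mul_le_mul_of_nonneg_left hc (show 0 ≤ 1 / 10 ^ 48 * BB T r J by positivity)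
      linarith
    have e3 : bb T J J * J ≤ (51 / 100 * (Fintype.card V : ℝ)) *
        (2 * 10 ^ 8 * (((r : ℝ) - 1) * k0)) :=
      mul_le_mul hb2 h4 S.Jpos.le (by positivity)
    have e4 : 0 ≤ (Fintype.card V : ℝ) * (((r : ℝ) - 1) * k0) := by positivity
    nlinarith
  exact le_of_mul_le_mul_right e1 hR

/-- the excess of the chain is small -/
theorem Setup.SS_small (S : Setup T r J k0) {P : ℕ} (hP : J ≤ P + 10 ^ 4 * k0) (hPJ : P ≤ J) :
    SS T r J P ≤ 5 / 10 ^ 48 * BB T r J := by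
  obtain ⟨h1, h2, h3, h4, h5, h6⟩ := S.num
  have hr := S.hr
  have hn := S.npos
  have hB := S.Bpos
  have hG := S.Gpos
  rcases hPJ.eq_or_lt with rfl | hPJ
  · rw [SS_top]; positivity
  have h := SS_le (T := T) (J := J) (r := r) (by omega) S.hT S.hJ
    (u := 2 / 5 * (Fintype.card V : ℝ)) (X := 1 / 10 ^ 48 * BB T r J) (by positivity)
    (fun i hi => S.hu i hi.le) (by linarith [S.hX]) (by positivity) hPJ
    (by exact_mod_cast hn)
  have hc := choose_ratio r (show P + 1 ≤ J by omega)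
  have hCJ : (0 : ℝ) < ((J.choose r : ℕ) : ℝ) := by
    exact_mod_cast Nat.choose_pos (show r ≤ J by omega)
  have hP' : (J : ℝ) ≤ P + 10 ^ 4 * k0 := by exact_mod_cast hP
  have h7 : (((J : ℝ) - ((P + 1 : ℕ) : ℝ)) * r / (((P + 1 : ℕ) : ℝ) + 1)) ≤ 1 / 2 := by
    rw [div_le_iff₀ (by positivity)]
    push_cast
    have hr2 : (r : ℝ) ≤ 2 * ((r : ℝ) - 1) := by linarith
    have hr0 : (0 : ℝ) ≤ r := Nat.cast_nonneg _
    have h8 : ((J : ℝ) - (P + 1)) * r ≤ (10 ^ 4 * k0) * (2 * ((r : ℝ) - 1)) :=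
      mul_le_mul (by linarith) hr2 hr0 (by positivity)
    have h9 : (10 : ℝ) ^ 4 * k0 ≤ 10 ^ 4 * (((r : ℝ) - 1) * k0) := by nlinarith
    nlinarith
  have h10 : (1 / 2 : ℝ) * ((J.choose r : ℕ) : ℝ) ≤ (((P + 1).choose r : ℕ) : ℝ) := by
    refine le_trans ?_ hc
    rw [mul_comm]
    exact mul_le_mul_of_nonneg_left (by linarith) hCJ.le
  have hS := SS_nonneg (T := T) (J := J) (r := r) (by omega) S.hT S.hJ (i := P) (by
    omega) hPJ.le
  have h11 : SS T r J P * ((1 / 2 : ℝ) * ((J.choose r : ℕ) : ℝ)) ≤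
      Fintype.card V * (1 / 10 ^ 48 * BB T r J / (2 / 5 * (Fintype.card V : ℝ)) *
        ((J.choose r : ℕ) : ℝ)) := (mul_le_mul_of_nonneg_left h10 hS).trans h
  have h12 : (Fintype.card V : ℝ) * (1 / 10 ^ 48 * BB T r J / (2 / 5 * (Fintype.card V : ℝ)) *
        ((J.choose r : ℕ) : ℝ)) = (5 / 2 / 10 ^ 48 * BB T r J) * ((J.choose r : ℕ) : ℝ) := by
    field_simp
  rw [h12] at h11
  have h13 : (SS T r J P * (1 / 2 : ℝ)) * ((J.choose r : ℕ) : ℝ) ≤
      (5 / 2 / 10 ^ 48 * BB T r J) * ((J.choose r : ℕ) : ℝ) := by linarith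
  have h14 := le_of_mul_le_mul_right h13 hCJ
  linarith

end Pool.Agent.J4.H84.TU
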