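import Pool.Agent.J4.H84.TU.Level

/-! # Choosing the levels of the chain -/

set_option autoImplicit false

open Finset

namespace Pool.Agent.J4.H84.TU

variable {V : Type*} [Fintype V] [DecidableEq V] {T : Finset (Finset V)} {r J k0 : ℕ}

/-- the pigeonhole -/
theorem Setup.pigeon (S : Setup T r J k0) {lo : ℕ} (hlo : J ≤ lo + 10 ^ 4 * k0)
    (hlo2 : lo + 2 * k0 ≤ J) : ∃ p, lo ≤ p ∧ p < lo + k0 ∧
      kap T J p + kap T J (p + k0) ≤ 4 / 10 ^ 39 ∧
      (SS T r J p - SS T r J (p + 2)) * k0 ≤ 20 / 10 ^ 48 * BB T r J := by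
  obtain ⟨h1, h2, h3, h4, h5, h6⟩ := S.num
  have hr := S.hr
  have hk := S.hk0
  have hB := S.Bpos
  have hk0 : (0 : ℝ) < k0 := by linarith
  have hrlo : r - 1 ≤ lo := by
    have : 10 ^ 4 * k0 ≤ 10 ^ 8 * k0 := Nat.mul_le_mul_right _ (by norm_num)
    omega
  by_contra hcon
  push Not at hcon
  have hS : ∀ i l, r - 1 ≤ i → i ≤ l → l ≤ J → SS T r J l ≤ SS T r J i := fun i l h1 h2 h3 =>
    SS_anti (by omega) S.hT S.hJ h1 h2 h3
  have hkap : ∀ i < J, 0 ≤ kap T J i := fun i hi => (kap_dev S.hJ hi).1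
  have sub : ∀ m, m + k0 ≤ J → ∑ t ∈ range k0, kap T J (m + t) ≤ 1 / 10 ^ 39 * k0 := by
    intro m hm
    have e : ∑ t ∈ range k0, kap T J (m + t) = ∑ i ∈ Ico m (m + k0), kap T J i := by
      rw [Finset.sum_Ico_eq_sum_range, Nat.add_sub_cancel_left]
    rw [e]
    refine le_trans (sum_le_sum_of_subset_of_nonneg (fun i hi => ?_) fun i hi _ => ?_) S.kap_small
    · rw [mem_Ico] at hi; exact mem_range.2 (by omega)
    · exact hkap i (mem_range.1 hi)
  have a1 := sub lo (by omega)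
  have a2 := sub (lo + k0) (by omega)
  have a3 : ∑ t ∈ range k0, (SS T r J (lo + t) - SS T r J (lo + t + 2)) ≤
      2 * (5 / 10 ^ 48 * BB T r J) := by
    have e : ∑ t ∈ range k0, (SS T r J (lo + t) - SS T r J (lo + t + 2)) =
        ∑ t ∈ range k0, (SS T r J (lo + t) - SS T r J (lo + (t + 1))) +
        ∑ t ∈ range k0, (SS T r J (lo + 1 + t) - SS T r J (lo + 1 + (t + 1))) := by
      rw [← sum_add_distrib]
      refine sum_congr rfl fun t _ => ?_
      rw [show lo + 1 + t = lo + (t + 1) by ring, show lo + 1 + (t + 1) = lo + t + 2 by ring]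
      ring
    rw [e, Finset.sum_range_sub' (fun t => SS T r J (lo + t)) k0,
      Finset.sum_range_sub' (fun t => SS T r J (lo + 1 + t)) k0]
    have b1 := S.SS_small (P := lo) hlo (by omega)
    have b2 := hS lo (lo + 1) hrlo (by omega) (by omega)
    have b3 := SS_nonneg (T := T) (J := J) (r := r) (by omega) S.hT S.hJ (i := lo + k0) (by omega)
      (by omega)
    have b4 := SS_nonneg (T := T) (J := J) (r := r) (by omega) S.hT S.hJ (i := lo + 1 + k0)
      (by omega) (by omega)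
    simp only [Nat.add_zero]
    linarith
  have key : ∀ t ∈ range k0, (4 / 10 ^ 39 : ℝ) * (20 / 10 ^ 48 * BB T r J) <
      (kap T J (lo + t) + kap T J (lo + k0 + t)) * (20 / 10 ^ 48 * BB T r J) +
      (SS T r J (lo + t) - SS T r J (lo + t + 2)) * k0 * (4 / 10 ^ 39) := by
    intro t ht
    have ht := mem_range.1 ht
    have c1 := hkap (lo + t) (by omega)
    have c2 := hkap (lo + k0 + t) (by omega)
    have c3 := hS (lo + t) (lo + t + 2) (by omega) (by omega) (by omega)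
    have c4 := hcon (lo + t) (by omega) (by omega)
    rw [show lo + t + k0 = lo + k0 + t by ring] at c4
    have c5 : 0 ≤ (SS T r J (lo + t) - SS T r J (lo + t + 2)) * k0 :=
      mul_nonneg (by linarith) hk0.le
    have c6 : 0 < 20 / 10 ^ 48 * BB T r J := by positivity
    by_cases c7 : kap T J (lo + t) + kap T J (lo + k0 + t) ≤ 4 / 10 ^ 39
    · have c8 := c4 c7
      have c9 : 0 ≤ (kap T J (lo + t) + kap T J (lo + k0 + t)) * (20 / 10 ^ 48 * BB T r J) :=
        mul_nonneg (by linarith) c6.le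
      nlinarith
    · rw [not_le] at c7
      have c8 := mul_lt_mul_of_pos_right c7 c6
      have c9 : 0 ≤ (SS T r J (lo + t) - SS T r J (lo + t + 2)) * k0 * (4 / 10 ^ 39) := by
        positivity
      linarith
  have hne : (range k0).Nonempty := ⟨0, mem_range.2 (by omega)⟩
  have hsum := sum_lt_sum_of_nonempty hne key
  rw [sum_const, nsmul_eq_mul, card_range, sum_add_distrib, ← sum_mul, sum_add_distrib,
    ← sum_mul, ← sum_mul] at hsum
  have d1 : (∑ t ∈ range k0, kap T J (lo + t) + ∑ t ∈ range k0, kap T J (lo + k0 + t)) *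
      (20 / 10 ^ 48 * BB T r J) ≤ (2 / 10 ^ 39 * k0) * (20 / 10 ^ 48 * BB T r J) :=
    mul_le_mul_of_nonneg_right (by linarith) (by positivity)
  have d2 : (∑ t ∈ range k0, (SS T r J (lo + t) - SS T r J (lo + t + 2))) * k0 * (4 / 10 ^ 39) ≤
      (2 * (5 / 10 ^ 48 * BB T r J)) * k0 * (4 / 10 ^ 39) := by
    refine mul_le_mul_of_nonneg_right (mul_le_mul_of_nonneg_right a3 hk0.le) (by positivity)
  have d3 : (0 : ℝ) < k0 * BB T r J := by positivity
  nlinarith

/-- the bound for the error of the hazards -/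
theorem Setup.E1_le (S : Setup T r J k0) {p : ℕ} (hp : J ≤ p + 10 ^ 4 * k0) (hp2 : p + k0 < J)
    (hkap : kap T J p + kap T J (p + k0) ≤ 4 / 10 ^ 39)
    (hSS : (SS T r J p - SS T r J (p + 2)) * k0 ≤ 20 / 10 ^ 48 * BB T r J) :
    (vv T J p - vv T J (p + k0)) - (k0 : ℝ) * (vv T J p - vv T J (p + 1)) +
      2 * ((k0 : ℝ) * ((k0 : ℝ) - 1) * (((r : ℝ) - 1) * sg T r J (p + 2)) /
        (((p : ℝ) + 1) * ((p : ℝ) + 2))) +
      vv T J (p + k0) * (2 * √(kap T J p) + 2 * √(kap T J (p + k0))) ≤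
    12 / 10 ^ 9 * (k0 * mm T r J) := by
  obtain ⟨h1, h2, h3, h4, h5, h6⟩ := S.num
  have hr := S.hr
  have hk := S.hk0
  have hB := S.Bpos
  have hm := S.mpos
  have hb := S.bpos
  have hn := S.npos
  have hJ := S.Jpos
  have hk0 : (0 : ℝ) < k0 := by linarith
  have hR : 0 < (r : ℝ) - 1 := by linarith
  have hrp : r - 1 ≤ p := by
    have : 10 ^ 4 * k0 ≤ 10 ^ 8 * k0 := Nat.mul_le_mul_right _ (by norm_num)
    omega
  have hpJ : (999 / 1000 : ℝ) * J ≤ (p : ℝ) := by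
    have e1 : (J : ℝ) ≤ p + 10 ^ 4 * k0 := by exact_mod_cast hp
    have e2 : (10 : ℝ) ^ 8 * k0 * 2 ≤ J := by exact_mod_cast h5
    linarith
  have v1 := vv_eq (T := T) (J := J) (r := r) (i := p) (by omega) S.hJ (by omega)
  have v2 := vv_eq (T := T) (J := J) (r := r) (i := p + 1) (by omega) S.hJ (by omega)
  have v3 := vv_eq (T := T) (J := J) (r := r) (i := p + k0) (by omega) S.hJ (by omega)
  set G0 : ℝ := ((p.choose (r - 1) : ℕ) : ℝ) with hG0
  set Gq : ℝ := (((p + k0).choose (r - 1) : ℕ) : ℝ) with hGq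
  set G1 : ℝ := (((p + 1).choose (r - 1) : ℕ) : ℝ) with hG1
  set g : ℝ := ((p.choose (r - 2) : ℕ) : ℝ) with hg
  set gq : ℝ := (((p + k0 - 1).choose (r - 2) : ℕ) : ℝ) with hgq
  set GJ : ℝ := ((J.choose (r - 1) : ℕ) : ℝ) with hGJ
  set B := BB T r J with hBdef
  set s0 := SS T r J p with hs0
  set s1 := SS T r J (p + 1) with hs1
  set s2 := SS T r J (p + 2) with hs2
  set sq := SS T r J (p + k0) with hsq
  have hbG : bb T J J = GJ * B := S.bG
  have hGJ0 : 0 < GJ := S.Gpos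
  have t1 : s1 ≤ s0 := SS_anti_succ (by omega) S.hT hrp S.hJ (by omega)
  have t2 : s2 ≤ s1 := SS_anti_succ (by omega) S.hT (i := p + 1) (by omega) S.hJ (by omega)
  have t3 : 0 ≤ s2 := SS_nonneg (by omega) S.hT S.hJ (by omega) (by omega)
  have t4 : 0 ≤ sq := SS_nonneg (by omega) S.hT S.hJ (by omega) (by omega)
  have t5 : s0 ≤ 5 / 10 ^ 48 * B := S.SS_small hp (by omega)
  have t6 : sq ≤ 5 / 10 ^ 48 * B := S.SS_small (by omega) (by omega)
  have g1 : G1 = G0 + g := by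
    rw [hG1, hG0, hg, show r - 1 = (r - 2) + 1 by omega, Nat.choose_succ_succ]
    push_cast
    simp only [Nat.succ_eq_add_one]
    ring
  have g2 : Gq - G0 ≤ k0 * gq := by
    have := choose_diff_upper (r - 2) (show p ≤ p + k0 by omega)
    rw [show r - 2 + 1 = r - 1 by omega] at this
    push_cast at this
    rw [hGq, hG0, hgq]
    linarith
  have g3 : gq * (1 - 11 / 10 ^ 9) ≤ g := by
    have := choose_ratio (r - 2) (show p ≤ p + k0 - 1 by omega)
    refine le_trans ?_ this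
    refine mul_le_mul_of_nonneg_left ?_ (Nat.cast_nonneg _)
    have e1 : (((p + k0 - 1 : ℕ)) : ℝ) - p ≤ k0 := by
      rw [Nat.cast_sub (by omega)]; push_cast; linarith
    have e2 : (((r - 2 : ℕ)) : ℝ) ≤ (r : ℝ) - 1 := by
      rw [Nat.cast_sub (by omega)]; push_cast; linarith
    have e3 : ((((p + k0 - 1 : ℕ)) : ℝ) - p) * (((r - 2 : ℕ)) : ℝ) ≤ k0 * ((r : ℝ) - 1) :=
      mul_le_mul e1 e2 (Nat.cast_nonneg _) hk0.le
    have e4 : ((((p + k0 - 1 : ℕ)) : ℝ) - p) * (((r - 2 : ℕ)) : ℝ) / ((p : ℝ) + 1) ≤ 11 / 10 ^ 9 := by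
      rw [div_le_iff₀ (by positivity)]
      linarith
    linarith
  have g4 : gq * B ≤ mm T r J := by
    rw [S.mmG]
    refine mul_le_mul_of_nonneg_right ?_ hB.le
    rw [hgq]
    exact_mod_cast Nat.choose_le_choose _ (by omega)
  have g5 : G0 ≤ GJ := by
    rw [hG0, hGJ]; exact_mod_cast Nat.choose_le_choose _ (by omega)
  have g6 : Gq ≤ GJ := by
    rw [hGq, hGJ]; exact_mod_cast Nat.choose_le_choose _ (by omega)
  have g7 : G1 ≤ GJ := by
    rw [hG1, hGJ]; exact_mod_cast Nat.choose_le_choose _ (by omega)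
  have g8 : 0 ≤ G0 := Nat.cast_nonneg _
  have g9 : 0 ≤ gq := Nat.cast_nonneg _
  have g10 : 0 ≤ G1 := Nat.cast_nonneg _
  have g11 : 0 ≤ Gq := Nat.cast_nonneg _
  have g12 : 0 ≤ g := Nat.cast_nonneg _
  -- first part
  have f1 : (Gq - G0 - k0 * g) * B ≤ 11 / 10 ^ 9 * (k0 * mm T r J) := by
    have e1 : Gq - G0 - k0 * g ≤ k0 * (gq * (11 / 10 ^ 9)) := by
      have := mul_le_mul_of_nonneg_left g3 hk0.le
      linarith
    have e2 := mul_le_mul_of_nonneg_right e1 hB.le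
    have e3 : k0 * (gq * B) ≤ k0 * mm T r J := mul_le_mul_of_nonneg_left g4 hk0.le
    linarith
  have f2 : Gq * sq ≤ 5 / 10 ^ 48 * bb T J J := by
    rw [hbG]
    have := mul_le_mul g6 t6 t4 hGJ0.le
    linarith
  have f3 : k0 * (G0 * s0 - G1 * s1) ≤ 20 / 10 ^ 48 * bb T J J := by
    have e1 : G0 * s0 - G1 * s1 ≤ GJ * (s0 - s2) := by
      have e2 : G0 * (s0 - s1) ≤ GJ * (s0 - s2) := mul_le_mul g5 (by linarith) (by linarith) hGJ0.le
      have e3 : 0 ≤ g * s1 := mul_nonneg g12 (by linarith)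
      rw [g1]; linarith
    have e4 := mul_le_mul_of_nonneg_left e1 hk0.le
    have e5 := mul_le_mul_of_nonneg_left hSS hGJ0.le
    rw [hbG]; linarith
  have f4 : (k0 : ℝ) * ((k0 : ℝ) - 1) * (((r : ℝ) - 1) * sg T r J (p + 2)) /
        (((p : ℝ) + 1) * ((p : ℝ) + 2)) ≤ 21 / 10 ^ 48 * (k0 * mm T r J) := by
    have e0 := SS_rec (T := T) (J := J) (r := r) (i := p + 1) (by omega) (by omega) S.hJ (by omega)
    have e1 : ((p : ℝ) + 2) * G1 * (s1 - s2) = sg T r J (p + 2) := by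
      rw [← e0]; push_cast; ring
    have hp0 : (0 : ℝ) ≤ p := Nat.cast_nonneg _
    rw [← e1, div_le_iff₀ (by positivity)]
    -- k0 (k0 - 1) (r-1) (p+2) G1 (s1 - s2) ≤ 21/10^48 k0 mm (p+1)(p+2)
    have e2 : (s1 - s2) * k0 ≤ 20 / 10 ^ 48 * B :=
      le_trans (mul_le_mul_of_nonneg_right (by linarith) hk0.le) hSS
    have e3 : ((r : ℝ) - 1) * (G1 * ((s1 - s2) * k0)) ≤ ((r : ℝ) - 1) * (GJ * (20 / 10 ^ 48 * B)) :=
      mul_le_mul_of_nonneg_left (mul_le_mul g7 e2 (mul_nonneg (by linarith) hk0.le) hGJ0.le) hR.le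
    have e4 : ((r : ℝ) - 1) * (GJ * (20 / 10 ^ 48 * B)) = 20 / 10 ^ 48 * (mm T r J * J) := by
      rw [S.mJ, hbG]; ring
    rw [e4] at e3
    have e5 : 20 / 10 ^ 48 * (mm T r J * J) ≤ 21 / 10 ^ 48 * (mm T r J * ((p : ℝ) + 1)) := by
      have : mm T r J * (20 * (J : ℝ)) ≤ mm T r J * (21 * ((p : ℝ) + 1)) :=
        mul_le_mul_of_nonneg_left (by linarith) hm.le
      linarith
    have e6 : ((r : ℝ) - 1) * (G1 * ((s1 - s2) * k0)) ≤ 21 / 10 ^ 48 * (mm T r J * ((p : ℝ) + 1)) :=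
      e3.trans e5
    have e7 : 0 ≤ ((r : ℝ) - 1) * (G1 * ((s1 - s2) * k0)) := by
      refine mul_nonneg hR.le (mul_nonneg g10 (mul_nonneg (by linarith) hk0.le))
    have e8 : ((k0 : ℝ) - 1) * (((r : ℝ) - 1) * (G1 * ((s1 - s2) * k0))) ≤
        k0 * (21 / 10 ^ 48 * (mm T r J * ((p : ℝ) + 1))) :=
      mul_le_mul (by linarith) e6 e7 hk0.le
    have e9 := mul_le_mul_of_nonneg_right e8 (show (0 : ℝ) ≤ (p : ℝ) + 2 by linarith)
    linarith
  have f5 : vv T J (p + k0) * (2 * √(kap T J p) + 2 * √(kap T J (p + k0))) ≤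
      3 / 10 ^ 10 * (k0 * mm T r J) := by
    have k1 := (kap_dev S.hJ (i := p) (by omega)).1
    have k2 := (kap_dev S.hJ (i := p + k0) (by omega)).1
    have k3 : √(kap T J p) ≤ 1 / 10 ^ 19 := by
      rw [Real.sqrt_le_left (by positivity)]
      norm_num
      linarith
    have k4 : √(kap T J (p + k0)) ≤ 1 / 10 ^ 19 := by
      rw [Real.sqrt_le_left (by positivity)]
      norm_num
      linarith
    have k5 : vv T J (p + k0) ≤ Fintype.card V := by
      have h7 := vv_add_bb S.hJ (i := p + k0) (by omega)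
      have h8 := bb_nonneg (T := T) (J := J) (p + k0)
      have h9 : (0 : ℝ) ≤ ((p + k0 : ℕ) : ℝ) := Nat.cast_nonneg _
      linarith
    have k6 : vv T J (p + k0) * (2 * √(kap T J p) + 2 * √(kap T J (p + k0))) ≤
        Fintype.card V * (4 / 10 ^ 19) := by
      refine mul_le_mul k5 (by linarith) (by positivity) hn.le
    have k7 := S.hb1
    have k8 := S.b_le
    linarith
  have f6 := S.b_le
  have first : (vv T J p - vv T J (p + k0)) - (k0 : ℝ) * (vv T J p - vv T J (p + 1)) ≤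
      (Gq - G0 - k0 * g) * B + Gq * sq + k0 * (G0 * s0 - G1 * s1) := by
    rw [v1, v2, v3, g1]
    push_cast
    have e1 : 0 ≤ G0 * s0 := mul_nonneg g8 (by linarith)
    linarith
  have hkm : 0 < (k0 : ℝ) * mm T r J := by positivity
  linarith

end Pool.Agent.J4.H84.TU
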