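import Pool.Agent.J4.H84.TU.Level2

/-! # The lower bound for the survivors -/

set_option autoImplicit false

open Finset

namespace Pool.Agent.J4.H84.TU

variable {V : Type*} [Fintype V] [DecidableEq V] {T : Finset (Finset V)} {r J k0 : ℕ}

/-- the bad sets -/
theorem Setup.prb_small (S : Setup T r J k0) :
    (Fintype.card V : ℝ) * prb T J ((1 - 1 / 10 ^ 8) * vv T (J - 1) (J - 1)) ≤
      1 / 10 ^ 9 * mm T r J := by
  obtain ⟨h1, h2, h3, h4, h5, h6⟩ := S.num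
  have hr := S.hr
  have hn := S.npos
  have hJ := S.Jpos
  have h := prb_le (T := T) (J := J) (by omega) S.hJ (θ := 1 / 10 ^ 8) (by positivity)
  have hu := S.hu (J - 1) (by omega)
  have hp0 := prb_nonneg (T := T) (J := J) ((1 - 1 / 10 ^ 8) * vv T (J - 1) (J - 1))
  set P := prb T J ((1 - 1 / 10 ^ 8) * vv T (J - 1) (J - 1)) with hP
  have hd : dd T (J - 1) ≤ 64 / 10 ^ 48 * mm T r J := by
    have := S.hd
    rw [← S.mJ] at this
    have e : dd T (J - 1) * J ≤ (64 / 10 ^ 48 * mm T r J) * J := by linarith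
    exact le_of_mul_le_mul_right e hJ
  have h7 : P * ((1 / 10 ^ 8) ^ 2 * (2 / 5 * (Fintype.card V : ℝ))) ≤
      P * ((1 / 10 ^ 8) ^ 2 * vv T (J - 1) (J - 1)) :=
    mul_le_mul_of_nonneg_left (mul_le_mul_of_nonneg_left hu (by positivity)) hp0
  have hm := S.mpos
  have h8 := (h7.trans h).trans hd
  linarith

/-- the total degree -/
theorem sum_D_total (hJ : (I T J).Nonempty) :
    ∑ A ∈ I T J, ∑ a ∈ A, ((D T A a).card : ℝ) =
      ((I T J).card : ℝ) * (((r : ℝ) - 1) * bb T J J - sg T r J J) := by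
  have h1 : (0 : ℝ) < ((I T J).card : ℝ) := by exact_mod_cast card_pos.2 hJ
  have h2 : bb T J J * ((I T J).card : ℝ) = ∑ A ∈ I T J, ((blk T A).card : ℝ) := by
    rw [bb, av_top, div_mul_cancel₀ _ h1.ne']
  have h3 : sg T r J J * ((I T J).card : ℝ) = ∑ A ∈ I T J, sig T r A := by
    rw [sg, av_top, div_mul_cancel₀ _ h1.ne']
  have h4 : ((I T J).card : ℝ) * (((r : ℝ) - 1) * bb T J J - sg T r J J) =
      ((r : ℝ) - 1) * (bb T J J * ((I T J).card : ℝ)) - sg T r J J * ((I T J).card : ℝ) := by ring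
  rw [h4, h2, h3, mul_sum, ← sum_sub_distrib]
  refine sum_congr rfl fun A _ => ?_
  have h5 : ∑ a ∈ A, ((D T A a).card : ℝ) = ∑ z ∈ blk T A, ((core T A z).card : ℝ) := by
    have := sum_card_D (T := T) A
    exact_mod_cast this
  rw [h5, sig, sum_sub_distrib]
  simp only [sum_const, nsmul_eq_mul]
  ring

/-- the mean class against the mean number of survivors -/
theorem Setup.err (S : Setup T r J k0) {p : ℕ} (hp : J ≤ p + 10 ^ 4 * k0) (hp2 : p < J) :
    (((J : ℝ) - p) * W T J p) * (vv T J p - vv T J (p + 1)) -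
      (((J - 1 - (r - 2)).choose (p - (r - 2)) : ℕ) : ℝ) *
        ∑ A ∈ I T J, ∑ a ∈ A, ((D T A a).card : ℝ) ≤
    (((J : ℝ) - p) * W T J p) * (1 / 10 ^ 9 * mm T r J) := by
  obtain ⟨h1, h2, h3, h4, h5, h6⟩ := S.num
  have hr := S.hr
  have hB := S.Bpos
  have hm := S.mpos
  have hJ := S.Jpos
  have hR : 0 < (r : ℝ) - 1 := by linarith
  have hrp : r - 1 ≤ p := by
    have : 10 ^ 4 * k0 ≤ 10 ^ 8 * k0 := Nat.mul_le_mul_right _ (by norm_num)
    omega
  have hN : (0 : ℝ) < ((I T J).card : ℝ) := by exact_mod_cast card_pos.2 S.hJ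
  rw [sum_D_total (r := r) S.hJ, tot_eq hp2]
  have v1 := vv_eq (T := T) (J := J) (r := r) (i := p) (by omega) S.hJ (by omega)
  have v2 := vv_eq (T := T) (J := J) (r := r) (i := p + 1) (by omega) S.hJ (by omega)
  have c1 := c1_eq (N := J - 1) (p := p) (s := r - 2) (by omega)
  have c2 := c1_le (N := J - 1) (p := p) (s := r - 2) (by omega) (by omega)
  have hmG := S.mmG
  have hmJ := S.mJ
  have hs := S.hs1
  have hs0 := sg_nonneg (T := T) (J := J) S.hT J
  set C0 : ℝ := (((J - 1).choose p : ℕ) : ℝ) with hC0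
  set C1 : ℝ := (((J - 1 - (r - 2)).choose (p - (r - 2)) : ℕ) : ℝ) with hC1
  set gJ : ℝ := (((J - 1).choose (r - 2) : ℕ) : ℝ) with hgJ
  set g : ℝ := ((p.choose (r - 2) : ℕ) : ℝ) with hg
  set G0 : ℝ := ((p.choose (r - 1) : ℕ) : ℝ) with hG0
  set G1 : ℝ := (((p + 1).choose (r - 1) : ℕ) : ℝ) with hG1
  set B := BB T r J with hBdef
  set s0 := SS T r J p with hs0'
  set s1 := SS T r J (p + 1) with hs1'
  have hC00 : 0 < C0 := by rw [hC0]; exact_mod_cast Nat.choose_pos (show p ≤ J - 1 by omega)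
  have hC10 : 0 ≤ C1 := Nat.cast_nonneg _
  have t1 : s1 ≤ s0 := SS_anti_succ (by omega) S.hT hrp S.hJ (by omega)
  have t3 : 0 ≤ s1 := SS_nonneg (by omega) S.hT S.hJ (by omega) (by omega)
  have t5 : s1 ≤ 5 / 10 ^ 48 * B := S.SS_small (by omega) (by omega)
  have g1 : G1 = G0 + g := by
    rw [hG1, hG0, hg, show r - 1 = (r - 2) + 1 by omega, Nat.choose_succ_succ]
    push_cast
    simp only [Nat.succ_eq_add_one]
    ring
  have g8 : 0 ≤ G0 := Nat.cast_nonneg _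
  have g12 : 0 ≤ g := Nat.cast_nonneg _
  have g13 : g ≤ gJ := by
    rw [hg, hgJ]; exact_mod_cast Nat.choose_le_choose _ (by omega)
  -- v_p - v_{p+1}
  have e1 : vv T J p - vv T J (p + 1) ≤ 1 + g * B + 5 / 10 ^ 48 * mm T r J := by
    have e2 : G1 * s1 - G0 * s0 ≤ 5 / 10 ^ 48 * mm T r J := by
      have e3 : G0 * s1 ≤ G0 * s0 := mul_le_mul_of_nonneg_left t1 g8
      have e4 : g * s1 ≤ gJ * (5 / 10 ^ 48 * B) := mul_le_mul g13 t5 t3 (by linarith)
      rw [g1, hmG]; linarith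
    rw [v1, v2]
    push_cast
    rw [g1] at e2 ⊢
    linarith
  -- C1 * (r-1) * b = C0 * J * g * B
  have e5 : C1 * (((r : ℝ) - 1) * bb T J J) = (J * C0) * (g * B) := by
    rw [← hmJ, hmG]
    linear_combination (B * J) * c1
  have e6 : C1 * sg T r J J ≤ C0 * (64 / 10 ^ 48 * (mm T r J * J)) := by
    rw [hmJ]; exact mul_le_mul c2 hs hs0 hC00.le
  have e7 := S.m_large
  have hpos : 0 < J * C0 := by positivity
  have e8 : (J * C0) * (vv T J p - vv T J (p + 1)) - C1 * (((r : ℝ) - 1) * bb T J J - sg T r J J) ≤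
      (J * C0) * (1 / 10 ^ 9 * mm T r J) := by
    have e9 := mul_le_mul_of_nonneg_left e1 hpos.le
    have e10 : (J * C0) * (1 + 69 / 10 ^ 48 * mm T r J) ≤ (J * C0) * (1 / 10 ^ 9 * mm T r J) := by
      refine mul_le_mul_of_nonneg_left ?_ hpos.le
      linarith
    linarith
  have e11 := mul_le_mul_of_nonneg_left e8 hN.le
  linarith

/-- the lower bound for the target -/
theorem Setup.M_low (S : Setup T r J k0) {p : ℕ} (hp : J ≤ p + 10 ^ 4 * k0) (hp2 : p + k0 < J) :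
    mm T r J * (1 - 3 * (((J : ℝ) - p) * ((r : ℝ) - 1) / J) - 2 / 10 ^ 8) ≤
      ((1 - vv T J (p + k0) / vv T J p) / k0) * ((1 - 1 / 10 ^ 8) * vv T (J - 1) (J - 1)) := by
  obtain ⟨h1, h2, h3, h4, h5, h6⟩ := S.num
  have hr := S.hr
  have hB := S.Bpos
  have hm := S.mpos
  have hJ := S.Jpos
  have hb := S.bpos
  have hnp := S.npos
  have hR : 0 < (r : ℝ) - 1 := by linarith
  have hk0 : (0 : ℝ) < k0 := by linarith
  have hrp : r - 1 ≤ p := by
    have : 10 ^ 4 * k0 ≤ 10 ^ 8 * k0 := Nat.mul_le_mul_right _ (by norm_num)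
    omega
  have hpJ : (999 / 1000 : ℝ) * J ≤ (p : ℝ) := by
    have e1 : (J : ℝ) ≤ p + 10 ^ 4 * k0 := by exact_mod_cast hp
    have e2 : (10 : ℝ) ^ 8 * k0 * 2 ≤ J := by exact_mod_cast h5
    linarith
  have hpJ' : (p : ℝ) ≤ J := by exact_mod_cast (show p ≤ J by omega)
  have v1 := vv_eq (T := T) (J := J) (r := r) (i := p) (by omega) S.hJ (by omega)
  have v3 := vv_eq (T := T) (J := J) (r := r) (i := p + k0) (by omega) S.hJ (by omega)
  have u1 := uu_eq (T := T) (r := r) (i := J - 1) (by omega) (ne_down S.hJ (by omega))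
  have uJ := uu_eq (T := T) (r := r) (i := J) (by omega) S.hJ
  have hBJ1 : BB T r (J - 1) ≤ (1 + 1 / 10 ^ 48) * BB T r J :=
    (BB_anti (by omega) S.hT le_rfl (by omega) (ne_down S.hJ (by omega))).trans S.hX
  have hvp : 0 < vv T J p := lt_of_lt_of_le one_pos (vv_pos S.hJ (by omega))
  have huJ := S.hu J le_rfl
  have hbG : bb T J J = ((J.choose (r - 1) : ℕ) : ℝ) * BB T r J := S.bG
  have hmG := S.mmG
  have hmJ := S.mJ
  set G0 : ℝ := ((p.choose (r - 1) : ℕ) : ℝ) with hG0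
  set Gq : ℝ := (((p + k0).choose (r - 1) : ℕ) : ℝ) with hGq
  set g : ℝ := ((p.choose (r - 2) : ℕ) : ℝ) with hg
  set gJ : ℝ := (((J - 1).choose (r - 2) : ℕ) : ℝ) with hgJ
  set GJ : ℝ := ((J.choose (r - 1) : ℕ) : ℝ) with hGJ
  set GJ1 : ℝ := (((J - 1).choose (r - 1) : ℕ) : ℝ) with hGJ1
  set B := BB T r J with hBdef
  set s0 := SS T r J p with hs0
  set sq := SS T r J (p + k0) with hsq
  set vp := vv T J p with hvpd
  set vq := vv T J (p + k0) with hvqd
  set u := vv T (J - 1) (J - 1) with hud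
  have hGJ0 : 0 < GJ := S.Gpos
  have t3 : 0 ≤ s0 := SS_nonneg (by omega) S.hT S.hJ (by omega) (by omega)
  have t4 : 0 ≤ sq := SS_nonneg (by omega) S.hT S.hJ (by omega) (by omega)
  have t5 : s0 ≤ 5 / 10 ^ 48 * B := S.SS_small hp (by omega)
  have g2 : k0 * g ≤ Gq - G0 := by
    have := choose_diff_lower (r - 2) (show p ≤ p + k0 by omega)
    rw [show r - 2 + 1 = r - 1 by omega] at this
    push_cast at this
    rw [hGq, hG0, hg]
    linarith
  set a : ℝ := ((J : ℝ) - p) * ((r : ℝ) - 1) / J with ha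
  have haJ : a * J = ((J : ℝ) - p) * ((r : ℝ) - 1) := div_mul_cancel₀ _ hJ.ne'
  have ha0 : 0 ≤ a := by
    rw [ha]; exact div_nonneg (mul_nonneg (by linarith) hR.le) hJ.le
  have ha1 : a ≤ 1 / 10 ^ 4 := by
    rw [ha, div_le_iff₀ hJ]
    have e1 : (J : ℝ) ≤ p + 10 ^ 4 * k0 := by exact_mod_cast hp
    have e2 : ((J : ℝ) - p) * ((r : ℝ) - 1) ≤ (10 ^ 4 * k0) * ((r : ℝ) - 1) :=
      mul_le_mul_of_nonneg_right (by linarith) hR.le
    linarith
  have g3 : gJ * (1 - 102 / 100 * a) ≤ g := by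
    have := choose_ratio (r - 2) (show p ≤ J - 1 by omega)
    refine le_trans ?_ this
    refine mul_le_mul_of_nonneg_left ?_ (Nat.cast_nonneg _)
    have e1 : (((J - 1 : ℕ)) : ℝ) - p ≤ J - p := by
      rw [Nat.cast_sub (by omega)]; push_cast; linarith
    have e2 : (((r - 2 : ℕ)) : ℝ) ≤ (r : ℝ) - 1 := by
      rw [Nat.cast_sub (by omega)]; push_cast; linarith
    have e3 : ((((J - 1 : ℕ)) : ℝ) - p) * (((r - 2 : ℕ)) : ℝ) ≤ ((J : ℝ) - p) * ((r : ℝ) - 1) :=
      mul_le_mul e1 e2 (Nat.cast_nonneg _) (by linarith)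
    have e4 : ((((J - 1 : ℕ)) : ℝ) - p) * (((r - 2 : ℕ)) : ℝ) / ((p : ℝ) + 1) ≤ 102 / 100 * a := by
      rw [div_le_iff₀ (by positivity)]
      rw [← haJ] at e3
      have e5 : a * J ≤ a * (102 / 100 * ((p : ℝ) + 1)) :=
        mul_le_mul_of_nonneg_left (by linarith) ha0
      linarith
    linarith
  have g5 : G0 ≤ GJ := by
    rw [hG0, hGJ]; exact_mod_cast Nat.choose_le_choose _ (by omega)
  have g8 : 0 ≤ G0 := Nat.cast_nonneg _
  have g11 : 0 ≤ Gq := Nat.cast_nonneg _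
  have g14 : GJ1 ≤ GJ := by
    rw [hGJ1, hGJ]; exact_mod_cast Nat.choose_le_choose _ (by omega)
  have g15 : 0 ≤ GJ1 := Nat.cast_nonneg _
  have gs : G0 * s0 ≤ 5 / 10 ^ 48 * bb T J J := by
    rw [hbG]
    have := mul_le_mul g5 t5 t3 hGJ0.le
    linarith
  -- first factor
  have w1 : mm T r J * (1 - 102 / 100 * a - 1 / 10 ^ 38) * k0 ≤ vp - vq := by
    have e1 : k0 * (mm T r J * (1 - 102 / 100 * a)) ≤ k0 * (g * B) := by
      refine mul_le_mul_of_nonneg_left ?_ hk0.le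
      rw [hmG]
      have := mul_le_mul_of_nonneg_right g3 hB.le
      linarith
    have e2 : k0 * (g * B) ≤ (Gq - G0) * B := by
      have := mul_le_mul_of_nonneg_right g2 hB.le
      linarith
    have e3 := S.b_le
    have e4 : 0 ≤ Gq * sq := mul_nonneg g11 t4
    have e5 : 0 < (k0 : ℝ) * mm T r J := by positivity
    rw [v1, v3]
    push_cast
    linarith
  -- the second factor
  have w2 : vp - u ≤ bb T J J * (a + 1 / 10 ^ 9) := by
    have e1 : GJ1 * BB T r (J - 1) ≤ GJ1 * ((1 + 1 / 10 ^ 48) * B) :=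
      mul_le_mul_of_nonneg_left hBJ1 g15
    have e2 : GJ1 - G0 ≤ ((J : ℝ) - p) * gJ := by
      have h7 := choose_diff_upper (r - 2) (show p ≤ J - 1 by omega)
      rw [show r - 2 + 1 = r - 1 by omega] at h7
      have h8 : (((J - 1 - 1).choose (r - 2) : ℕ) : ℝ) ≤ gJ := by
        rw [hgJ]; exact_mod_cast Nat.choose_le_choose _ (by omega)
      have h9 : (((J - 1 : ℕ)) : ℝ) - p ≤ J - p := by
        rw [Nat.cast_sub (by omega)]; push_cast; linarith
      have h10 : ((((J - 1 : ℕ)) : ℝ) - p) * (((J - 1 - 1).choose (r - 2) : ℕ) : ℝ) ≤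
          ((J : ℝ) - p) * gJ := mul_le_mul h9 h8 (Nat.cast_nonneg _) (by linarith)
      rw [hGJ1, hG0]
      linarith
    have e3 : (GJ1 - G0) * B ≤ ((J : ℝ) - p) * mm T r J := by
      rw [hmG]
      have := mul_le_mul_of_nonneg_right e2 hB.le
      linarith
    have e4 : ((J : ℝ) - p) * mm T r J = bb T J J * a := by
      have e5 : (((J : ℝ) - p) * mm T r J) * J = (bb T J J * a) * J := by
        linear_combination ((J : ℝ) - p) * hmJ - bb T J J * haJ
      exact mul_right_cancel₀ hJ.ne' e5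
    have e6 : GJ1 * B ≤ bb T J J := by
      rw [hbG]; exact mul_le_mul_of_nonneg_right g14 hB.le
    have e7 : (J : ℝ) ≤ 1 / 10 ^ 9 / 2 * bb T J J := by
      have := S.hn
      have := S.hb1
      linarith
    have e8 : (0 : ℝ) ≤ p := Nat.cast_nonneg _
    have e9 : 0 ≤ G0 * s0 := mul_nonneg g8 t3
    have e10 : (((J - 1 : ℕ)) : ℝ) ≤ J := by exact_mod_cast (show J - 1 ≤ J by omega)
    rw [v1, u1]
    linarith
  have w3 : bb T J J ≤ 132 / 100 * vp := by
    have e1 : vp ≥ vv T J J - 5 / 10 ^ 48 * bb T J J := by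
      rw [v1, uJ]
      have : G0 * B ≤ GJ * B := mul_le_mul_of_nonneg_right g5 hB.le
      linarith
    have := S.hb2
    linarith
  have w4 : (vp - u) / vp ≤ 132 / 100 * (a + 1 / 10 ^ 9) := by
    rw [div_le_iff₀ hvp]
    refine w2.trans ?_
    have := mul_le_mul_of_nonneg_right w3 (show 0 ≤ a + 1 / 10 ^ 9 by linarith)
    linarith
  have w5 : 1 - 132 / 100 * (a + 1 / 10 ^ 9) ≤ u / vp := by
    rw [sub_div, div_self hvp.ne'] at w4
    linarith
  have w6 : mm T r J * (1 - 102 / 100 * a - 1 / 10 ^ 38) ≤ (vp - vq) / k0 := by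
    rw [le_div_iff₀ hk0]; exact w1
  have e1 : ((1 - vq / vp) / k0) * ((1 - 1 / 10 ^ 8) * u) =
      ((vp - vq) / k0) * ((1 - 1 / 10 ^ 8) * (u / vp)) := by
    field_simp
  rw [e1]
  have w7 : (1 - 1 / 10 ^ 8) * (1 - 132 / 100 * (a + 1 / 10 ^ 9)) ≤ (1 - 1 / 10 ^ 8) * (u / vp) :=
    mul_le_mul_of_nonneg_left w5 (by norm_num)
  have w8 : 0 ≤ (1 - 1 / 10 ^ 8) * (1 - 132 / 100 * (a + 1 / 10 ^ 9)) :=
    mul_nonneg (by norm_num) (by linarith)
  have w9 : 0 ≤ mm T r J * (1 - 102 / 100 * a - 1 / 10 ^ 38) :=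
    mul_nonneg hm.le (by linarith)
  have w10 := mul_le_mul w6 w7 w8 (w9.trans w6)
  refine le_trans ?_ w10
  rw [mul_assoc]
  refine mul_le_mul_of_nonneg_left ?_ hm.le
  have h99 : 0 ≤ a * a := mul_nonneg ha0 ha0
  linarith

end Pool.Agent.J4.H84.TU
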