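import Pool.Agent.J4.H84.TU.Level3

/-! # Survivors, at one good level of a window -/

set_option autoImplicit false

open Finset

namespace Pool.Agent.J4.H84.TU

variable {V : Type*} [Fintype V] [DecidableEq V] {T : Finset (Finset V)} {r J k0 : ℕ}

/-- **the survivors at a good level** -/
theorem Setup.level (S : Setup T r J k0) {lo : ℕ} (hlo : J ≤ lo + 10 ^ 4 * k0)
    (hlo2 : lo + 2 * k0 ≤ J) : ∃ p, lo ≤ p ∧ p < lo + k0 ∧ ∃ M : ℝ, 0 ≤ M ∧
      mm T r J * (1 - 3 * (((J : ℝ) - p) * ((r : ℝ) - 1) / J) - 2 / 10 ^ 8) ≤ M ∧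
      ∑ A ∈ I T J, ∑ a ∈ A, ∑ C ∈ powersetCard p (A.erase a), max 0 (M - (Y T A a C).card) ≤
        ((((I T J).card : ℝ) * J) * (((J - 1).choose p : ℕ) : ℝ)) * (2 / 10 ^ 8 * mm T r J) := by
  obtain ⟨h1, h2, h3, h4, h5, h6⟩ := S.num
  have hr := S.hr
  have hk := S.hk0
  have hm := S.mpos
  have hJ := S.Jpos
  have hnp := S.npos
  have hk0 : (0 : ℝ) < k0 := by linarith
  obtain ⟨p, hp1, hp2, hkap, hSS⟩ := S.pigeon hlo hlo2
  have hpJ : J ≤ p + 10 ^ 4 * k0 := by omega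
  have hpq : p + k0 < J := by omega
  have hrp : r - 1 ≤ p := by
    have : 10 ^ 4 * k0 ≤ 10 ^ 8 * k0 := Nat.mul_le_mul_right _ (by norm_num)
    omega
  have hvp1 : 1 ≤ vv T J p := vv_pos S.hJ (by omega)
  have hvp : 0 < vv T J p := lt_of_lt_of_le one_pos hvp1
  have hvq : 0 ≤ vv T J (p + k0) := vv_nonneg _
  have hu := S.hu (J - 1) (by omega)
  have hu0 : 0 < vv T (J - 1) (J - 1) := lt_of_lt_of_le (by positivity) hu
  have hlow := S.M_low hpJ hpq
  have hE := S.E1_le hpJ hpq hkap hSS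
  have hprb := S.prb_small
  have herr := S.err hpJ (by omega)
  have hhaz := hazard S.hT S.hJ (p := p) (q := p + k0) (by omega) hpq
  have ecast : (((p + k0 : ℕ)) : ℝ) - p = k0 := by push_cast; ring
  rw [ecast] at hhaz
  set κ : ℝ := (1 - vv T J (p + k0) / vv T J p) / k0 with hκ
  set vs : ℝ := (1 - 1 / 10 ^ 8) * vv T (J - 1) (J - 1) with hvs
  set E1 : ℝ := (vv T J p - vv T J (p + k0)) - (k0 : ℝ) * (vv T J p - vv T J (p + 1)) +
      2 * ((k0 : ℝ) * ((k0 : ℝ) - 1) * (((r : ℝ) - 1) * sg T r J (p + 2)) /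
        (((p : ℝ) + 1) * ((p : ℝ) + 2))) +
      vv T J (p + k0) * (2 * √(kap T J p) + 2 * √(kap T J (p + k0))) with hE1
  have hkk : (k0 : ℝ) * κ = 1 - vv T J (p + k0) / vv T J p := by
    rw [hκ, mul_div_cancel₀ _ hk0.ne']
  have hvs0 : 0 < vs := by rw [hvs]; exact mul_pos (by norm_num) hu0
  have hvsn : vs ≤ Fintype.card V := by
    have e1 := vv_add_bb (T := T) (ne_down S.hJ (show J - 1 ≤ J by omega)) (i := J - 1) le_rfl
    have e2 := bb_nonneg (T := T) (J := J - 1) (J - 1)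
    have e3 : (0 : ℝ) ≤ ((J - 1 : ℕ) : ℝ) := Nat.cast_nonneg _
    rw [hvs]; linarith
  have hκ1 : κ ≤ 1 := by
    rw [hκ, div_le_one hk0]
    have : 0 ≤ vv T J (p + k0) / vv T J p := div_nonneg hvq hvp.le
    linarith
  have hM : κ * vs ≤ Fintype.card V := by
    have := mul_le_mul_of_nonneg_right hκ1 hvs0.le
    linarith
  have ha1 : ((J : ℝ) - p) * ((r : ℝ) - 1) / J ≤ 1 / 10 ^ 4 := by
    rw [div_le_iff₀ hJ]
    have e1 : (J : ℝ) ≤ p + 10 ^ 4 * k0 := by exact_mod_cast hpJ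
    have e2 : ((J : ℝ) - p) * ((r : ℝ) - 1) ≤ (10 ^ 4 * k0) * ((r : ℝ) - 1) :=
      mul_le_mul_of_nonneg_right (by linarith) (by linarith)
    linarith
  have hM0 : 0 ≤ κ * vs := by
    refine le_trans (mul_nonneg hm.le ?_) hlow
    linarith
  refine ⟨p, hp1, hp2, κ * vs, hM0, hlow, ?_⟩
  have hlowr := lower (T := T) (J := J) (by omega) (show p < J by omega) hvs0 hk0 hM
    (E1 := E1) (by
      refine le_trans (le_of_eq ?_) hhaz
      refine sum_congr rfl fun C _ => sum_congr rfl fun y _ => ?_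
      rw [hkk])
  have hY := low_Y S.hT S.hJ (p := p) (by omega) (show p < J by omega) (κ * vs)
  refine hY.trans ?_
  rw [← tot_eq (T := T) (show p < J by omega)]
  have hTot : 0 ≤ ((J : ℝ) - p) * W T J p := by
    refine mul_nonneg ?_ (W_pos S.hJ (by omega)).le
    have : ((p : ℕ) : ℝ) ≤ J := by exact_mod_cast (show p ≤ J by omega)
    linarith
  have hE2 : E1 / k0 ≤ 12 / 10 ^ 9 * mm T r J := by
    rw [div_le_iff₀ hk0]; linarith
  have hfin : (((J : ℝ) - p) * W T J p) * (E1 / k0 + 2 * (Fintype.card V * prb T J vs)) ≤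
      (((J : ℝ) - p) * W T J p) * (14 / 10 ^ 9 * mm T r J) := by
    refine mul_le_mul_of_nonneg_left ?_ hTot
    linarith
  have hfin2 : (((J : ℝ) - p) * W T J p) * (15 / 10 ^ 9 * mm T r J) ≤
      (((J : ℝ) - p) * W T J p) * (2 / 10 ^ 8 * mm T r J) := by
    refine mul_le_mul_of_nonneg_left ?_ hTot
    linarith
  linarith

end Pool.Agent.J4.H84.TU
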