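import Pool.Agent.J4.H84.TU.Haz2

/-! # Blocking sets, and the second moment of their survival -/

set_option autoImplicit false

open Finset

namespace Pool.Agent.J4.H84.TU

variable {V : Type*} [Fintype V] [DecidableEq V] {T : Finset (Finset V)} {J : ℕ}

open Classical in
/-- a blocking set of `z` -/
noncomputable def Kz (T : Finset (Finset V)) (A : Finset V) (z : V) : Finset V :=
  if h : ∃ e ∈ T, z ∈ e ∧ e ⊆ insert z A ∧ core T A z ⊆ e.erase z then h.choose.erase z else ∅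

theorem Kz_spec {r : ℕ} (hT : ∀ e ∈ T, e.card = r) {A : Finset V} (hA : ind T A) {z : V}
    (hz : z ∈ blk T A) : (Kz T A z).card + 1 = r ∧ core T A z ⊆ Kz T A z ∧ Kz T A z ⊆ A ∧
      insert z (Kz T A z) ∈ T := by
  have h := exists_edge hA hz
  unfold Kz
  rw [dif_pos h]
  obtain ⟨h1, h2, h3, h4⟩ := h.choose_spec
  refine ⟨?_, h4, ?_, ?_⟩
  · rw [card_erase_add_one h2, hT _ h1]
  · intro x hx
    rcases mem_insert.1 (h3 (mem_of_mem_erase hx)) with h5 | h5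
    · exact absurd h5 (mem_erase.1 hx).1
    · exact h5
  · rw [insert_erase h2]; exact h1

/-- the vertices of `D T A a` whose blocking set survives in `C` -/
noncomputable def Y (T : Finset (Finset V)) (A : Finset V) (a : V) (C : Finset V) : Finset V :=
  (D T A a).filter fun z => (Kz T A z).erase a ⊆ C

theorem Y_sub {r : ℕ} (hT : ∀ e ∈ T, e.card = r) {A : Finset V} (hA : ind T A) {a : V}
    (ha : a ∈ A) {C : Finset V} (hC : C ⊆ A.erase a) : Y T A a C ⊆ cls T C a := by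
  intro z hz
  rw [Y, mem_filter, mem_D] at hz
  obtain ⟨⟨h1, h2⟩, h3⟩ := hz
  obtain ⟨k1, k2, k3, k4⟩ := Kz_spec hT hA h1
  rw [mem_cls, mem_U]
  refine ⟨⟨fun h => (mem_blk.1 h1).1 (mem_of_mem_erase (hC h)), ?_⟩, Or.inr ?_⟩
  · exact ind_mono (insert_subset_insert _ hC) (mem_core.1 h2).2
  · intro hind
    refine hind _ k4 ?_
    intro x hx
    rcases mem_insert.1 hx with h | h
    · rw [h]; exact mem_insert_of_mem (mem_insert_self _ _)
    · by_cases hxa : x = a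
      · rw [hxa]; exact mem_insert_self _ _
      · exact mem_insert_of_mem (mem_insert_of_mem (h3 (mem_erase.2 ⟨hxa, h⟩)))

theorem Y_le_D (A : Finset V) (a : V) (C : Finset V) : (Y T A a C).card ≤ (D T A a).card :=
  card_le_card (filter_subset _ _)

/-- the chain as a sum over the top level -/
theorem sum_chain (T : Finset (Finset V)) (J p : ℕ) (F : Finset V → V → ℝ) :
    ∑ C ∈ I T p, ∑ a ∈ U T C, w T J (insert a C) * F C a =
      ∑ A ∈ I T J, ∑ a ∈ A, ∑ C ∈ powersetCard p (A.erase a), F C a := by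
  have h1 : ∀ C ∈ I T p, ∀ a ∈ U T C, w T J (insert a C) * F C a =
      ∑ A ∈ (I T J).filter (fun A => insert a C ⊆ A), F C a := by
    intro C _ a _
    rw [sum_const, nsmul_eq_mul]; rfl
  rw [sum_congr rfl fun C hC => sum_congr rfl fun a ha => h1 C hC a ha]
  rw [Finset.sum_sigma', Finset.sum_sigma', Finset.sum_sigma', Finset.sum_sigma']
  refine Finset.sum_nbij' (fun x => ⟨⟨x.2, x.1.2⟩, x.1.1⟩) (fun x => ⟨⟨x.2, x.1.2⟩, x.1.1⟩)
    ?_ ?_ ?_ ?_ ?_
  · rintro ⟨⟨C, a⟩, A⟩ h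
    simp only [mem_sigma, mem_filter, mem_I, mem_U, insert_subset_iff, mem_powersetCard] at h ⊢
    obtain ⟨⟨⟨h1, h2⟩, h3, h4⟩, h5, h6, h7⟩ := h
    exact ⟨⟨h5, h6⟩, fun x hx => mem_erase.2 ⟨fun h => h3 (h ▸ hx), h7 hx⟩, h1⟩
  · rintro ⟨⟨A, a⟩, C⟩ h
    simp only [mem_sigma, mem_filter, mem_I, mem_U, insert_subset_iff, mem_powersetCard] at h ⊢
    obtain ⟨⟨h5, h6⟩, h7, h1⟩ := h
    have h8 : C ⊆ A := h7.trans (erase_subset _ _)
    exact ⟨⟨⟨h1, ind_mono h8 h5.2⟩, fun h => (mem_erase.1 (h7 h)).1 rfl,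
      ind_mono (insert_subset h6 h8) h5.2⟩, h5, h6, h8⟩
  · rintro ⟨⟨C, a⟩, A⟩ _; rfl
  · rintro ⟨⟨A, a⟩, C⟩ _; rfl
  · rintro ⟨⟨C, a⟩, A⟩ _; rfl

/-- subsets containing a given set -/
theorem card_contain {B K : Finset V} (hK : K ⊆ B) {p : ℕ} (hp : K.card ≤ p) :
    ((powersetCard p B).filter fun C => K ⊆ C).card = (B.card - K.card).choose (p - K.card) := by
  rw [← card_between hK hp]
  congr 1
  ext C
  simp only [mem_filter, mem_powersetCard]
  constructor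
  · rintro ⟨⟨h1, h2⟩, h3⟩; exact ⟨⟨subset_univ _, h2⟩, h3, h1⟩
  · rintro ⟨⟨-, h2⟩, h3, h1⟩; exact ⟨⟨h1, h2⟩, h3⟩

theorem card_Kz_erase {r : ℕ} (hT : ∀ e ∈ T, e.card = r) {A : Finset V} (hA : ind T A) {a z : V}
    (hz : z ∈ D T A a) : ((Kz T A z).erase a).card + 2 = r ∧ (Kz T A z).erase a ⊆ A.erase a := by
  rw [mem_D] at hz
  obtain ⟨k1, k2, k3, k4⟩ := Kz_spec hT hA hz.1
  have h := card_erase_add_one (k2 hz.2)
  exact ⟨by omega, erase_subset_erase _ k3⟩

theorem sum_Y {r : ℕ} (hT : ∀ e ∈ T, e.card = r) {A : Finset V} (hA : A ∈ I T J) {a : V}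
    (ha : a ∈ A) {p : ℕ} (hp : r - 2 ≤ p) :
    ∑ C ∈ powersetCard p (A.erase a), ((Y T A a C).card : ℝ) =
      ((D T A a).card : ℝ) * ((J - 1 - (r - 2)).choose (p - (r - 2)) : ℕ) := by
  have h1 : ∀ C ∈ powersetCard p (A.erase a), ((Y T A a C).card : ℝ) =
      ∑ z ∈ D T A a, if (Kz T A z).erase a ⊆ C then (1 : ℝ) else 0 := by
    intro C _
    rw [← Finset.sum_filter, sum_const, nsmul_eq_mul, mul_one]; rfl
  rw [sum_congr rfl h1, sum_comm, ← nsmul_eq_mul, ← sum_const]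
  refine sum_congr rfl fun z hz => ?_
  obtain ⟨c1, c2⟩ := card_Kz_erase hT (mem_I.1 hA).2 hz
  have c3 : ((Kz T A z).erase a).card = r - 2 := by omega
  rw [← Finset.sum_filter, sum_const, nsmul_eq_mul, mul_one,
    card_contain c2 (by rw [c3]; exact hp), c3, card_erase_of_mem ha, (mem_I.1 hA).1]

/-- growth of the binomial coefficients -/
theorem choose_growth (k Mx : ℕ) : ∀ (i x : ℕ), k ≤ x → x + i ≤ Mx → 0 < Mx →
    ((x.choose k : ℕ) : ℝ) * (1 + (i : ℝ) * k / Mx) ≤ (((x + i).choose k : ℕ) : ℝ) := by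
  intro i
  induction i with
  | zero => intro x _ _ _; simp
  | succ i ih =>
    intro x hkx hx hM
    have h1 := ih x hkx (by omega) hM
    have hMr : (0 : ℝ) < Mx := by exact_mod_cast hM
    have h2 := Nat.choose_mul_succ_eq (x + i) k
    have h3 : (((x + i).choose k : ℕ) : ℝ) * ((x : ℝ) + i + 1) =
        ((((x + i + 1).choose k : ℕ)) : ℝ) * ((x : ℝ) + i + 1 - k) := by
      have h4 : (((x + i).choose k * (x + i + 1) : ℕ) : ℝ) =
          (((x + i + 1).choose k * (x + i + 1 - k) : ℕ) : ℝ) := by rw [h2]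
      rw [Nat.cast_mul, Nat.cast_mul, Nat.cast_sub (by omega)] at h4
      push_cast at h4
      exact h4
    have hk : (k : ℝ) ≤ x := by exact_mod_cast hkx
    have hden : (0 : ℝ) < (x : ℝ) + i + 1 - k := by
      have : (0 : ℝ) ≤ i := Nat.cast_nonneg _
      linarith
    have hxM : (x : ℝ) + i + 1 ≤ Mx := by exact_mod_cast (show x + i + 1 ≤ Mx by omega)
    have h5 : (((x + i + 1).choose k : ℕ) : ℝ) =
        (((x + i).choose k : ℕ) : ℝ) * ((x : ℝ) + i + 1) / ((x : ℝ) + i + 1 - k) := by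
      rw [eq_div_iff hden.ne']; exact h3.symm
    have h6 : 1 + (k : ℝ) / Mx ≤ ((x : ℝ) + i + 1) / ((x : ℝ) + i + 1 - k) := by
      rw [le_div_iff₀ hden]
      have hk0 : (0 : ℝ) ≤ k := Nat.cast_nonneg _
      have h7 : (k : ℝ) / Mx * ((x : ℝ) + i + 1 - k) ≤ k := by
        rw [div_mul_eq_mul_div, div_le_iff₀ hMr]
        exact mul_le_mul_of_nonneg_left (by linarith) hk0
      linarith
    have h10 : (((x + (i + 1)).choose k : ℕ) : ℝ) =
        (((x + i).choose k : ℕ) : ℝ) * (((x : ℝ) + i + 1) / ((x : ℝ) + i + 1 - k)) := by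
      rw [show x + (i + 1) = x + i + 1 by ring, h5, mul_div_assoc]
    rw [h10]
    have hc0 : (0 : ℝ) ≤ ((x.choose k : ℕ) : ℝ) := Nat.cast_nonneg _
    have hk0 : (0 : ℝ) ≤ (k : ℝ) / Mx := by positivity
    calc ((x.choose k : ℕ) : ℝ) * (1 + ((i + 1 : ℕ) : ℝ) * k / Mx)
        ≤ ((x.choose k : ℕ) : ℝ) * ((1 + (i : ℝ) * k / Mx) * (1 + (k : ℝ) / Mx)) := by
          refine mul_le_mul_of_nonneg_left ?_ hc0
          push_cast
          have h8 : 0 ≤ ((i : ℝ) * k / Mx) * (k / Mx) := by positivity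
          have h9 : ((i : ℝ) + 1) * k / Mx = (i : ℝ) * k / Mx + (k : ℝ) / Mx := by ring
          rw [h9]; nlinarith
      _ = (((x.choose k : ℕ) : ℝ) * (1 + (i : ℝ) * k / Mx)) * (1 + (k : ℝ) / Mx) := by ring
      _ ≤ (((x + i).choose k : ℕ) : ℝ) * (((x : ℝ) + i + 1) / ((x : ℝ) + i + 1 - k)) := by
          refine mul_le_mul h1 h6 (by positivity) (Nat.cast_nonneg _)

/-- the overlap of the blocking sets -/
noncomputable def ov (T : Finset (Finset V)) (A : Finset V) (a : V) : ℝ :=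
  ∑ z ∈ D T A a, ∑ z' ∈ D T A a, (((Kz T A z).erase a ∩ (Kz T A z').erase a).card : ℝ)

theorem sum_Y_sq {r : ℕ} (hT : ∀ e ∈ T, e.card = r) {A : Finset V} (hA : A ∈ I T J)
    {a : V} (ha : a ∈ A) {p : ℕ} (hp : 2 * (r - 2) ≤ p) (hpJ : p < J - 1) :
    ((J - 1 - 2 * (r - 2)).choose (J - 1 - p) : ℕ) * (((D T A a).card : ℝ) ^ 2 +
      (((J - 1 - p : ℕ) : ℝ) / ((J - 1 : ℕ) : ℝ)) * ov T A a) ≤
    ∑ C ∈ powersetCard p (A.erase a), ((Y T A a C).card : ℝ) ^ 2 := by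
  have h1 : ∀ C ∈ powersetCard p (A.erase a), ((Y T A a C).card : ℝ) ^ 2 =
      ∑ z ∈ D T A a, ∑ z' ∈ D T A a,
        if (Kz T A z).erase a ∪ (Kz T A z').erase a ⊆ C then (1 : ℝ) else 0 := by
    intro C _
    have h2 : ((Y T A a C).card : ℝ) =
        ∑ z ∈ D T A a, if (Kz T A z).erase a ⊆ C then (1 : ℝ) else 0 := by
      rw [← Finset.sum_filter, sum_const, nsmul_eq_mul, mul_one]; rfl
    rw [h2, sq, sum_mul_sum]
    refine sum_congr rfl fun z _ => sum_congr rfl fun z' _ => ?_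
    by_cases h3 : (Kz T A z).erase a ⊆ C <;> by_cases h4 : (Kz T A z').erase a ⊆ C <;>
      simp [union_subset_iff, h3, h4]
  rw [sum_congr rfl h1, sum_comm]
  have h3 : ((J - 1 - 2 * (r - 2)).choose (J - 1 - p) : ℕ) * (((D T A a).card : ℝ) ^ 2 +
      (((J - 1 - p : ℕ) : ℝ) / ((J - 1 : ℕ) : ℝ)) * ov T A a) =
      ∑ z ∈ D T A a, ∑ z' ∈ D T A a, (((J - 1 - 2 * (r - 2)).choose (J - 1 - p) : ℕ) : ℝ) *
        (1 + (((Kz T A z).erase a ∩ (Kz T A z').erase a).card : ℝ) * ((J - 1 - p : ℕ) : ℝ) /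
          ((J - 1 : ℕ) : ℝ)) := by
    simp_rw [← mul_sum, sum_add_distrib]
    congr 1
    congr 1
    · simp only [sum_const, nsmul_eq_mul, mul_one]; ring
    · unfold ov
      simp_rw [mul_sum]
      exact sum_congr rfl fun z _ => sum_congr rfl fun z' _ => by ring
  rw [h3]
  refine sum_le_sum fun z hz => ?_
  rw [sum_comm]
  refine sum_le_sum fun z' hz' => ?_
  obtain ⟨c1, c2⟩ := card_Kz_erase hT (mem_I.1 hA).2 hz
  obtain ⟨d1, d2⟩ := card_Kz_erase hT (mem_I.1 hA).2 hz'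
  set K1 := (Kz T A z).erase a with hK1
  set K2 := (Kz T A z').erase a with hK2
  have hun := card_union_add_card_inter K1 K2
  have hle : (K1 ∩ K2).card ≤ K1.card := card_le_card inter_subset_left
  rw [← Finset.sum_filter, sum_const, nsmul_eq_mul, mul_one,
    card_contain (union_subset c2 d2) (by omega), card_erase_of_mem ha, (mem_I.1 hA).1]
  have e1 : (J - 1 - (K1 ∪ K2).card).choose (p - (K1 ∪ K2).card) =
      (J - 1 - (K1 ∪ K2).card).choose (J - 1 - p) := by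
    rw [← Nat.choose_symm (by omega)]
    congr 1; omega
  rw [e1]
  have h4 := choose_growth (J - 1 - p) (J - 1) (K1 ∩ K2).card (J - 1 - 2 * (r - 2)) (by omega)
    (by omega) (by omega)
  have e2 : J - 1 - 2 * (r - 2) + (K1 ∩ K2).card = J - 1 - (K1 ∪ K2).card := by omega
  rw [e2] at h4
  exact h4

end Pool.Agent.J4.H84.TU
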