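import Pool.Agent.J4.H84.TU.Dens
import Pool.Agent.Y437.FC.Uni

/-! # The linear range -/

set_option autoImplicit false

open Finset Filter Topology

namespace Pool.Agent.J4.H84.TU

open Pool.Agent.H120R2.Clique

/-- the density form of the gain in the linear range -/
theorem density_gain {r m : ℕ} (hr : 3 ≤ r) (hm : r < m) :
    turanDensity r m ≤ 1 - (1 + Y437.FC.gain r m) / ((((m - 1).choose (r - 1) : ℕ)) : ℝ) := by
  have hC : (0 : ℝ) < ((((m - 1).choose (r - 1) : ℕ)) : ℝ) := by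
    exact_mod_cast Nat.choose_pos (show r - 1 ≤ m - 1 by omega)
  have h1 : Tendsto (fun n : ℕ => 1 - (ex n r m : ℝ) / (n.choose r : ℝ)) atTop
      (𝓝 (1 - turanDensity r m)) := (ratio_tendsto r m).const_sub 1
  have h2 : Tendsto (fun n : ℕ => (1 + Y437.FC.gain r m) / ((((m - 1).choose (r - 1) : ℕ)) : ℝ) -
      (r : ℝ) * (r - 1) / (2 * n)) atTop
      (𝓝 ((1 + Y437.FC.gain r m) / ((((m - 1).choose (r - 1) : ℕ)) : ℝ) - 0)) := by
    refine Tendsto.const_sub _ ?_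
    refine Tendsto.div_atTop tendsto_const_nhds ?_
    exact tendsto_natCast_atTop_atTop.const_mul_atTop (by norm_num)
  rw [sub_zero] at h2
  have h3 : (1 + Y437.FC.gain r m) / ((((m - 1).choose (r - 1) : ℕ)) : ℝ) ≤ 1 - turanDensity r m := by
    refine le_of_tendsto_of_tendsto h2 h1 ?_
    filter_upwards [eventually_ge_atTop m] with n hn
    obtain ⟨G, hG1, hG2, hG3⟩ := exists_extremal (n := n) (r := r) (m := m) hm.le
    set T : Finset (Finset (Fin n)) := (powersetCard r univ) \ G with hTd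
    have hF : TH440.DC.Covers T r m := by
      intro A hA
      by_contra hcon
      push Not at hcon
      refine hG2 ⟨A, hA, fun e he => ?_⟩
      by_contra hne
      have he' := mem_powersetCard.1 he
      exact hcon e (mem_sdiff.2 ⟨mem_powersetCard.2 ⟨subset_univ _, he'.2⟩, hne⟩) he'.2 he'.1
    have h4 := Y437.FC.card_bound hr hm (show 1 ≤ n by omega) hF
    have hTc : (T.card : ℝ) = ((n.choose r : ℕ) : ℝ) - (ex n r m : ℝ) := by
      have h1 : G ⊆ powersetCard r univ := fun e he => mem_powersetCard.2 ⟨subset_univ _, hG1 e he⟩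
      rw [hTd, cast_card_sdiff h1, card_powersetCard, card_univ, Fintype.card_fin, hG3]
    rw [hTc] at h4
    have hCn : (0 : ℝ) < ((n.choose r : ℕ) : ℝ) := by
      exact_mod_cast Nat.choose_pos (show r ≤ n by omega)
    have e2 : 1 - (ex n r m : ℝ) / (n.choose r : ℝ) =
        (((n.choose r : ℕ) : ℝ) - (ex n r m : ℝ)) / ((n.choose r : ℕ) : ℝ) := by
      rw [sub_div, div_self hCn.ne']
    rw [e2, le_div_iff₀ hCn]
    exact h4
  linarith

/-- the gain below `m = 3·10^9 r` -/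
theorem gain_low {r m : ℕ} (hr : 3 ≤ r) (hm : 2 * r ≤ m + 1) (hm2 : m ≤ 3 * 10 ^ 9 * r) :
    1 / 10 ^ 23 * (((m : ℝ) - 2 * r + 2) / ((m : ℝ) - r)) ≤ Y437.FC.gain r m := by
  have hrm : r < m := by omega
  have hd : (0 : ℝ) < (m : ℝ) - r := by
    have : (r : ℝ) < m := by exact_mod_cast hrm
    linarith
  have hr3 : (3 : ℝ) ≤ r := by exact_mod_cast hr
  have hm' : 2 * (r : ℝ) ≤ m + 1 := by exact_mod_cast hm
  have hm2' : (m : ℝ) ≤ 3 * 10 ^ 9 * r := by exact_mod_cast hm2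
  obtain ⟨ρ, hρ⟩ : ∃ ρ : ℝ, ρ = ((r : ℝ) - 2) / (m - r) := ⟨_, rfl⟩
  have h := Y437.FC.gain_ge hr hrm ρ hρ
  refine le_trans ?_ h
  have hρ0 : 0 < ρ := by rw [hρ]; exact div_pos (by linarith) hd
  have hρ1 : ρ < 1 := by rw [hρ, div_lt_one hd]; linarith
  have hτ : ((m : ℝ) - 2 * r + 2) / ((m : ℝ) - r) = 1 - ρ := by
    rw [hρ, eq_sub_iff_add_eq, ← add_div, div_eq_one_iff_eq hd.ne']; ring
  have hρl : 1 / 10 ^ 10 ≤ ρ := by
    rw [hρ, le_div_iff₀ hd]
    linarith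
  have habs : ρ * (1 - ρ) ≤ |ρ - round ρ| := by
    rw [abs_sub_round_eq_min, Int.fract_eq_self.2 ⟨hρ0.le, hρ1⟩]
    refine le_min ?_ ?_ <;> nlinarith
  rw [hτ]
  have hden : 4 * (1 + ρ) ^ 2 * (2 + ρ) * (3 + ρ) ≤ 192 := by
    have e1 : (1 + ρ) ^ 2 ≤ 2 ^ 2 := pow_le_pow_left₀ (by linarith) (by linarith) 2
    have e2 : 4 * (1 + ρ) ^ 2 ≤ 16 := by linarith
    have e3 : 4 * (1 + ρ) ^ 2 * (2 + ρ) ≤ 16 * 3 := mul_le_mul e2 (by linarith) (by linarith) (by norm_num)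
    have e4 : 4 * (1 + ρ) ^ 2 * (2 + ρ) * (3 + ρ) ≤ 16 * 3 * 4 :=
      mul_le_mul e3 (by linarith) (by linarith) (by norm_num)
    linarith
  have hden0 : 0 < 4 * (1 + ρ) ^ 2 * (2 + ρ) * (3 + ρ) := by positivity
  rw [le_div_iff₀ hden0]
  have h5 : ρ * (ρ * (1 - ρ)) ≤ ρ * |ρ - round ρ| := mul_le_mul_of_nonneg_left habs hρ0.le
  refine le_trans ?_ h5
  have h6 : 0 ≤ 1 - ρ := by linarith
  have h7 : (1 / 10 ^ 10) * (1 / 10 ^ 10) ≤ ρ * ρ := mul_le_mul hρl hρl (by positivity) hρ0.le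
  have h8 : 1 / 10 ^ 23 * (1 - ρ) * (4 * (1 + ρ) ^ 2 * (2 + ρ) * (3 + ρ)) ≤
      1 / 10 ^ 23 * (1 - ρ) * 192 := mul_le_mul_of_nonneg_left hden (by positivity)
  have h9 : (1 / 10 ^ 10) * (1 / 10 ^ 10) * (1 - ρ) ≤ ρ * ρ * (1 - ρ) :=
    mul_le_mul_of_nonneg_right h7 h6
  linarith

/-- **the density form, for all `m ≥ 2r - 1`** -/
theorem density_all {r m : ℕ} (hr : 3 ≤ r) (hm : 2 * r ≤ m + 1) :
    turanDensity r m ≤ 1 - (1 + 1 / 10 ^ 48 * (((m : ℝ) - 2 * r + 2) / ((m : ℝ) - r))) /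
      ((((m - 1).choose (r - 1) : ℕ)) : ℝ) := by
  have hC : (0 : ℝ) < ((((m - 1).choose (r - 1) : ℕ)) : ℝ) := by
    exact_mod_cast Nat.choose_pos (show r - 1 ≤ m - 1 by omega)
  have hd : (0 : ℝ) < (m : ℝ) - r := by
    have : (r : ℝ) < m := by exact_mod_cast (show r < m by omega)
    linarith
  have hr3 : (3 : ℝ) ≤ r := by exact_mod_cast hr
  have hm' : 2 * (r : ℝ) ≤ m + 1 := by exact_mod_cast hm
  have hτ0 : 0 ≤ ((m : ℝ) - 2 * r + 2) / ((m : ℝ) - r) := div_nonneg (by linarith) hd.le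
  have hτ1 : ((m : ℝ) - 2 * r + 2) / ((m : ℝ) - r) ≤ 1 := by rw [div_le_one hd]; linarith
  rcases le_total m (3 * 10 ^ 9 * r) with h | h
  · have h1 := density_gain hr (show r < m by omega)
    have h2 := gain_low hr hm h
    have h3 : (1 + 1 / 10 ^ 48 * (((m : ℝ) - 2 * r + 2) / ((m : ℝ) - r))) /
      ((((m - 1).choose (r - 1) : ℕ)) : ℝ) ≤
      (1 + Y437.FC.gain r m) / ((((m - 1).choose (r - 1) : ℕ)) : ℝ) := by
      refine div_le_div_of_nonneg_right ?_ hC.le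
      linarith
    linarith
  · have h1 := density hr h
    have h3 : (1 + 1 / 10 ^ 48 * (((m : ℝ) - 2 * r + 2) / ((m : ℝ) - r))) /
      ((((m - 1).choose (r - 1) : ℕ)) : ℝ) ≤
      (1 + 1 / 10 ^ 48) / ((((m - 1).choose (r - 1) : ℕ)) : ℝ) := by
      refine div_le_div_of_nonneg_right ?_ hC.le
      linarith
    linarith

/-- **the density form, for all `m ≥ 3r`** -/
theorem density_three {r m : ℕ} (hr : 3 ≤ r) (hm : 3 * r ≤ m) :
    turanDensity r m ≤ 1 - (1 + 1 / 10 ^ 48) / ((((m - 1).choose (r - 1) : ℕ)) : ℝ) := by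
  have hC : (0 : ℝ) < ((((m - 1).choose (r - 1) : ℕ)) : ℝ) := by
    exact_mod_cast Nat.choose_pos (show r - 1 ≤ m - 1 by omega)
  have hd : (0 : ℝ) < (m : ℝ) - r := by
    have : (r : ℝ) < m := by exact_mod_cast (show r < m by omega)
    linarith
  have hr3 : (3 : ℝ) ≤ r := by exact_mod_cast hr
  have hm' : 3 * (r : ℝ) ≤ m := by exact_mod_cast hm
  rcases le_total m (3 * 10 ^ 9 * r) with h | h
  · have h1 := density_gain hr (show r < m by omega)
    have h2 := gain_low hr (by omega) h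
    have hτ : 1 / 2 ≤ ((m : ℝ) - 2 * r + 2) / ((m : ℝ) - r) := by
      rw [le_div_iff₀ hd]; linarith
    have h3 : (1 + 1 / 10 ^ 48) / ((((m - 1).choose (r - 1) : ℕ)) : ℝ) ≤
      (1 + Y437.FC.gain r m) / ((((m - 1).choose (r - 1) : ℕ)) : ℝ) := by
      refine div_le_div_of_nonneg_right ?_ hC.le
      linarith
    linarith
  · exact density hr h

end Pool.Agent.J4.H84.TU
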