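import Pool.Agent.J4.H84.TU.Haz2

/-! # Lower bound for the class sizes along the chain -/

set_option autoImplicit false

open Finset

namespace Pool.Agent.J4.H84.TU

variable {V : Type*} [Fintype V] [DecidableEq V] {T : Finset (Finset V)} {J : ℕ}

/-- weight of the bad sets of size `J - 1`, relative to the number of pairs -/
noncomputable def prb (T : Finset (Finset V)) (J : ℕ) (vs : ℝ) : ℝ :=
  (∑ A ∈ (I T (J - 1)).filter (fun A => ((U T A).card : ℝ) < vs), ((U T A).card : ℝ)) /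
    (((I T J).card : ℝ) * J)

theorem prb_nonneg (vs : ℝ) : 0 ≤ prb T J vs :=
  div_nonneg (sum_nonneg fun _ _ => Nat.cast_nonneg _) (by positivity)

theorem w_pred (hJ0 : 1 ≤ J) {A : Finset V} (hA : A ∈ I T (J - 1)) :
    w T J A = ((U T A).card : ℝ) := by
  have h := sum_w_insert (T := T) (J := J) (C := A) (by rw [(mem_I.1 hA).1]; omega)
  rw [(mem_I.1 hA).1, Nat.cast_sub hJ0] at h
  have h2 : ∑ y ∈ U T A, w T J (insert y A) = ((U T A).card : ℝ) := by
    rw [sum_congr rfl (fun y hy => ?_), sum_const, nsmul_eq_mul, mul_one]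
    refine w_top (mem_I.2 ⟨?_, (mem_U.1 hy).2⟩)
    rw [card_insert_of_notMem (mem_U.1 hy).1, (mem_I.1 hA).1]; omega
  rw [h2] at h
  push_cast at h
  linarith

/-- the pointwise bound for the density of the next element -/
theorem w_insert_le (hJ0 : 1 ≤ J) {vs : ℝ} (hvs : 0 < vs) {p : ℕ} (hp : p < J) {C : Finset V}
    (hC : C ∈ I T p) {a : V} (ha : a ∈ U T C) :
    w T J (insert a C) ≤ ((J : ℝ) - p) * w T J C / vs +
      (((I T (J - 1)).filter fun A => ((U T A).card : ℝ) < vs ∧ C ⊆ A ∧ a ∈ U T A).card : ℝ) := by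
  have hCc := (mem_I.1 hC).1
  have h1 := sum_w_sup_insert T J C (q := J - 1) (by omega) (y := a) (mem_U.1 ha).1
  rw [hCc, show J - 1 - p = (J - 1 - p) from rfl, Nat.choose_self, Nat.cast_one, mul_one] at h1
  have h2 : ∑ C' ∈ (I T (J - 1)).filter (fun C' => C ⊆ C' ∧ a ∉ C'), w T J (insert a C') =
      (((I T (J - 1)).filter fun A => C ⊆ A ∧ a ∈ U T A).card : ℝ) := by
    have h3 : ∑ C' ∈ (I T (J - 1)).filter (fun C' => C ⊆ C' ∧ a ∈ U T C'), w T J (insert a C') =
        ∑ C' ∈ (I T (J - 1)).filter (fun C' => C ⊆ C' ∧ a ∉ C'), w T J (insert a C') := by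
      refine sum_subset ?_ ?_
      · intro C' h
        rw [mem_filter] at h ⊢
        exact ⟨h.1, h.2.1, (mem_U.1 h.2.2).1⟩
      · intro C' h h'
        rw [mem_filter] at h h'
        exact w_eq_zero fun hind => h' ⟨h.1, h.2.1, mem_U.2 ⟨h.2.2, hind⟩⟩
    rw [← h3, sum_congr rfl (fun A hA => ?_), sum_const, nsmul_eq_mul, mul_one]
    rw [mem_filter] at hA
    refine w_top (mem_I.2 ⟨?_, (mem_U.1 hA.2.2).2⟩)
    rw [card_insert_of_notMem (mem_U.1 hA.2.2).1, (mem_I.1 hA.1).1]; omega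
  rw [← h1, h2]
  have h4 : (((I T (J - 1)).filter fun A => C ⊆ A ∧ a ∈ U T A).card : ℝ) =
      (((I T (J - 1)).filter fun A => ¬ ((U T A).card : ℝ) < vs ∧ C ⊆ A ∧ a ∈ U T A).card : ℝ) +
      (((I T (J - 1)).filter fun A => ((U T A).card : ℝ) < vs ∧ C ⊆ A ∧ a ∈ U T A).card : ℝ) := by
    rw [← Nat.cast_add, ← card_union_of_disjoint]
    · congr 2
      ext A
      simp only [mem_union, mem_filter]
      tauto
    · rw [Finset.disjoint_left]
      intro A h h'
      rw [mem_filter] at h h'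
      exact h.2.1 h'.2.1
  rw [h4]
  have h5 : (((I T (J - 1)).filter fun A =>
      ¬ ((U T A).card : ℝ) < vs ∧ C ⊆ A ∧ a ∈ U T A).card : ℝ) ≤
      ((J : ℝ) - p) * w T J C / vs := by
    rw [le_div_iff₀ hvs]
    have h6 := sum_w_sup T J C (q := J - 1) (by omega)
    rw [hCc, Nat.choose_symm_of_eq_add (show J - p = (J - 1 - p) + 1 by omega), Nat.choose_one_right,
      Nat.cast_sub hp.le] at h6
    rw [mul_comm ((J : ℝ) - p), ← h6, ← nsmul_eq_mul, ← sum_const]
    refine le_trans (sum_le_sum (g := fun A => w T J A) fun A hA => ?_)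
      (sum_le_sum_of_subset_of_nonneg ?_ fun A _ _ => w_nonneg A)
    · rw [mem_filter] at hA
      rw [w_pred hJ0 hA.1]
      exact not_lt.1 hA.2.1
    · intro A hA
      rw [mem_filter] at hA ⊢
      exact ⟨hA.1, hA.2.2.1⟩
  linarith

/-- total weight of the bad parts -/
theorem sum_bad (hJ0 : 1 ≤ J) (vs : ℝ) {p : ℕ} (hp : p < J) :
    ∑ C ∈ I T p, ∑ a ∈ U T C,
      (((I T (J - 1)).filter fun A => ((U T A).card : ℝ) < vs ∧ C ⊆ A ∧ a ∈ U T A).card : ℝ) =
    (((J : ℝ) - p) * W T J p) * prb T J vs := by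
  have h1 : ∀ C ∈ I T p, ∀ a ∈ U T C,
      (((I T (J - 1)).filter fun A => ((U T A).card : ℝ) < vs ∧ C ⊆ A ∧ a ∈ U T A).card : ℝ) =
      ∑ A ∈ (I T (J - 1)).filter (fun A => C ⊆ A ∧ a ∈ U T A),
        (if ((U T A).card : ℝ) < vs then (1 : ℝ) else 0) := by
    intro C _ a _
    rw [← Finset.sum_filter, filter_filter, sum_const, nsmul_eq_mul, mul_one]
    congr 2
    ext A
    simp only [mem_filter]
    tauto
  rw [sum_congr rfl fun C hC => sum_congr rfl fun a ha => h1 C hC a ha,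
    sum_swap T p (J - 1) (fun A _ => if ((U T A).card : ℝ) < vs then (1 : ℝ) else 0)]
  have h2 : ∑ A ∈ I T (J - 1), ∑ a ∈ U T A, (if ((U T A).card : ℝ) < vs then (1 : ℝ) else 0) =
      ∑ A ∈ (I T (J - 1)).filter (fun A => ((U T A).card : ℝ) < vs), ((U T A).card : ℝ) := by
    rw [Finset.sum_filter]
    refine sum_congr rfl fun A _ => ?_
    split_ifs <;> simp
  rw [h2]
  by_cases hne : (I T J).Nonempty
  · have hN : (0 : ℝ) < ((I T J).card : ℝ) * J := by
      have : (0 : ℝ) < ((I T J).card : ℝ) := by exact_mod_cast card_pos.2 hne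
      have : (0 : ℝ) < (J : ℝ) := by exact_mod_cast hJ0
      positivity
    unfold prb
    rw [mul_div_assoc', eq_div_iff hN.ne', W_eq]
    have h3 := Nat.add_one_mul_choose_eq (J - 1) (J - 1 - p)
    have e1 : (J - 1).choose (J - 1 - p) = (J - 1).choose p :=
      Nat.choose_symm (by omega)
    have e2 : J.choose (J - p) = J.choose p := Nat.choose_symm hp.le
    rw [show J - 1 + 1 = J by omega, show J - 1 - p + 1 = J - p by omega, e1, e2] at h3
    have h4 : (J : ℝ) * ((J - 1).choose p : ℕ) = (J.choose p : ℕ) * ((J : ℝ) - p) := by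
      have : ((J * (J - 1).choose p : ℕ) : ℝ) = ((J.choose p * (J - p) : ℕ) : ℝ) := by rw [h3]
      rw [Nat.cast_mul, Nat.cast_mul, Nat.cast_sub hp.le] at this
      exact this
    linear_combination (∑ A ∈ (I T (J - 1)).filter (fun A => ((U T A).card : ℝ) < vs),
      ((U T A).card : ℝ)) * ((I T J).card : ℝ) * h4
  · rw [not_nonempty_iff_eq_empty] at hne
    have hU : ∀ A ∈ I T (J - 1), ((U T A).card : ℝ) = 0 := by
      intro A hA
      rw [← w_pred hJ0 hA]
      unfold w
      rw [hne, filter_empty, card_empty, Nat.cast_zero]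
    have hW : W T J p = 0 := by rw [W_eq, hne, card_empty, Nat.cast_zero, zero_mul]
    rw [hW, mul_zero, zero_mul, sum_eq_zero (fun A hA => hU A (mem_filter.1 hA).1), mul_zero]

/-- **lower bound for the class sizes along the chain** -/
theorem lower (hJ0 : 1 ≤ J) {p : ℕ} (hp : p < J) {vs k0 κ E1 : ℝ}
    (hvs : 0 < vs) (hk0 : 0 < k0) (hM : κ * vs ≤ Fintype.card V)
    (hE : ∑ C ∈ I T p, ∑ y ∈ U T C, |k0 * H T J C y / ((J : ℝ) - p) - (k0 * κ) * w T J C| ≤
      W T J p * E1) :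
    ∑ C ∈ I T p, ∑ a ∈ U T C, w T J (insert a C) * max 0 (κ * vs - (cls T C a).card) ≤
      (((J : ℝ) - p) * W T J p) * (E1 / k0 + 2 * (Fintype.card V * prb T J vs)) := by
  have hJp : (0 : ℝ) < (J : ℝ) - p := by
    have : (p : ℝ) < J := by exact_mod_cast hp
    linarith
  obtain ⟨bd, hbd⟩ : ∃ bd : Finset V → V → ℝ, ∀ C a, bd C a =
    (((I T (J - 1)).filter fun A => ((U T A).card : ℝ) < vs ∧ C ⊆ A ∧ a ∈ U T A).card : ℝ) :=
    ⟨_, fun _ _ => rfl⟩
  have hbd0 : ∀ C a, 0 ≤ bd C a := fun C a => by rw [hbd]; exact Nat.cast_nonneg _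
  have hsb : ∑ C ∈ I T p, ∑ a ∈ U T C, bd C a = (((J : ℝ) - p) * W T J p) * prb T J vs := by
    rw [← sum_bad (T := T) hJ0 vs hp]
    exact sum_congr rfl fun C _ => sum_congr rfl fun a _ => hbd C a
  have hwi : ∀ C ∈ I T p, ∀ a ∈ U T C, w T J (insert a C) ≤
      ((J : ℝ) - p) * w T J C / vs + bd C a := by
    intro C hC a ha
    rw [hbd]
    exact w_insert_le hJ0 hvs hp hC ha
  have hn0 : (0 : ℝ) ≤ Fintype.card V := Nat.cast_nonneg _
  -- pointwise
  have hpt : ∀ C ∈ I T p, ∀ a ∈ U T C,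
      w T J (insert a C) * max 0 (κ * vs - (cls T C a).card) ≤
      ((J : ℝ) - p) / k0 * |k0 * H T J C a / ((J : ℝ) - p) - (k0 * κ) * w T J C| +
        ∑ x ∈ cls T C a, bd C x + (Fintype.card V : ℝ) * bd C a := by
    intro C hC a ha
    have h1 := hwi C hC a ha
    have h2 : H T J C a ≤ ((J : ℝ) - p) * w T J C / vs * (cls T C a).card + ∑ x ∈ cls T C a, bd C x := by
      unfold H
      calc ∑ x ∈ cls T C a, w T J (insert x C) ≤
          ∑ x ∈ cls T C a, (((J : ℝ) - p) * w T J C / vs + bd C x) :=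
            sum_le_sum fun x hx => hwi C hC x (cls_subset_U _ _ hx)
        _ = _ := by rw [sum_add_distrib, sum_const, nsmul_eq_mul]; ring
    have hs0 : 0 ≤ ∑ x ∈ cls T C a, bd C x := sum_nonneg fun x _ => hbd0 C x
    have h3 : (((J : ℝ) - p) * w T J C / vs) * (κ * vs - (cls T C a).card) ≤
        ((J : ℝ) - p) / k0 * |k0 * H T J C a / ((J : ℝ) - p) - (k0 * κ) * w T J C| +
        ∑ x ∈ cls T C a, bd C x := by
      have h4 : ((J : ℝ) - p) / k0 * |k0 * H T J C a / ((J : ℝ) - p) - (k0 * κ) * w T J C| =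
          |H T J C a - ((J : ℝ) - p) * κ * w T J C| := by
        have hc : 0 ≤ ((J : ℝ) - p) / k0 := by positivity
        have e9 : H T J C a - ((J : ℝ) - p) * κ * w T J C =
            ((J : ℝ) - p) / k0 * (k0 * H T J C a / ((J : ℝ) - p) - (k0 * κ) * w T J C) := by
          field_simp
        rw [e9, abs_mul, abs_of_nonneg hc]
      rw [h4]
      have h5 := neg_abs_le (H T J C a - ((J : ℝ) - p) * κ * w T J C)
      have h6 : (((J : ℝ) - p) * w T J C / vs) * (κ * vs - (cls T C a).card) =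
          ((J : ℝ) - p) * κ * w T J C - ((J : ℝ) - p) * w T J C / vs * (cls T C a).card := by
        field_simp
      rw [h6]
      linarith
    have h7 : (((J : ℝ) - p) * w T J C / vs) * max 0 (κ * vs - (cls T C a).card) ≤
        ((J : ℝ) - p) / k0 * |k0 * H T J C a / ((J : ℝ) - p) - (k0 * κ) * w T J C| +
        ∑ x ∈ cls T C a, bd C x := by
      rcases max_cases 0 (κ * vs - ((cls T C a).card : ℝ)) with ⟨h, -⟩ | ⟨h, -⟩
      · rw [h, mul_zero]
        exact add_nonneg (mul_nonneg (div_nonneg hJp.le hk0.le) (abs_nonneg _)) hs0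
      · rw [h]; exact h3
    have h8 : max 0 (κ * vs - ((cls T C a).card : ℝ)) ≤ Fintype.card V := by
      refine max_le hn0 ?_
      have : (0 : ℝ) ≤ (cls T C a).card := Nat.cast_nonneg _
      linarith
    have h9 : 0 ≤ max 0 (κ * vs - ((cls T C a).card : ℝ)) := le_max_left _ _
    calc w T J (insert a C) * max 0 (κ * vs - (cls T C a).card)
        ≤ (((J : ℝ) - p) * w T J C / vs + bd C a) * max 0 (κ * vs - (cls T C a).card) :=
          mul_le_mul_of_nonneg_right h1 h9
      _ = (((J : ℝ) - p) * w T J C / vs) * max 0 (κ * vs - (cls T C a).card) +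
          bd C a * max 0 (κ * vs - (cls T C a).card) := by ring
      _ ≤ _ := by
          have := mul_le_mul_of_nonneg_left h8 (hbd0 C a)
          linarith
  refine (sum_le_sum fun C hC => sum_le_sum fun y hy => hpt C hC y hy).trans ?_
  simp_rw [sum_add_distrib, ← mul_sum]
  have h10 : ∑ C ∈ I T p, ∑ a ∈ U T C, ∑ x ∈ cls T C a, bd C x ≤
      (Fintype.card V : ℝ) * ∑ C ∈ I T p, ∑ a ∈ U T C, bd C a := by
    rw [mul_sum]
    refine sum_le_sum fun C _ => ?_
    rw [Finset.sum_comm' (t' := U T C) (s' := fun a => cls T C a)]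
    · rw [mul_sum]
      refine sum_le_sum fun x _ => ?_
      rw [sum_const, nsmul_eq_mul]
      refine mul_le_mul_of_nonneg_right ?_ (hbd0 C x)
      exact_mod_cast card_le_univ _
    · intro y a
      constructor
      · rintro ⟨h1, h2⟩
        exact ⟨cls_symm h1 h2, cls_subset_U _ _ h2⟩
      · rintro ⟨h1, h2⟩
        exact ⟨cls_subset_U _ _ h1, cls_symm h2 h1⟩
  rw [hsb] at h10
  rw [hsb]
  have h12 := mul_le_mul_of_nonneg_left hE (show 0 ≤ ((J : ℝ) - p) / k0 by positivity)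
  calc _ ≤ ((J : ℝ) - p) / k0 * (W T J p * E1) +
        (Fintype.card V : ℝ) * ((((J : ℝ) - p) * W T J p) * prb T J vs) +
        (Fintype.card V : ℝ) * ((((J : ℝ) - p) * W T J p) * prb T J vs) := by
        exact add_le_add (add_le_add h12 h10) le_rfl
    _ = _ := by ring

end Pool.Agent.J4.H84.TU
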