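import Pool.Agent.J4.H84.TU.Dens
import Pool.Agent.H688R3.TuranGenLimit

/-! # The large-clique constant -/

set_option autoImplicit false

open Finset Filter Topology

namespace Pool.Agent.J4.H84.TU

open Pool.Agent.H120R2.Clique

/-- the limit constant exceeds `(r-1)!` by an absolute factor -/
theorem limit_bound {r : ℕ} (hr : 3 ≤ r) : ∃ L : ℝ,
    Tendsto (fun m : ℕ => ((m : ℝ) - 1) ^ (r - 1) * (1 - turanDensity r m)) atTop (𝓝 L) ∧
    (1 + 1 / 10 ^ 48) * ((r - 1).factorial : ℝ) ≤ L ∧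
    ∀ m : ℕ, r ≤ m →
      turanDensity r m ≤ 1 - (1 + 1 / 10 ^ 48) * ((r - 1).factorial : ℝ) / ((m : ℝ) - 1) ^ (r - 1) := by
  obtain ⟨r₀, h⟩ := Pool.Agent.H688R3.TuranGen.main
  obtain ⟨L, h1, h2, h3, h4, h5⟩ := h r hr
  have hL : (1 + 1 / 10 ^ 48) * ((r - 1).factorial : ℝ) ≤ L := by
    refine ge_of_tendsto h3 ?_
    filter_upwards [eventually_ge_atTop (3 * 10 ^ 9 * r)] with m hm
    have h6 := density hr hm
    have hC : (0 : ℝ) < ((((m - 1).choose (r - 1) : ℕ)) : ℝ) := by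
      exact_mod_cast Nat.choose_pos (show r - 1 ≤ m - 1 by omega)
    have h7 : ((((m - 1).choose (r - 1) : ℕ)) : ℝ) * ((r - 1).factorial : ℝ) ≤
        ((m : ℝ) - 1) ^ (r - 1) := by
      have e1 : ((m - 1 : ℕ) : ℝ) = (m : ℝ) - 1 := by rw [Nat.cast_sub (by omega)]; push_cast; ring
      rw [← e1]
      have e2 : (m - 1).choose (r - 1) * (r - 1).factorial ≤ (m - 1) ^ (r - 1) := by
        rw [mul_comm, ← Nat.descFactorial_eq_factorial_mul_choose]
        exact Nat.descFactorial_le_pow _ _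
      exact_mod_cast e2
    have h8 : (1 + 1 / 10 ^ 48) / ((((m - 1).choose (r - 1) : ℕ)) : ℝ) ≤ 1 - turanDensity r m := by
      linarith
    have h9 := mul_le_mul h7 h8 (by positivity) (le_trans (by positivity) h7)
    refine le_trans (le_of_eq ?_) h9
    field_simp
  refine ⟨L, h3, hL, fun m hm => ?_⟩
  have h6 := h4 m hm
  have hm1 : (0 : ℝ) < (m : ℝ) - 1 := by
    have : ((3 : ℕ) : ℝ) ≤ m := by exact_mod_cast hr.trans hm
    push_cast at this; linarith
  have h7 : (0 : ℝ) < ((m : ℝ) - 1) ^ (r - 1) := by positivity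
  have h8 : (1 + 1 / 10 ^ 48) * ((r - 1).factorial : ℝ) / ((m : ℝ) - 1) ^ (r - 1) ≤
      1 - turanDensity r m := by
    rw [div_le_iff₀ h7]; linarith
  linarith

end Pool.Agent.J4.H84.TU
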