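import Pool.Agent.J4.H84.TU.Combine

/-! # Choosing the level, and the finite theorem -/

set_option autoImplicit false

open Finset

namespace Pool.Agent.J4.H84.TU

variable {V : Type*} [Fintype V] [DecidableEq V] {T : Finset (Finset V)} {r j : ℕ}

/-- the level with about half of the vertices blocked -/
theorem exists_J0 (hr : 3 ≤ r) (hjr : 10 ^ 9 * r ≤ j) : ∃ J0, J0 < j ∧ j ≤ 2 * J0 + 1 ∧
    2 * J0.choose (r - 1) ≤ j.choose (r - 1) ∧ j.choose (r - 1) < 2 * (J0 + 1).choose (r - 1) := by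
  classical
  obtain ⟨P, hP⟩ : ∃ P : ℕ → Prop, ∀ x, P x ↔ 2 * x.choose (r - 1) ≤ j.choose (r - 1) :=
    ⟨_, fun _ => Iff.rfl⟩
  have hj0 : 0 < j.choose (r - 1) := Nat.choose_pos (by omega)
  have h1 : P (j / 2) := by
    rw [hP]
    have h2 := choose_superadd (r - 1) (j / 2) (j / 2) (by omega)
    have h3 : (j / 2 + j / 2).choose (r - 1) ≤ j.choose (r - 1) := Nat.choose_le_choose _ (by omega)
    omega
  have h4 := Nat.findGreatest_spec (P := P) (n := j) (by omega : j / 2 ≤ j) h1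
  have h5 := Nat.le_findGreatest (P := P) (n := j) (by omega : j / 2 ≤ j) h1
  have h6 := Nat.findGreatest_le (P := P) j
  set J0 := Nat.findGreatest P j with hJ0
  rw [hP] at h4
  have h7 : J0 < j := by
    rcases h6.lt_or_eq with h | h
    · exact h
    · rw [h] at h4; omega
  refine ⟨J0, h7, by omega, h4, ?_⟩
  have h8 := Nat.findGreatest_is_greatest (P := P) (n := j) (k := J0 + 1) (by omega) (by omega)
  rw [hP] at h8
  omega

/-- a level at which the canonical sequence is flat -/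
theorem exists_flat {L J0 : ℕ} {B : ℕ → ℝ} {X : ℝ} (hL : 0 < L) (hLJ : L ≤ J0)
    (hB : ∀ i l, J0 - L ≤ i → i ≤ l → l ≤ J0 + 1 → B l ≤ B i)
    (hX : B (J0 - L) - B (J0 + 1) ≤ X) :
    ∃ J, J0 - L < J ∧ J ≤ J0 ∧ (B (J - 1) - B (J + 1)) * L ≤ 2 * X := by
  by_contra hcon
  push Not at hcon
  have key : ∀ t ∈ range L, 2 * X < (B (J0 - L + t) - B (J0 - L + t + 2)) * L := by
    intro t ht
    have ht := mem_range.1 ht
    have := hcon (J0 - L + t + 1) (by omega) (by omega)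
    rw [show J0 - L + t + 1 - 1 = J0 - L + t by omega] at this
    exact this
  have hne : (range L).Nonempty := ⟨0, mem_range.2 hL⟩
  have hsum := sum_lt_sum_of_nonempty hne key
  rw [sum_const, nsmul_eq_mul, card_range, ← sum_mul] at hsum
  have e : ∑ t ∈ range L, (B (J0 - L + t) - B (J0 - L + t + 2)) =
      ∑ t ∈ range L, (B (J0 - L + t) - B (J0 - L + (t + 1))) +
      ∑ t ∈ range L, (B (J0 - L + 1 + t) - B (J0 - L + 1 + (t + 1))) := by
    rw [← sum_add_distrib]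
    refine sum_congr rfl fun t _ => ?_
    rw [show J0 - L + 1 + t = J0 - L + (t + 1) by ring,
      show J0 - L + 1 + (t + 1) = J0 - L + t + 2 by ring]
    ring
  rw [e, Finset.sum_range_sub' (fun t => B (J0 - L + t)) L,
    Finset.sum_range_sub' (fun t => B (J0 - L + 1 + t)) L] at hsum
  simp only [Nat.add_zero] at hsum
  have b1 := hB (J0 - L) (J0 - L + 1) le_rfl (by omega) (by omega)
  have b2 := hB (J0 - L + L) (J0 + 1) (by omega) (by omega) le_rfl
  have b3 := hB (J0 - L + 1 + L) (J0 + 1) (by omega) (by omega) le_rfl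
  have hL0 : (0 : ℝ) < L := by exact_mod_cast hL
  have b4 : (B (J0 - L) - B (J0 - L + L) + (B (J0 - L + 1) - B (J0 - L + 1 + L))) * L ≤
      (2 * X) * L := mul_le_mul_of_nonneg_right (by linarith) hL0.le
  linarith

/-- **the finite theorem** -/
theorem finite_main (hr : 3 ≤ r) (hT : ∀ e ∈ T, e.card = r) (hj : (I T j).Nonempty)
    (hj1 : I T (j + 1) = ∅) (hjr : 10 ^ 9 * r ≤ j) (hn : 10 ^ 11 * j ≤ Fintype.card V) :
    (1 + 1 / 10 ^ 48) * BB T r j < BB T r (r - 1) := by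
  by_contra hcon
  rw [not_lt] at hcon
  obtain ⟨J0, hJ0j, hJ0h, hG1, hG2⟩ := exists_J0 hr hjr
  have hrR : ((r - 1 : ℕ) : ℝ) = (r : ℝ) - 1 := by rw [Nat.cast_sub (by omega)]; push_cast; ring
  have hRpos : (0 : ℝ) < (r : ℝ) - 1 := by
    rw [← hrR]; exact_mod_cast (show 0 < r - 1 by omega)
  -- the number of levels
  obtain ⟨L, hLd⟩ : ∃ L, L = J0 / (16 * (r - 1)) := ⟨_, rfl⟩
  have h16 : 0 < 16 * (r - 1) := by omega
  have hL1 : 16 * (r - 1) * L ≤ J0 := by rw [hLd]; exact Nat.mul_div_le _ _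
  have hL2 : J0 < 16 * (r - 1) * (L + 1) := by
    rw [hLd]
    have := Nat.lt_mul_div_succ J0 h16
    exact this
  have hJ0big : 10 ^ 8 * 4 * (r - 1) + 10 ^ 7 * (r - 1) ≤ J0 := by omega
  have hLpos : 0 < L := by
    by_contra h
    have : L = 0 := by omega
    rw [this] at hL2; omega
  have hL32 : 32 * L ≤ J0 := by
    have : 32 * L ≤ 16 * (r - 1) * L := Nat.mul_le_mul_right _ (by omega)
    omega
  have hL3 : J0 + 1 ≤ 32 * ((r - 1) * L) := by
    have e1 : 16 * (r - 1) * (L + 1) ≤ 16 * (r - 1) * (2 * L) := Nat.mul_le_mul_left _ (by omega)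
    have e2 : 16 * (r - 1) * (2 * L) = 32 * ((r - 1) * L) := by ring
    omega
  -- canonical sequence
  have hne : ∀ i ≤ j, (I T i).Nonempty := fun i hi => ne_down hj hi
  have hanti : ∀ i l, r - 1 ≤ i → i ≤ l → l ≤ j → BB T r l ≤ BB T r i := fun i l h1 h2 h3 =>
    BB_anti (by omega) hT h1 h2 (hne l h3)
  obtain ⟨n, hnd⟩ : ∃ n : ℝ, n = (Fintype.card V : ℝ) := ⟨_, rfl⟩
  have hnj : 10 ^ 11 * (j : ℝ) ≤ n := by rw [hnd]; exact_mod_cast hn
  have hjpos : (0 : ℝ) < j := by exact_mod_cast (show 0 < j by omega)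
  have hnpos : 0 < n := by linarith
  have hGj : (0 : ℝ) < ((j.choose (r - 1) : ℕ) : ℝ) := by
    exact_mod_cast Nat.choose_pos (show r - 1 ≤ j by omega)
  have hBj : BB T r j * ((j.choose (r - 1) : ℕ) : ℝ) = n - j := by
    unfold BB
    rw [div_mul_cancel₀ _ hGj.ne', bb_last hj hj1, hnd]
  have hBjpos : 0 < BB T r j := by
    have : 0 < BB T r j * ((j.choose (r - 1) : ℕ) : ℝ) := by rw [hBj]; linarith
    exact pos_of_mul_pos_left this hGj.le
  -- the flat level
  obtain ⟨J, hJ1, hJ2, hflat⟩ := exists_flat (L := L) (J0 := J0) (B := BB T r)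
    (X := 1 / 10 ^ 48 * BB T r j) hLpos (by omega)
    (fun i l h1 h2 h3 => hanti i l (by omega) h2 (by omega))
    (by
      have e1 := hanti (r - 1) (J0 - L) le_rfl (by omega) (by omega)
      have e2 := hanti (J0 + 1) j (by omega) (by omega) le_rfl
      linarith)
  have hJr : r - 1 ≤ J - 1 := by omega
  have hJbig : 10 ^ 8 * 4 * (r - 1) ≤ J := by omega
  have hJpos : (0 : ℝ) < J := by exact_mod_cast (show 0 < J by omega)
  have hGJ0 : (0 : ℝ) < ((J.choose (r - 1) : ℕ) : ℝ) := by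
    exact_mod_cast Nat.choose_pos (show r - 1 ≤ J by omega)
  have hBJ : BB T r J * ((J.choose (r - 1) : ℕ) : ℝ) = bb T J J := by
    unfold BB
    exact div_mul_cancel₀ _ hGJ0.ne'
  have hBJj : BB T r j ≤ BB T r J := hanti J j (by omega) (by omega) le_rfl
  have hBJr : BB T r J ≤ BB T r (r - 1) := hanti (r - 1) J le_rfl (by omega) (by omega)
  have hBJ1 : BB T r J ≤ (1 + 1 / 10 ^ 48) * BB T r j := hBJr.trans hcon
  have hBJpos : 0 < BB T r J := lt_of_lt_of_le hBjpos hBJj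
  -- size of G(J)
  have hGup : 2 * ((J.choose (r - 1) : ℕ) : ℝ) ≤ ((j.choose (r - 1) : ℕ) : ℝ) := by
    have e1 : J.choose (r - 1) ≤ J0.choose (r - 1) := Nat.choose_le_choose _ hJ2
    exact_mod_cast (show 2 * J.choose (r - 1) ≤ j.choose (r - 1) by omega)
  have hGlow : (9 / 20 : ℝ) * ((j.choose (r - 1) : ℕ) : ℝ) ≤ ((J.choose (r - 1) : ℕ) : ℝ) := by
    have e1 := choose_ratio (r - 1) (show J ≤ J0 + 1 by omega)
    have e2 : ((j.choose (r - 1) : ℕ) : ℝ) ≤ 2 * (((J0 + 1).choose (r - 1) : ℕ) : ℝ) := by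
      exact_mod_cast hG2.le
    have e3 : (((J0 + 1 : ℕ) : ℝ) - J) * ((r - 1 : ℕ) : ℝ) / ((J : ℝ) + 1) ≤ 1 / 10 := by
      rw [div_le_iff₀ (by positivity)]
      have f1 : ((J0 + 1 : ℕ) : ℝ) - J ≤ L := by
        have : ((J0 + 1 : ℕ) : ℝ) ≤ ((J + L : ℕ) : ℝ) := by
          exact_mod_cast (show J0 + 1 ≤ J + L by omega)
        push_cast at this ⊢; linarith
      have f2 : (16 : ℝ) * ((r - 1 : ℕ) : ℝ) * L ≤ J0 := by exact_mod_cast hL1
      have f3 : (31 : ℝ) * J0 ≤ 32 * J := by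
        exact_mod_cast (show 31 * J0 ≤ 32 * J by omega)
      have f4 : (((J0 + 1 : ℕ) : ℝ) - J) * ((r - 1 : ℕ) : ℝ) ≤ L * ((r - 1 : ℕ) : ℝ) :=
        mul_le_mul_of_nonneg_right f1 (Nat.cast_nonneg _)
      linarith
    have e4 : (0 : ℝ) ≤ (((J0 + 1).choose (r - 1) : ℕ) : ℝ) := Nat.cast_nonneg _
    have e5 : (((J0 + 1).choose (r - 1) : ℕ) : ℝ) * (9 / 10) ≤ ((J.choose (r - 1) : ℕ) : ℝ) := by
      refine le_trans (mul_le_mul_of_nonneg_left ?_ e4) e1
      linarith
    linarith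
  -- bounds for b
  have hb2 : bb T J J ≤ 1 / 2 * (1 + 1 / 10 ^ 48) * (n - j) := by
    rw [← hBJ, ← hBj]
    have e1 : BB T r J * ((J.choose (r - 1) : ℕ) : ℝ) ≤
        ((1 + 1 / 10 ^ 48) * BB T r j) * (1 / 2 * ((j.choose (r - 1) : ℕ) : ℝ)) :=
      mul_le_mul hBJ1 (by linarith) hGJ0.le (by positivity)
    linarith
  have hb1 : 9 / 20 * (n - j) ≤ bb T J J := by
    rw [← hBJ, ← hBj]
    have e1 : BB T r j * (9 / 20 * ((j.choose (r - 1) : ℕ) : ℝ)) ≤
        BB T r J * ((J.choose (r - 1) : ℕ) : ℝ) :=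
      mul_le_mul hBJj hGlow (by positivity) hBJpos.le
    linarith
  -- free vertices
  have hJj : (J : ℝ) ≤ j := by exact_mod_cast (show J ≤ j by omega)
  have huu : ∀ i ≤ J, 2 / 5 * n ≤ vv T i i := by
    intro i hi
    have hiJ : (i : ℝ) ≤ J := by exact_mod_cast hi
    by_cases hri : r - 1 ≤ i
    · rw [uu_eq (r := r) hri (hne i (by omega)), ← hnd]
      have e1 : BB T r i ≤ (1 + 1 / 10 ^ 48) * BB T r j :=
        (hanti (r - 1) i le_rfl hri (by omega)).trans hcon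
      have e2 : ((i.choose (r - 1) : ℕ) : ℝ) ≤ 1 / 2 * ((j.choose (r - 1) : ℕ) : ℝ) := by
        have : ((i.choose (r - 1) : ℕ) : ℝ) ≤ ((J.choose (r - 1) : ℕ) : ℝ) := by
          exact_mod_cast Nat.choose_le_choose _ hi
        linarith
      have e3 : ((i.choose (r - 1) : ℕ) : ℝ) * BB T r i ≤
          (1 / 2 * ((j.choose (r - 1) : ℕ) : ℝ)) * ((1 + 1 / 10 ^ 48) * BB T r j) := by
        refine mul_le_mul e2 e1 ?_ (by positivity)
        exact hBjpos.le.trans (hanti i j hri (by omega) le_rfl)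
      have e4 : (1 / 2 * ((j.choose (r - 1) : ℕ) : ℝ)) * ((1 + 1 / 10 ^ 48) * BB T r j) =
          1 / 2 * (1 + 1 / 10 ^ 48) * (n - j) := by
        rw [← hBj]; ring
      rw [e4] at e3
      linarith
    · have e1 := vv_add_bb (hne i (by omega)) (i := i) le_rfl
      rw [bb_small hT (by omega), ← hnd] at e1
      linarith
  -- the flatness
  have hLr : (0 : ℝ) < L := by exact_mod_cast hLpos
  have hLrr : ((J : ℝ) + 1) ≤ 32 * (((r : ℝ) - 1) * L) := by
    rw [← hrR]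
    exact_mod_cast (show J + 1 ≤ 32 * ((r - 1) * L) by omega)
  have hdiff : ((J : ℝ) + 1) * (BB T r (J - 1) - BB T r (J + 1)) ≤
      64 / 10 ^ 48 * (((r : ℝ) - 1) * BB T r J) := by
    have e0 : 0 ≤ BB T r (J - 1) - BB T r (J + 1) := by
      have := hanti (J - 1) (J + 1) (by omega) (by omega) (by omega)
      linarith
    have e1 : ((J : ℝ) + 1) * (BB T r (J - 1) - BB T r (J + 1)) ≤
        (32 * (((r : ℝ) - 1) * L)) * (BB T r (J - 1) - BB T r (J + 1)) :=
      mul_le_mul_of_nonneg_right hLrr e0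
    have e2 : (32 * ((r : ℝ) - 1)) * ((BB T r (J - 1) - BB T r (J + 1)) * L) ≤
        (32 * ((r : ℝ) - 1)) * (2 * (1 / 10 ^ 48 * BB T r j)) :=
      mul_le_mul_of_nonneg_left hflat (by positivity)
    have e3 : ((r : ℝ) - 1) * BB T r j ≤ ((r : ℝ) - 1) * BB T r J :=
      mul_le_mul_of_nonneg_left hBJj hRpos.le
    linarith
  have rec1 := BB_rec (T := T) (r := r) (i := J - 1) (by omega) hJr
    (by rw [show J - 1 + 1 = J by omega]; exact hne J (by omega))
  rw [show J - 1 + 1 = J by omega] at rec1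
  have rec2 := BB_rec (T := T) (r := r) (i := J) (by omega) (by omega) (hne (J + 1) (by omega))
  have cJ1 : ((J - 1 : ℕ) : ℝ) + 1 = J := by rw [Nat.cast_sub (by omega)]; push_cast; ring
  rw [cJ1] at rec1
  have sgJ := sg_nonneg (T := T) (J := J) hT J
  have sgJ1 := sg_nonneg (T := T) (J := J + 1) hT (J + 1)
  have ddJ := dd_nonneg (T := T) (i := J) (hne (J + 1) (by omega))
  have ddJ1 := dd_nonneg (T := T) (i := J - 1)
    (by rw [show J - 1 + 1 = J by omega]; exact hne J (by omega))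
  have a1 := hanti (J - 1) J (by omega) (by omega) (by omega)
  have a2 := hanti J (J + 1) (by omega) (by omega) (by omega)
  have gg : (((J - 1).choose (r - 1) : ℕ) : ℝ) ≤ ((J.choose (r - 1) : ℕ) : ℝ) := by
    exact_mod_cast Nat.choose_le_choose _ (by omega)
  have main1 : sg T r J J + J * dd T (J - 1) ≤ 64 / 10 ^ 48 * (((r : ℝ) - 1) * bb T J J) := by
    rw [← rec1, ← hBJ]
    have e1 : (J : ℝ) * (((J - 1).choose (r - 1) : ℕ) : ℝ) * (BB T r (J - 1) - BB T r J) ≤
        ((J.choose (r - 1) : ℕ) : ℝ) * (((J : ℝ) + 1) * (BB T r (J - 1) - BB T r (J + 1))) := by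
      have f1 : (J : ℝ) * (BB T r (J - 1) - BB T r J) ≤
          ((J : ℝ) + 1) * (BB T r (J - 1) - BB T r (J + 1)) :=
        mul_le_mul (by linarith) (by linarith) (by linarith) (by linarith)
      have f2 := mul_le_mul gg f1 (mul_nonneg hJpos.le (by linarith)) hGJ0.le
      linarith
    have e2 := mul_le_mul_of_nonneg_left hdiff hGJ0.le
    linarith
  have main2 : sg T r (J + 1) (J + 1) ≤ 64 / 10 ^ 48 * (((r : ℝ) - 1) * bb T J J) := by
    have e3 : 0 ≤ ((J : ℝ) + 1) * dd T J := by positivity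
    have e1 : ((J : ℝ) + 1) * ((J.choose (r - 1) : ℕ) : ℝ) * (BB T r J - BB T r (J + 1)) ≤
        ((J.choose (r - 1) : ℕ) : ℝ) * (((J : ℝ) + 1) * (BB T r (J - 1) - BB T r (J + 1))) := by
      have f1 : ((J : ℝ) + 1) * (BB T r J - BB T r (J + 1)) ≤
          ((J : ℝ) + 1) * (BB T r (J - 1) - BB T r (J + 1)) :=
        mul_le_mul_of_nonneg_left (by linarith) (by linarith)
      have f2 := mul_le_mul_of_nonneg_left f1 hGJ0.le
      linarith
    have e2 := mul_le_mul_of_nonneg_left hdiff hGJ0.le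
    rw [← hBJ]
    linarith
  -- the step
  obtain ⟨k0, hk0d⟩ : ∃ k0, k0 = J / (10 ^ 8 * (r - 1)) := ⟨_, rfl⟩
  have hk1 : 10 ^ 8 * (r - 1) * k0 ≤ J := by rw [hk0d]; exact Nat.mul_div_le _ _
  have hk2 : J < 10 ^ 8 * (r - 1) * (k0 + 1) := by
    rw [hk0d]
    exact Nat.lt_mul_div_succ J (by omega)
  have hk4 : 4 ≤ k0 := by
    rw [hk0d, Nat.le_div_iff_mul_le (by omega)]
    omega
  have S : Setup T r J k0 :=
    { hr := hr
      hT := hT
      hJ1 := hne (J + 1) (by omega)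
      hk0 := hk4
      hk1 := by rw [← Nat.mul_assoc]; exact hk1
      hk2 := by
        have e1 : 10 ^ 8 * (r - 1) * (k0 + 1) ≤ 10 ^ 8 * (r - 1) * (2 * k0) :=
          Nat.mul_le_mul_left _ (by omega)
        have e2 : 10 ^ 8 * (r - 1) * (2 * k0) = 2 * 10 ^ 8 * ((r - 1) * k0) := by ring
        omega
      hb1 := by rw [← hnd]; linarith
      hb2 := by rw [← hnd]; linarith
      hu := by rw [← hnd]; exact huu
      hX := by
        refine hcon.trans ?_
        exact mul_le_mul_of_nonneg_left hBJj (by norm_num)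
      hs1 := by
        have : 0 ≤ (J : ℝ) * dd T (J - 1) := by positivity
        linarith
      hs2 := main2
      hd := by linarith
      hn := by rw [← hnd]; linarith }
  exact S.false

end Pool.Agent.J4.H84.TU
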