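import Pool.Agent.J4.H84.TU.Chain

/-! # Stars: a lower bound for the overlaps -/

set_option autoImplicit false

open Finset

namespace Pool.Agent.J4.H84.TU

variable {V : Type*} [Fintype V] [DecidableEq V] {T : Finset (Finset V)}

/-- blocked vertices with both `a` and `b` in the core -/
def Q (T : Finset (Finset V)) (A : Finset V) (a b : V) : Finset V := D T A a ∩ D T A b

theorem mem_Q {A : Finset V} {a b z : V} :
    z ∈ Q T A a b ↔ z ∈ blk T A ∧ a ∈ core T A z ∧ b ∈ core T A z := by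
  rw [Q, mem_inter, mem_D, mem_D]; tauto

/-- the bound for the extensions -/
theorem ext_aux {r : ℕ} (hT : ∀ e ∈ T, e.card = r) {A : Finset V} (hA : ind T A) {z : V}
    (hz : z ∈ blk T A) :
    ∑ x ∈ A, ∑ a ∈ A, ∑ b ∈ A, (if (x, a) ∈ trv T A z ∧ (x, b) ∈ trv T A z then (1 : ℝ) else 0) ≤
      2 * ((r : ℝ) - 1) ^ 2 * ((r : ℝ) - 1 - (core T A z).card) := by
  have hdeg : ∀ x ∈ A, ∑ b ∈ A, (if (x, b) ∈ trv T A z then (1 : ℝ) else 0) ≤ (r : ℝ) - 1 := by
    intro x _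
    have h1 := trv_partner hT hA hz x
    have h2 : ∑ b ∈ A, (if (x, b) ∈ trv T A z then (1 : ℝ) else 0) ≤
        (((trv T A z).filter fun y => y.1 = x).card : ℝ) := by
      rw [← Finset.sum_filter, sum_const, nsmul_eq_mul, mul_one]
      norm_cast
      refine card_le_card_of_injOn (fun b => (x, b)) ?_ ?_
      · intro b hb
        rw [mem_coe, mem_filter] at hb
        rw [mem_coe, mem_filter]
        exact ⟨hb.2, rfl⟩
      · intro b _ c _ h
        exact (Prod.mk.inj h).2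
    have h3 : (((trv T A z).filter fun y => y.1 = x).card : ℝ) + 1 ≤ r := by exact_mod_cast h1
    linarith
  have hr : (0 : ℝ) ≤ (r : ℝ) - 1 := by
    have := card_core_le hT hA hz
    have h2 : ((1 : ℕ) : ℝ) ≤ r := by exact_mod_cast (show 1 ≤ r by omega)
    push_cast at h2; linarith
  have h1 : ∀ x ∈ A, ∀ a ∈ A,
      ∑ b ∈ A, (if (x, a) ∈ trv T A z ∧ (x, b) ∈ trv T A z then (1 : ℝ) else 0) ≤
      (if (x, a) ∈ trv T A z then (1 : ℝ) else 0) * ((r : ℝ) - 1) := by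
    intro x hx a _
    by_cases h : (x, a) ∈ trv T A z
    · simp only [h, true_and, if_true, one_mul]
      exact hdeg x hx
    · simp [h]
  calc ∑ x ∈ A, ∑ a ∈ A, ∑ b ∈ A, (if (x, a) ∈ trv T A z ∧ (x, b) ∈ trv T A z then (1 : ℝ) else 0)
      ≤ ∑ x ∈ A, ∑ a ∈ A, (if (x, a) ∈ trv T A z then (1 : ℝ) else 0) * ((r : ℝ) - 1) :=
        sum_le_sum fun x hx => sum_le_sum fun a ha => h1 x hx a ha
    _ = ((trv T A z).card : ℝ) * ((r : ℝ) - 1) := by
        simp_rw [← sum_mul]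
        congr 1
        rw [← Finset.sum_product', ← Finset.sum_filter, sum_const, nsmul_eq_mul, mul_one]
        congr 2
        ext x
        rw [mem_filter]
        constructor
        · exact fun h => h.2
        · intro h
          exact ⟨(mem_filter.1 h).1, h⟩
    _ ≤ (2 * ((r : ℝ) - 1) * ((r : ℝ) - 1 - (core T A z).card)) * ((r : ℝ) - 1) :=
        mul_le_mul_of_nonneg_right (card_trv hT hA hz) hr
    _ = _ := by ring

theorem term4 {r : ℕ} (hT : ∀ e ∈ T, e.card = r) (J : ℕ) :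
    ∑ A ∈ I T J, ∑ a ∈ A, ∑ b ∈ A.erase a, ∑ z ∈ Q T A a b,
      (((cls T ((A.erase a).erase b) z) ∩ U T A).card : ℝ) ≤
    2 * ((r : ℝ) - 1) ^ 2 * ∑ A ∈ I T (J + 1), sig T r A := by
  have h1 : ∀ A ∈ I T J, ∑ a ∈ A, ∑ b ∈ A.erase a, ∑ z ∈ Q T A a b,
      (((cls T ((A.erase a).erase b) z) ∩ U T A).card : ℝ) =
      ∑ x ∈ U T A, ∑ a ∈ A, ∑ b ∈ A.erase a, ∑ z ∈ Q T A a b,
        if x ∈ cls T ((A.erase a).erase b) z then (1 : ℝ) else 0 := by
    intro A _
    rw [sum_comm]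
    refine sum_congr rfl fun a _ => ?_
    rw [sum_comm]
    refine sum_congr rfl fun b _ => ?_
    rw [sum_comm]
    refine sum_congr rfl fun z _ => ?_
    rw [← Finset.sum_filter, sum_const, nsmul_eq_mul, mul_one, inter_comm]
    rfl
  rw [sum_congr rfl h1, sum_pairs T J (fun A x => ∑ a ∈ A, ∑ b ∈ A.erase a, ∑ z ∈ Q T A a b,
    if x ∈ cls T ((A.erase a).erase b) z then (1 : ℝ) else 0), mul_sum]
  refine sum_le_sum fun A hA => ?_
  rw [mem_I] at hA
  have hA2 := hA.2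
  rw [sig, mul_sum]
  refine le_trans ?_ (sum_le_sum fun z hz => ext_aux hT hA2 hz)
  have h2 : ∑ z ∈ blk T A, ∑ x ∈ A, ∑ a ∈ A, ∑ b ∈ A,
      (if (x, a) ∈ trv T A z ∧ (x, b) ∈ trv T A z then (1 : ℝ) else 0) =
      ∑ x ∈ A, ∑ a ∈ A, ∑ b ∈ A, ∑ z ∈ blk T A,
        (if (x, a) ∈ trv T A z ∧ (x, b) ∈ trv T A z then (1 : ℝ) else 0) := by
    rw [sum_comm]
    refine sum_congr rfl fun x _ => ?_
    rw [sum_comm]
    refine sum_congr rfl fun a _ => ?_
    rw [sum_comm]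
  rw [h2]
  refine sum_le_sum fun x hx => ?_
  have g0 : ∀ a b : V, ∀ z ∈ blk T A,
      (0 : ℝ) ≤ (if (x, a) ∈ trv T A z ∧ (x, b) ∈ trv T A z then (1 : ℝ) else 0) := by
    intro a b z _; split_ifs <;> norm_num
  refine le_trans (sum_le_sum (g := fun a => ∑ b ∈ A, ∑ z ∈ blk T A,
    (if (x, a) ∈ trv T A z ∧ (x, b) ∈ trv T A z then (1 : ℝ) else 0)) fun a ha => ?_)
    (sum_le_sum_of_subset_of_nonneg (erase_subset _ _) fun a _ _ =>
      sum_nonneg fun b _ => sum_nonneg (g0 a b))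
  refine le_trans (sum_le_sum (g := fun b => ∑ z ∈ blk T A,
    (if (x, a) ∈ trv T A z ∧ (x, b) ∈ trv T A z then (1 : ℝ) else 0)) fun b hb => ?_)
    (sum_le_sum_of_subset_of_nonneg ((erase_subset _ _).trans (erase_subset _ _)) fun b _ _ =>
      sum_nonneg (g0 a b))
  rw [← Finset.sum_filter, ← Finset.sum_filter]
  refine sum_le_sum_of_subset_of_nonneg ?_ fun _ _ _ => zero_le_one
  intro z hz
  rw [mem_filter, mem_Q, mem_blk, mem_core, mem_core, mem_cls, mem_U] at hz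
  obtain ⟨⟨⟨z1, z2⟩, ⟨z3, z4⟩, z5, z6⟩, ⟨z7, z8⟩, z9⟩ := hz
  have hax := (mem_erase.1 ha).1
  have haA := (mem_erase.1 ha).2
  have hba := (mem_erase.1 hb).1
  have hbx := (mem_erase.1 (mem_erase.1 hb).2).1
  have hbA := (mem_erase.1 (mem_erase.1 hb).2).2
  have hzx : z ≠ x := by
    rintro rfl
    rw [insert_erase hx] at z2
    exact z2 hA2
  have hzA : z ∉ A := fun h => z1 (mem_erase.2 ⟨hzx, h⟩)
  have z9' : ¬ ind T (insert z (insert x (((A.erase x).erase a).erase b))) := by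
    rcases z9 with h | h
    · exact absurd h.symm hzx
    · exact h
  have ex : insert x (((A.erase x).erase a).erase b) = (A.erase a).erase b := by
    rw [erase_right_comm (a := x) (b := a), erase_right_comm (a := x) (b := b), insert_erase]
    exact mem_erase.2 ⟨hbx.symm, mem_erase.2 ⟨hax.symm, hx⟩⟩
  rw [ex] at z9'
  have cx : ¬ x ∈ core T A z := fun h => z2 (mem_core.1 h).2
  have ca : ¬ a ∈ core T A z := fun h =>
    z9' (ind_mono (insert_subset_insert _ (erase_subset _ _)) (mem_core.1 h).2)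
  have cb : ¬ b ∈ core T A z := fun h => by
    rw [erase_right_comm] at z9'
    exact z9' (ind_mono (insert_subset_insert _ (erase_subset _ _)) (mem_core.1 h).2)
  rw [mem_filter]
  refine ⟨mem_blk.2 ⟨hzA, fun h => z2 (ind_mono (insert_subset_insert _ (erase_subset _ _)) h)⟩,
    ?_, ?_⟩
  · rw [trv, mem_filter, mem_product]
    exact ⟨⟨hx, haA⟩, hax.symm, cx, ca, z4⟩
  · rw [trv, mem_filter, mem_product]
    exact ⟨⟨hx, hbA⟩, hbx.symm, cx, cb, z6⟩

end Pool.Agent.J4.H84.TU
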