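import Pool.Agent.J4.H84.TU.Star

/-! # Stars: the inequality -/

set_option autoImplicit false

open Finset

namespace Pool.Agent.J4.H84.TU

variable {V : Type*} [Fintype V] [DecidableEq V] {T : Finset (Finset V)}

/-- a star: any two of `a, b, z` can be added to `C`, but not all three -/
def PH (T : Finset (Finset V)) (J : ℕ) (x : Finset V × V × V × V) : Prop :=
  x.1.card + 2 = J ∧ x.2.1 ∉ x.1 ∧ x.2.2.1 ∉ x.1 ∧ x.2.2.2 ∉ x.1 ∧
    x.2.1 ≠ x.2.2.1 ∧ x.2.1 ≠ x.2.2.2 ∧ x.2.2.1 ≠ x.2.2.2 ∧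
    ind T (insert x.2.1 (insert x.2.2.1 x.1)) ∧ ind T (insert x.2.1 (insert x.2.2.2 x.1)) ∧
    ind T (insert x.2.2.1 (insert x.2.2.2 x.1)) ∧
    ¬ ind T (insert x.2.1 (insert x.2.2.1 (insert x.2.2.2 x.1)))

instance instDecPH (J : ℕ) : DecidablePred (PH T J) := fun x => by
  unfold PH; infer_instance

/-- the stars -/
def hh (T : Finset (Finset V)) (J : ℕ) : Finset (Finset V × V × V × V) := univ.filter (PH T J)

theorem mem_hh {J : ℕ} {x : Finset V × V × V × V} : x ∈ hh T J ↔ PH T J x := by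
  simp [hh]

omit [Fintype V] in
theorem PH_swap {J : ℕ} {C : Finset V} {a b z : V} (h : PH T J (C, a, b, z)) :
    PH T J (C, z, b, a) := by
  obtain ⟨h1, h2, h3, h4, h5, h6, h7, h8, h9, h10, h11⟩ := h
  refine ⟨h1, h4, h3, h2, h7.symm, h6.symm, h5.symm, ?_, ?_, ?_, ?_⟩
  · show ind T (insert z (insert b C))
    rw [Finset.insert_comm]; exact h10
  · show ind T (insert z (insert a C))
    rw [Finset.insert_comm]; exact h9
  · show ind T (insert b (insert a C))
    rw [Finset.insert_comm]; exact h8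
  · show ¬ ind T (insert z (insert b (insert a C)))
    have e : insert z (insert b (insert a C)) = insert a (insert b (insert z C)) := by
      ext y; simp only [mem_insert]; tauto
    rw [e]; exact h11

omit [Fintype V] in
theorem PH_rot {J : ℕ} {C : Finset V} {a b z : V} (h : PH T J (C, a, b, z)) :
    PH T J (C, z, a, b) := by
  obtain ⟨h1, h2, h3, h4, h5, h6, h7, h8, h9, h10, h11⟩ := h
  refine ⟨h1, h4, h2, h3, h6.symm, h7.symm, h5, ?_, ?_, ?_, ?_⟩
  · show ind T (insert z (insert a C))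
    rw [Finset.insert_comm]; exact h9
  · show ind T (insert z (insert b C))
    rw [Finset.insert_comm]; exact h10
  · exact h8
  · show ¬ ind T (insert z (insert a (insert b C)))
    have e : insert z (insert a (insert b C)) = insert a (insert b (insert z C)) := by
      ext y; simp only [mem_insert]; tauto
    rw [e]; exact h11

theorem sum_hh_swap (J : ℕ) (G : Finset V → V → V → V → ℝ) :
    ∑ x ∈ hh T J, G x.1 x.2.2.2 x.2.2.1 x.2.1 = ∑ x ∈ hh T J, G x.1 x.2.1 x.2.2.1 x.2.2.2 := by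
  refine Finset.sum_nbij' (fun x => (x.1, x.2.2.2, x.2.2.1, x.2.1))
    (fun x => (x.1, x.2.2.2, x.2.2.1, x.2.1)) ?_ ?_ ?_ ?_ ?_
  · rintro ⟨C, a, b, z⟩ h
    rw [mem_hh] at h ⊢
    exact PH_swap h
  · rintro ⟨C, a, b, z⟩ h
    rw [mem_hh] at h ⊢
    exact PH_swap h
  · rintro ⟨C, a, b, z⟩ _; rfl
  · rintro ⟨C, a, b, z⟩ _; rfl
  · rintro ⟨C, a, b, z⟩ _; rfl

theorem sum_hh_rot (J : ℕ) (G : Finset V → V → V → V → ℝ) :
    ∑ x ∈ hh T J, G x.1 x.2.2.2 x.2.1 x.2.2.1 = ∑ x ∈ hh T J, G x.1 x.2.1 x.2.2.1 x.2.2.2 := by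
  refine Finset.sum_nbij' (fun x => (x.1, x.2.2.2, x.2.1, x.2.2.1))
    (fun x => (x.1, x.2.2.1, x.2.2.2, x.2.1)) ?_ ?_ ?_ ?_ ?_
  · rintro ⟨C, a, b, z⟩ h
    rw [mem_hh] at h ⊢
    exact PH_rot h
  · rintro ⟨C, a, b, z⟩ h
    rw [mem_hh] at h ⊢
    exact PH_rot (PH_rot h)
  · rintro ⟨C, a, b, z⟩ _; rfl
  · rintro ⟨C, a, b, z⟩ _; rfl
  · rintro ⟨C, a, b, z⟩ _; rfl

theorem sum_hh (J : ℕ) (F : Finset V → V → V → V → ℝ) :
    ∑ x ∈ hh T J, F (insert x.2.1 (insert x.2.2.1 x.1)) x.2.1 x.2.2.1 x.2.2.2 =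
      ∑ A ∈ I T J, ∑ a ∈ A, ∑ b ∈ A.erase a, ∑ z ∈ Q T A a b, F A a b z := by
  have e1 : ∀ A ∈ I T J, ∑ a ∈ A, ∑ b ∈ A.erase a, ∑ z ∈ Q T A a b, F A a b z =
      ∑ y ∈ A.sigma (fun a => A.erase a), ∑ z ∈ Q T A y.1 y.2, F A y.1 y.2 z := by
    intro A _
    exact (Finset.sum_sigma A (fun a => A.erase a)
      (fun y => ∑ z ∈ Q T A y.1 y.2, F A y.1 y.2 z)).symm
  rw [sum_congr rfl e1]
  have e2 : ∀ A ∈ I T J, ∑ y ∈ A.sigma (fun a => A.erase a), ∑ z ∈ Q T A y.1 y.2, F A y.1 y.2 z =
      ∑ y ∈ (A.sigma (fun a => A.erase a)).sigma (fun y => Q T A y.1 y.2),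
        F A y.1.1 y.1.2 y.2 := by
    intro A _
    exact (Finset.sum_sigma (A.sigma (fun a => A.erase a)) (fun y => Q T A y.1 y.2)
      (fun y => F A y.1.1 y.1.2 y.2)).symm
  rw [sum_congr rfl e2, Finset.sum_sigma']
  refine Finset.sum_nbij'
    (fun x => ⟨insert x.2.1 (insert x.2.2.1 x.1), ⟨x.2.1, x.2.2.1⟩, x.2.2.2⟩)
    (fun y => ((y.1.erase y.2.1.1).erase y.2.1.2, y.2.1.1, y.2.1.2, y.2.2)) ?_ ?_ ?_ ?_ ?_
  · rintro ⟨C, a, b, z⟩ h
    rw [mem_hh] at h
    obtain ⟨h1, h2, h3, h4, h5, h6, h7, h8, h9, h10, h11⟩ := h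
    simp only at h1 h2 h3 h4 h5 h6 h7 h8 h9 h10 h11
    have ha : a ∉ insert b C := by
      rw [mem_insert, not_or]; exact ⟨h5, h2⟩
    have ea : (insert a (insert b C)).erase a = insert b C := erase_insert ha
    have eb : (insert a (insert b C)).erase b = insert a C := by
      rw [Finset.insert_comm]
      exact erase_insert (by rw [mem_insert, not_or]; exact ⟨h5.symm, h3⟩)
    simp only [mem_sigma, mem_I, mem_Q, mem_blk, mem_core]
    refine ⟨⟨?_, h8⟩, ⟨mem_insert_self _ _, ?_⟩, ⟨?_, ?_⟩, ⟨mem_insert_self _ _, ?_⟩, ?_, ?_⟩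
    · rw [card_insert_of_notMem ha, card_insert_of_notMem h3]; omega
    · rw [ea]; exact mem_insert_self _ _
    · rw [mem_insert, mem_insert, not_or, not_or]; exact ⟨h6.symm, h7.symm, h4⟩
    · have e : insert z (insert a (insert b C)) = insert a (insert b (insert z C)) := by
        ext y; simp only [mem_insert]; tauto
      rw [e]; exact h11
    · rw [ea, Finset.insert_comm]; exact h10
    · exact mem_insert_of_mem (mem_insert_self _ _)
    · rw [eb, Finset.insert_comm]; exact h9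
  · rintro ⟨A, ⟨a, b⟩, z⟩ h
    simp only [mem_sigma, mem_I, mem_Q, mem_blk, mem_core] at h
    obtain ⟨⟨h1, h2⟩, ⟨h3, h4⟩, ⟨h5, h6⟩, ⟨h7, h8⟩, h9, h10⟩ := h
    rw [mem_hh]
    have hba := (mem_erase.1 h4).1
    have ea : insert b ((A.erase a).erase b) = A.erase a := insert_erase h4
    have eb : insert a ((A.erase a).erase b) = A.erase b := by
      rw [erase_right_comm, insert_erase (mem_erase.2 ⟨hba.symm, h3⟩)]
    have hza : z ≠ a := fun h => h5 (h ▸ h3)
    have hzb : z ≠ b := fun h => h5 (h ▸ h9)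
    refine ⟨?_, ?_, ?_, ?_, hba.symm, hza.symm, hzb.symm, ?_, ?_, ?_, ?_⟩
    · show ((A.erase a).erase b).card + 2 = J
      have k1 := card_erase_add_one h4
      have k2 := card_erase_add_one h3
      omega
    · show a ∉ (A.erase a).erase b
      intro h; exact (mem_erase.1 (mem_erase.1 h).2).1 rfl
    · exact notMem_erase _ _
    · show z ∉ (A.erase a).erase b
      intro h; exact h5 (mem_erase.1 (mem_erase.1 h).2).2
    · show ind T (insert a (insert b ((A.erase a).erase b)))
      rw [ea, insert_erase h3]; exact h2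
    · show ind T (insert a (insert z ((A.erase a).erase b)))
      rw [Finset.insert_comm, eb]; exact h10
    · show ind T (insert b (insert z ((A.erase a).erase b)))
      rw [Finset.insert_comm, ea]; exact h8
    · show ¬ ind T (insert a (insert b (insert z ((A.erase a).erase b))))
      have e : insert a (insert b (insert z ((A.erase a).erase b))) =
          insert z (insert a (insert b ((A.erase a).erase b))) := by
        ext y; simp only [mem_insert]; tauto
      rw [e, ea, insert_erase h3]; exact h6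
  · rintro ⟨C, a, b, z⟩ h
    rw [mem_hh] at h
    obtain ⟨h1, h2, h3, h4, h5, h6, h7, h8, h9, h10, h11⟩ := h
    simp only at h1 h2 h3 h4 h5 h6 h7 h8 h9 h10 h11
    have ha : a ∉ insert b C := by
      rw [mem_insert, not_or]; exact ⟨h5, h2⟩
    simp only
    rw [erase_insert ha, erase_insert h3]
  · rintro ⟨A, ⟨a, b⟩, z⟩ h
    simp only [mem_sigma, mem_I, mem_Q, mem_blk, mem_core] at h
    obtain ⟨⟨h1, h2⟩, ⟨h3, h4⟩, ⟨h5, h6⟩, ⟨h7, h8⟩, h9, h10⟩ := h
    simp only
    rw [insert_erase h4, insert_erase h3]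
  · rintro ⟨C, a, b, z⟩ _; rfl

/-- **the inequality for one star** -/
theorem star_pt {J : ℕ} {C : Finset V} {a b z : V} (h : PH T J (C, a, b, z)) :
    (D T (insert z (insert b C)) z).card ≤ (Q T (insert z (insert b C)) z b).card +
      (Q T (insert a (insert b C)) a b).card + (cls T C z ∩ cls T C a).card +
      (cls T C z ∩ U T (insert a (insert b C))).card := by
  obtain ⟨h1, h2, h3, h4, h5, h6, h7, h8, h9, h10, h11⟩ := h
  simp only at h1 h2 h3 h4 h5 h6 h7 h8 h9 h10 h11
  have hsub : D T (insert z (insert b C)) z ⊆ ((Q T (insert z (insert b C)) z b ∪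
      Q T (insert a (insert b C)) a b) ∪ (cls T C z ∩ cls T C a)) ∪
      (cls T C z ∩ U T (insert a (insert b C))) := by
    intro x hx
    rw [mem_D, mem_blk, mem_core] at hx
    obtain ⟨⟨x1, x2⟩, x3, x4⟩ := hx
    rw [mem_insert, mem_insert, not_or, not_or] at x1
    obtain ⟨xz, xb, xC⟩ := x1
    have hz : z ∉ insert b C := by
      rw [mem_insert, not_or]; exact ⟨h7.symm, h4⟩
    rw [erase_insert hz] at x4
    have xU : x ∈ U T C := mem_U.2 ⟨xC, ind_mono (insert_subset_insert _ (subset_insert _ _)) x4⟩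
    by_cases hc : x ∈ cls T C z
    · have hc2 : ¬ ind T (insert z (insert x C)) := by
        rcases (mem_cls.1 hc).2 with h | h
        · exact absurd h xz
        · exact h
      have xa : x ≠ a := by
        rintro rfl
        rw [Finset.insert_comm] at hc2; exact hc2 h9
      by_cases hU : x ∈ U T (insert a (insert b C))
      · exact mem_union_right _ (mem_inter.2 ⟨hc, hU⟩)
      · refine mem_union_left _ ?_
        have xA : x ∉ insert a (insert b C) := by
          rw [mem_insert, mem_insert, not_or, not_or]; exact ⟨xa, xb, xC⟩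
        have xn : ¬ ind T (insert x (insert a (insert b C))) := fun h => hU (mem_U.2 ⟨xA, h⟩)
        have ha : a ∉ insert b C := by
          rw [mem_insert, not_or]; exact ⟨h5, h2⟩
        have ea : (insert a (insert b C)).erase a = insert b C := erase_insert ha
        have eb : (insert a (insert b C)).erase b = insert a C := by
          rw [Finset.insert_comm]
          exact erase_insert (by rw [mem_insert, not_or]; exact ⟨h5.symm, h3⟩)
        by_cases hi : ind T (insert x (insert a C))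
        · refine mem_union_left _ (mem_union_right _ ?_)
          rw [mem_Q, mem_blk, mem_core, mem_core, ea, eb]
          exact ⟨⟨xA, xn⟩, ⟨mem_insert_self _ _, x4⟩, mem_insert_of_mem (mem_insert_self _ _), hi⟩
        · refine mem_union_right _ (mem_inter.2 ⟨hc, mem_cls.2 ⟨xU, Or.inr ?_⟩⟩)
          rw [Finset.insert_comm]; exact hi
    · have hc2 : ind T (insert z (insert x C)) := by
        by_contra hcon
        exact hc (mem_cls.2 ⟨xU, Or.inr hcon⟩)
      refine mem_union_left _ (mem_union_left _ (mem_union_left _ ?_))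
      have eb : (insert z (insert b C)).erase b = insert z C := by
        rw [Finset.insert_comm]
        exact erase_insert (by rw [mem_insert, not_or]; exact ⟨h7, h3⟩)
      rw [mem_Q, mem_blk, mem_core, mem_core, erase_insert hz, eb]
      refine ⟨⟨?_, x2⟩, ⟨mem_insert_self _ _, x4⟩, mem_insert_of_mem (mem_insert_self _ _), ?_⟩
      · rw [mem_insert, mem_insert, not_or, not_or]; exact ⟨xz, xb, xC⟩
      · rw [Finset.insert_comm]; exact hc2
  refine (card_le_card hsub).trans ?_
  refine (card_union_le _ _).trans (Nat.add_le_add_right ?_ _)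
  refine (card_union_le _ _).trans (Nat.add_le_add_right ?_ _)
  exact card_union_le _ _

/-- the number of elements of the cores -/
theorem sum_Q (A : Finset V) (a : V) :
    ∑ b ∈ A.erase a, ((Q T A a b).card : ℝ) = ∑ z ∈ D T A a, (((core T A z).card : ℝ) - 1) := by
  have h1 : ∀ b ∈ A.erase a, ((Q T A a b).card : ℝ) =
      ∑ z ∈ D T A a, if b ∈ core T A z then (1 : ℝ) else 0 := by
    intro b _
    rw [← Finset.sum_filter, sum_const, nsmul_eq_mul, mul_one]
    congr 2
    ext z
    rw [mem_Q, mem_filter, mem_D]; tauto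
  rw [sum_congr rfl h1, sum_comm]
  refine sum_congr rfl fun z hz => ?_
  rw [← Finset.sum_filter, sum_const, nsmul_eq_mul, mul_one]
  have h2 : (A.erase a).filter (fun b => b ∈ core T A z) = (core T A z).erase a := by
    ext b
    rw [mem_filter, mem_erase, mem_erase]
    constructor
    · rintro ⟨⟨h1, h2⟩, h3⟩; exact ⟨h1, h3⟩
    · rintro ⟨h1, h3⟩; exact ⟨⟨h1, (mem_core.1 h3).1⟩, h3⟩
  rw [h2, card_erase_of_mem (mem_D.1 hz).2, Nat.cast_sub, Nat.cast_one]
  exact card_pos.2 ⟨a, (mem_D.1 hz).2⟩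

end Pool.Agent.J4.H84.TU
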